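import Pool.Agent.Lib.MP_27775c_an_SR.Defs

/-!
# MP_27775c_an, project SR: basic facts on rays
-/

set_option autoImplicit false

open MeasureTheory Set Filter Topology
open scoped Manifold ContDiff UpperHalfPlane

namespace Pool.Agent.MP27775c.SR

open Pool.Agent.MP27775c.DO

variable {Y : Type*} [TopologicalSpace Y] (A : RAct Y)

theorem ray_add (y : Y) (x s t : ℝ) : ray A y x (s + t) = A.act (ray A y x s) (aa t) := by
  unfold ray
  rw [← A.act_mul, aa_add, mul_assoc]

theorem cont_ray : Continuous fun p : Y × ℝ × ℝ => ray A p.1 p.2.1 p.2.2 := by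
  unfold ray
  exact A.cont.comp (continuous_fst.prodMk
    ((continuous_nn.comp (continuous_fst.comp continuous_snd)).mul
      (continuous_aa.comp (continuous_snd.comp continuous_snd))))

theorem cont_ray2 (y : Y) : Continuous fun p : ℝ × ℝ => ray A y p.1 p.2 := by
  have h : Continuous fun p : ℝ × ℝ => (y, p.1, p.2) := by fun_prop
  exact (cont_ray A).comp h

theorem cont_ray1 (y : Y) (s : ℝ) : Continuous fun x : ℝ => ray A y x s := by
  have h : Continuous fun x : ℝ => (x, s) := by fun_prop
  have h2 := (cont_ray2 A y).comp h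
  simpa only [Function.comp_def] using h2

variable [MeasurableSpace Y] [BorelSpace Y]

theorem meas_F_ray2 {F : Y → ℝ} (hF : Measurable F) (y : Y) :
    Measurable fun p : ℝ × ℝ => F (ray A y p.1 p.2) :=
  hF.comp (cont_ray2 A y).measurable

theorem meas_F_ray {F : Y → ℝ} (hF : Measurable F) (y : Y) (s : ℝ) :
    Measurable fun x : ℝ => F (ray A y x s) :=
  hF.comp (cont_ray1 A y s).measurable

theorem meas_F_bc {F : Y → ℝ} (hF : Measurable F) (y : Y) {b c : ℝ → ℝ} (hb : Measurable b)
    (hc : Measurable c) (s : ℝ) : Measurable fun x : ℝ => F (ray A y (b x) (c x + s)) := by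
  have h1 : Measurable fun x : ℝ => (b x, c x + s) := hb.prodMk (hc.add_const s)
  have h2 := (meas_F_ray2 A hF y).comp h1
  simpa only [Function.comp_def] using h2

/-- Bounded measurable functions are integrable on sets of finite measure. -/
theorem intOn {f : ℝ → ℝ} (hf : Measurable f) {C : ℝ} (hC : ∀ x, |f x| ≤ C) {B : Set ℝ}
    (hB : volume B ≠ ⊤) : IntegrableOn f B := by
  have : IsFiniteMeasure (volume.restrict B) := ⟨by
    rw [Measure.restrict_apply_univ]
    exact lt_of_le_of_ne le_top hB⟩
  exact Integrable.of_bound hf.aestronglyMeasurable C (ae_of_all _ fun x => by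
    rw [Real.norm_eq_abs]
    exact hC x)

theorem pt_eq (x s : ℝ) : (nn x * aa s) • UpperHalfPlane.I = pt x s := by
  have h : pp (pt x s) = nn x * aa s := by
    unfold pp
    have h1 : (pt x s).re = x := rfl
    have h2 : (pt x s).im = Real.exp s := rfl
    rw [h1, h2, Real.log_exp]
  rw [← h, pp_smul]

end Pool.Agent.MP27775c.SR
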