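import Pool.Agent.Lib.MP_27775c_an_SR.WkB

/-!
# MP_27775c_an, project SR, module BdA: transfer, with a constant delay
-/

set_option autoImplicit false

open MeasureTheory Set Filter Topology
open scoped Manifold ContDiff UpperHalfPlane

namespace Pool.Agent.MP27775c.SR

open Pool.Agent.MP27775c.DO

variable {Y : Type*} [TopologicalSpace Y] [PolishSpace Y] [MeasurableSpace Y] [BorelSpace Y]
  (A : RAct Y)

/-- Transfer. Proof. Fix `s`, `B`, `ε`; `B` has finite measure. Write `r = s - R k` and
`F (ray A y x r) - κ = I₁ + I₂ + I₃` with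
`I₁ = F (ray A y x r) - F (ray A y' (b x) (c x + r))`,
`I₂ = F (ray A y' (b x) (c x + r)) - F (ray A y' (b x) (c₀ + r))`,
`I₃ = F (ray A y' (b x) (c₀ + r)) - κ`; all are measurable (`meas_F_ray`, `meas_F_bc`) and bounded,
hence integrable on `B` (`intOn`).
`|∫ x in B, I₂| ≤ η * |B|` by `h2`. `∫ x in B, I₃ → 0` by `weak_comp` for
`h k x = F (ray A y' x (c₀ + s - R k))`, from `hg` at the parameter `c₀ + s`.
`|∫ x in B, I₁| ≤ ∫ x in B, |I₁| ≤ η * |B| + ∫ x in B, max (|I₁| - η) 0`, and the last integral
tends to zero by dominated convergence: for every `x ∈ E` the integrand vanishes for large `k`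
(`h1`, as `s - R k → -∞`), and it is bounded by `2 * C`. -/
theorem bd_const {F : Y → ℝ} (hF : Measurable F) {C κ : ℝ} (hC : ∀ y, |F y| ≤ C) {R : ℕ → ℝ}
    (hR : Tendsto R atTop atTop) {y y' : Y} (hg : Gd A F κ R y') {E : Set ℝ}
    (hE : MeasurableSet E) (hE' : volume E ≠ ⊤) {b c : ℝ → ℝ} (hb : Measurable b)
    (hc : Measurable c) (hn : ∀ Z : Set ℝ, volume Z = 0 → volume (E ∩ b ⁻¹' Z) = 0) {η c₀ : ℝ}
    (hη : 0 ≤ η)
    (h1 : ∀ x ∈ E, ∀ᶠ s in atBot, |F (ray A y x s) - F (ray A y' (b x) (c x + s))| ≤ η)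
    (h2 : ∀ x ∈ E, ∀ s : ℝ,
      |F (ray A y' (b x) (c x + s)) - F (ray A y' (b x) (c₀ + s))| ≤ η) :
    Bd A F κ R y (2 * η) E := by
  intro s B hBE hB ε hε
  have hBt : volume B ≠ ⊤ := ne_top_of_le_ne_top hE' (measure_mono hBE)
  have hBt' : volume B < ⊤ := lt_top_iff_ne_top.2 hBt
  have hC0 : 0 ≤ C := le_trans (abs_nonneg _) (hC y)
  have hfin : IsFiniteMeasure (volume.restrict B) := ⟨by
    rw [Measure.restrict_apply_univ]; exact hBt'⟩
  -- the three functions
  have m1 : ∀ k, Measurable fun x : ℝ => F (ray A y x (s - R k)) := fun k =>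
    meas_F_ray A hF y (s - R k)
  have m2 : ∀ k, Measurable fun x : ℝ => F (ray A y' (b x) (c x + (s - R k))) := fun k =>
    meas_F_bc A hF y' hb hc (s - R k)
  have m3 : ∀ k, Measurable fun x : ℝ => F (ray A y' (b x) (c₀ + (s - R k))) := fun k =>
    (meas_F_ray A hF y' (c₀ + (s - R k))).comp hb
  have i1 : ∀ k, IntegrableOn (fun x : ℝ => F (ray A y x (s - R k))) B := fun k =>
    intOn (m1 k) (fun x => hC _) hBt
  have i2 : ∀ k, IntegrableOn (fun x : ℝ => F (ray A y' (b x) (c x + (s - R k)))) B := fun k =>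
    intOn (m2 k) (fun x => hC _) hBt
  have i3 : ∀ k, IntegrableOn (fun x : ℝ => F (ray A y' (b x) (c₀ + (s - R k)))) B := fun k =>
    intOn (m3 k) (fun x => hC _) hBt
  have hbd : ∀ k x, |F (ray A y x (s - R k)) - F (ray A y' (b x) (c x + (s - R k)))| ≤ 2 * C := by
    intro k x
    have e1 := hC (ray A y x (s - R k))
    have e2 := hC (ray A y' (b x) (c x + (s - R k)))
    rw [abs_le] at e1 e2 ⊢
    constructor <;> linarith [e1.1, e1.2, e2.1, e2.2]
  have mJ : ∀ k, Measurable fun x : ℝ =>
      max (|F (ray A y x (s - R k)) - F (ray A y' (b x) (c x + (s - R k)))| - η) 0 := fun k =>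
    (((m1 k).sub (m2 k)).abs.sub_const η).max measurable_const
  have bJ : ∀ k x,
      |max (|F (ray A y x (s - R k)) - F (ray A y' (b x) (c x + (s - R k)))| - η) 0| ≤ 2 * C := by
    intro k x
    have e1 := hbd k x
    rw [abs_of_nonneg (le_max_right _ _)]
    exact max_le (by linarith) (by linarith)
  -- dominated convergence
  have hJ : Tendsto (fun k => ∫ x in B,
      max (|F (ray A y x (s - R k)) - F (ray A y' (b x) (c x + (s - R k)))| - η) 0) atTop
      (𝓝 0) := by
    have h0 : ∫ x in B, (fun _ : ℝ => (0 : ℝ)) x = 0 := by simp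
    rw [← congrArg 𝓝 h0]
    refine tendsto_integral_of_dominated_convergence (fun _ => 2 * C) ?_ ?_ ?_ ?_
    · intro k
      exact (mJ k).aestronglyMeasurable
    · exact integrable_const _
    · intro k
      refine ae_of_all _ fun x => ?_
      rw [Real.norm_eq_abs]
      exact bJ k x
    · refine (ae_restrict_iff' hB).2 (ae_of_all _ fun x hx => ?_)
      have hr : Tendsto (fun k => s - R k) atTop atBot :=
        tendsto_atBot_add_const_left _ _ (tendsto_neg_atTop_atBot.comp hR)
      have e1 := hr.eventually (h1 x (hBE hx))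
      refine tendsto_const_nhds.congr' ?_
      filter_upwards [e1] with k hk
      exact (max_eq_right (by linarith)).symm
  -- weak convergence
  have hW : Tendsto (fun k => ∫ x in B, F (ray A y' (b x) (c₀ + (s - R k)))) atTop
      (𝓝 (κ * (volume B).toReal)) := by
    refine weak_comp (h := fun k x => F (ray A y' x (c₀ + (s - R k))))
      (fun k => meas_F_ray A hF y' _) (fun k x => hC _) ?_ hb hB hBt ?_
    · intro p q
      have e1 := hg (c₀ + s) p q
      refine e1.congr fun k => ?_
      rw [add_sub_assoc]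
    · intro Z hZ
      refine measure_mono_null ?_ (hn Z hZ)
      exact inter_subset_inter_left _ hBE
  have hε2 : 0 < ε / 2 := by linarith
  have eJ := (tendsto_order.1 hJ).2 (ε / 2) hε2
  have eW := (Metric.tendsto_nhds.1 hW) (ε / 2) hε2
  filter_upwards [eJ, eW] with k hkJ hkW
  rw [Real.dist_eq] at hkW
  have hv : (volume.real B) = (volume B).toReal := rfl
  -- splitting
  have hκ : ∫ x in B, (fun _ : ℝ => κ) x = κ * (volume B).toReal := by
    rw [setIntegral_const, hv, smul_eq_mul, mul_comm]
  have hsplit : ∫ x in B, (F (ray A y x (s - R k)) - κ) =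
      (∫ x in B, (F (ray A y x (s - R k)) - F (ray A y' (b x) (c x + (s - R k))))) +
      (∫ x in B, (F (ray A y' (b x) (c x + (s - R k))) -
        F (ray A y' (b x) (c₀ + (s - R k))))) +
      ((∫ x in B, F (ray A y' (b x) (c₀ + (s - R k)))) - κ * (volume B).toReal) := by
    rw [integral_sub (i1 k) (i2 k), integral_sub (i2 k) (i3 k),
      integral_sub (i1 k) (integrable_const κ), hκ]
    ring
  have b2 : |∫ x in B, (F (ray A y' (b x) (c x + (s - R k))) -
        F (ray A y' (b x) (c₀ + (s - R k))))| ≤ η * (volume B).toReal := by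
    have := norm_setIntegral_le_of_norm_le_const (μ := volume) (s := B) (C := η)
      (f := fun x => F (ray A y' (b x) (c x + (s - R k))) -
        F (ray A y' (b x) (c₀ + (s - R k)))) hBt' (fun x hx => by
          rw [Real.norm_eq_abs]
          exact h2 x (hBE hx) (s - R k))
    rwa [Real.norm_eq_abs] at this
  have b1 : |∫ x in B, (F (ray A y x (s - R k)) - F (ray A y' (b x) (c x + (s - R k))))| ≤
      η * (volume B).toReal + ε / 2 := by
    have e1 : |∫ x in B, (F (ray A y x (s - R k)) - F (ray A y' (b x) (c x + (s - R k))))| ≤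
        ∫ x in B, |F (ray A y x (s - R k)) - F (ray A y' (b x) (c x + (s - R k)))| :=
      abs_integral_le_integral_abs
    have iJ : IntegrableOn (fun x : ℝ =>
        max (|F (ray A y x (s - R k)) - F (ray A y' (b x) (c x + (s - R k)))| - η) 0) B :=
      intOn (mJ k) (bJ k) hBt
    have e2 : ∫ x in B, |F (ray A y x (s - R k)) - F (ray A y' (b x) (c x + (s - R k)))| ≤
        ∫ x in B, ((fun _ : ℝ => η) x +
          max (|F (ray A y x (s - R k)) - F (ray A y' (b x) (c x + (s - R k)))| - η) 0) := by
      refine integral_mono ((i1 k).sub (i2 k)).abs ((integrable_const η).add iJ) fun x => ?_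
      have := le_max_left
        (|F (ray A y x (s - R k)) - F (ray A y' (b x) (c x + (s - R k)))| - η) 0
      show |F (ray A y x (s - R k)) - F (ray A y' (b x) (c x + (s - R k)))| ≤ η +
        max (|F (ray A y x (s - R k)) - F (ray A y' (b x) (c x + (s - R k)))| - η) 0
      linarith
    have e3 : ∫ x in B, ((fun _ : ℝ => η) x +
          max (|F (ray A y x (s - R k)) - F (ray A y' (b x) (c x + (s - R k)))| - η) 0) =
        η * (volume B).toReal + ∫ x in B,
          max (|F (ray A y x (s - R k)) - F (ray A y' (b x) (c x + (s - R k)))| - η) 0 := by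
      rw [integral_add (integrable_const η) iJ, setIntegral_const, hv, smul_eq_mul, mul_comm]
    linarith
  rw [hsplit]
  have t1 := abs_add_le ((∫ x in B, (F (ray A y x (s - R k)) -
      F (ray A y' (b x) (c x + (s - R k))))) +
      (∫ x in B, (F (ray A y' (b x) (c x + (s - R k))) -
        F (ray A y' (b x) (c₀ + (s - R k))))))
      ((∫ x in B, F (ray A y' (b x) (c₀ + (s - R k)))) - κ * (volume B).toReal)
  have t2 := abs_add_le (∫ x in B, (F (ray A y x (s - R k)) -
      F (ray A y' (b x) (c x + (s - R k)))))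
      (∫ x in B, (F (ray A y' (b x) (c x + (s - R k))) -
        F (ray A y' (b x) (c₀ + (s - R k)))))
  linarith

end Pool.Agent.MP27775c.SR
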