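import Pool.Agent.Lib.MP_27775c_an_SR.Bas

/-!
# MP_27775c_an, project SR, module BdB: countable unions
-/

set_option autoImplicit false

open MeasureTheory Set Filter Topology
open scoped Manifold ContDiff UpperHalfPlane

namespace Pool.Agent.MP27775c.SR

open Pool.Agent.MP27775c.DO

variable {Y : Type*} [TopologicalSpace Y] [PolishSpace Y] [MeasurableSpace Y] [BorelSpace Y]
  (A : RAct Y)

/-- The finite stages. -/
private def BdB_T (B : Set ℝ) (E : ℕ → Set ℝ) : ℕ → Set ℝ
  | 0 => ∅
  | n + 1 => BdB_T B E n ∪ (B ∩ E n)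

private theorem BdB_T_meas {B : Set ℝ} {E : ℕ → Set ℝ} (hB : MeasurableSet B)
    (hE : ∀ i, MeasurableSet (E i)) (n : ℕ) : MeasurableSet (BdB_T B E n) := by
  induction n with
  | zero => exact MeasurableSet.empty
  | succ n ih => exact ih.union (hB.inter (hE n))

private theorem BdB_T_sub {B : Set ℝ} {E : ℕ → Set ℝ} (n : ℕ) : BdB_T B E n ⊆ B := by
  induction n with
  | zero => exact empty_subset _
  | succ n ih => exact union_subset ih inter_subset_left

private theorem BdB_T_mono {B : Set ℝ} {E : ℕ → Set ℝ} : Monotone (BdB_T B E) :=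
  monotone_nat_of_le_succ fun _ => subset_union_left

private theorem BdB_T_iUnion {B : Set ℝ} {E : ℕ → Set ℝ} (h : B ⊆ ⋃ i, E i) :
    (⋃ n, BdB_T B E n) = B := by
  refine Subset.antisymm (iUnion_subset fun n => BdB_T_sub n) fun x hx => ?_
  obtain ⟨i, hi⟩ := mem_iUnion.1 (h hx)
  exact mem_iUnion.2 ⟨i + 1, Or.inr ⟨hx, hi⟩⟩

/-- Proof. Given `s`, `B ⊆ ⋃ i, E i` and `ε`, let `D i = B ∩ (E i \ ⋃ j < i, E j)`
(`disjointed`), disjoint measurable sets with union `B`, so `∑ |D i| = |B| < ∞`. Choose `N` with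
`(C + |κ|) * |B \ ⋃ i < N, D i| ≤ ε / 2`. For large `k`, `|∫ x in D i, ...| ≤ η * |D i| + ε / (2 * N
+ 2)` for all `i < N`; add up. -/
theorem bd_iUnion {F : Y → ℝ} (hF : Measurable F) {C κ : ℝ} (hC : ∀ y, |F y| ≤ C) {R : ℕ → ℝ}
    {y : Y} {η : ℝ} (hη : 0 ≤ η) {E : ℕ → Set ℝ} (hE : ∀ i, MeasurableSet (E i))
    (hU : volume (⋃ i, E i) ≠ ⊤) (h : ∀ i, Bd A F κ R y η (E i)) :
    Bd A F κ R y η (⋃ i, E i) := by
  intro s B hBE hB ε hε
  have hBfin : volume B ≠ ⊤ := ne_top_of_le_ne_top hU (measure_mono hBE)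
  have hfin : ∀ S : Set ℝ, S ⊆ B → volume S ≠ ⊤ := fun S hS =>
    ne_top_of_le_ne_top hBfin (measure_mono hS)
  have hgm : ∀ k, Measurable fun x => F (ray A y x (s - R k)) - κ := fun k =>
    (meas_F_ray A hF y (s - R k)).sub_const κ
  have hgb : ∀ k x, |F (ray A y x (s - R k)) - κ| ≤ C + |κ| := fun k x =>
    (abs_sub _ _).trans (add_le_add (hC _) le_rfl)
  have hC0 : 0 ≤ C + |κ| := (abs_nonneg _).trans (hgb 0 0)
  have hint : ∀ k, ∀ S : Set ℝ, S ⊆ B → IntegrableOn (fun x => F (ray A y x (s - R k)) - κ) S :=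
    fun k S hS => intOn (hgm k) (hgb k) (hfin S hS)
  have key : ∀ n : ℕ, ∀ δ > 0, ∀ᶠ k in atTop,
      |∫ x in BdB_T B E n, (F (ray A y x (s - R k)) - κ)| ≤
        η * (volume (BdB_T B E n)).toReal + δ := by
    intro n
    induction n with
    | zero =>
      intro δ hδ
      refine Eventually.of_forall fun k => ?_
      have h0 : BdB_T B E 0 = ∅ := rfl
      rw [h0, setIntegral_empty, abs_zero, measure_empty, ENNReal.toReal_zero, mul_zero, zero_add]
      exact hδ.le
    | succ n ih =>
      intro δ hδ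
      have hD : MeasurableSet ((B ∩ E n) \ BdB_T B E n) :=
        (hB.inter (hE n)).diff (BdB_T_meas hB hE n)
      have hDB : ((B ∩ E n) \ BdB_T B E n) ⊆ B := sdiff_subset.trans inter_subset_left
      have h1 := ih (δ / 2) (by linarith)
      have h2 := h n s ((B ∩ E n) \ BdB_T B E n) (sdiff_subset.trans inter_subset_right) hD
        (δ / 2) (by linarith)
      have hT : BdB_T B E (n + 1) = BdB_T B E n ∪ ((B ∩ E n) \ BdB_T B E n) := by
        rw [union_sdiff_self]
        rfl
      have hdis : Disjoint (BdB_T B E n) ((B ∩ E n) \ BdB_T B E n) := disjoint_sdiff_right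
      filter_upwards [h1, h2] with k hk1 hk2
      rw [hT, setIntegral_union hdis hD (hint k _ (BdB_T_sub n)) (hint k _ hDB),
        measure_union hdis hD, ENNReal.toReal_add (hfin _ (BdB_T_sub n)) (hfin _ hDB)]
      refine (abs_add_le _ _).trans ?_
      rw [mul_add]
      linarith
  have hlim : Tendsto (fun n => (volume (BdB_T B E n)).toReal) atTop
      (𝓝 (volume B).toReal) := by
    have h1 := tendsto_measure_iUnion_atTop (μ := volume) (BdB_T_mono (B := B) (E := E))
    rw [BdB_T_iUnion hBE] at h1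
    have h2 := (ENNReal.tendsto_toReal hBfin).comp h1
    simpa only [Function.comp_def] using h2
  have hlim2 : Tendsto (fun n => (C + |κ|) * ((volume B).toReal - (volume (BdB_T B E n)).toReal))
      atTop (𝓝 0) := by
    have h1 := (tendsto_const_nhds.sub hlim).const_mul (C + |κ|) (f := fun n =>
      (volume B).toReal - (volume (BdB_T B E n)).toReal)
    rw [sub_self, mul_zero] at h1
    exact h1
  obtain ⟨n, hn⟩ := (hlim2.eventually (gt_mem_nhds (half_pos hε))).exists
  filter_upwards [key n (ε / 2) (half_pos hε)] with k hk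
  have hR : MeasurableSet (B \ BdB_T B E n) := hB.diff (BdB_T_meas hB hE n)
  have hRB : B \ BdB_T B E n ⊆ B := sdiff_subset
  have hBu : B = BdB_T B E n ∪ (B \ BdB_T B E n) := by
    rw [union_sdiff_self, union_eq_self_of_subset_left (BdB_T_sub n)]
  have hdis : Disjoint (BdB_T B E n) (B \ BdB_T B E n) := disjoint_sdiff_right
  have hvol : (volume B).toReal =
      (volume (BdB_T B E n)).toReal + (volume (B \ BdB_T B E n)).toReal := by
    rw [← ENNReal.toReal_add (hfin _ (BdB_T_sub n)) (hfin _ hRB), ← measure_union hdis hR, ← hBu]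
  have hsplit : ∫ x in B, (F (ray A y x (s - R k)) - κ) =
      (∫ x in BdB_T B E n, (F (ray A y x (s - R k)) - κ)) +
        ∫ x in B \ BdB_T B E n, (F (ray A y x (s - R k)) - κ) := by
    rw [← setIntegral_union hdis hR (hint k _ (BdB_T_sub n)) (hint k _ hRB), ← hBu]
  have hrest : |∫ x in B \ BdB_T B E n, (F (ray A y x (s - R k)) - κ)| ≤
      (C + |κ|) * (volume (B \ BdB_T B E n)).toReal := by
    have h1 := norm_setIntegral_le_of_norm_le_const (μ := volume) (s := B \ BdB_T B E n)
      (f := fun x => F (ray A y x (s - R k)) - κ) (C := C + |κ|)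
      (lt_top_iff_ne_top.2 (hfin _ hRB)) fun x _ => by
        rw [Real.norm_eq_abs]
        exact hgb k x
    rw [Real.norm_eq_abs] at h1
    exact h1
  rw [hsplit]
  refine (abs_add_le _ _).trans ?_
  have hmono : η * (volume (BdB_T B E n)).toReal ≤ η * (volume B).toReal := by
    refine mul_le_mul_of_nonneg_left ?_ hη
    rw [hvol]
    exact le_add_of_nonneg_right ENNReal.toReal_nonneg
  have hrest2 : (C + |κ|) * (volume (B \ BdB_T B E n)).toReal ≤ ε / 2 := by
    have h1 : (volume B).toReal - (volume (BdB_T B E n)).toReal =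
        (volume (B \ BdB_T B E n)).toReal := by
      rw [hvol]
      ring
    rw [h1] at hn
    exact hn.le
  linarith

end Pool.Agent.MP27775c.SR
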