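import Pool.Agent.Lib.MP_27775c_an_SR.Bas

/-!
# MP_27775c_an, project SR, module UnA: uniform continuity along the group
-/

set_option autoImplicit false

open MeasureTheory Set Filter Topology
open scoped Manifold ContDiff UpperHalfPlane

namespace Pool.Agent.MP27775c.SR

open Pool.Agent.MP27775c.DO

variable {Y : Type*} [TopologicalSpace Y] [PolishSpace Y] [MeasurableSpace Y] [BorelSpace Y]
  (A : RAct Y)

/-- Proof. Otherwise there are `z k ∈ X`, `t k → 0` with
`η < |F (A.act (z k) (c (t k))) - F (z k)|`. `X` is compact (and metrizable, `Y` being Polish), so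
along a subsequence `z k → z ∈ X`; also `A.act (z k) (c (t k)) → A.act z (c 0) = z` by `A.cont`,
inside `X`. `F` is continuous on `X`, so both values tend to `F z`: contradiction. (Or with open
sets: for every `z ∈ X` there are neighbourhoods `U` of `z`, `J` of `0` with
`|F (A.act w (c t)) - F w| ≤ η` for `w ∈ U ∩ X`, `t ∈ J`; finitely many `U` cover `X`.) -/
theorem unif_path {X : Set Y} (hX : IsCompact X) (hi : ∀ y ∈ X, ∀ g : G, A.act y g ∈ X)
    {F : Y → ℝ} (hF : ContinuousOn F X) {c : ℝ → G} (hc : Continuous c) (h0 : c 0 = 1) {η : ℝ}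
    (hη : 0 < η) :
    ∃ δ : ℝ, 0 < δ ∧ ∀ z ∈ X, ∀ t : ℝ, |t| ≤ δ → |F (A.act z (c t)) - F z| ≤ η := by
  have hFX : Continuous (X.domRestrict F) := continuousOn_iff_continuous_domRestrict.mp hF
  have h1 : Continuous fun p : X × ℝ => A.act (p.1 : Y) (c p.2) :=
    A.cont.comp ((continuous_subtype_val.comp continuous_fst).prodMk (hc.comp continuous_snd))
  have h2 : Continuous fun p : X × ℝ => (⟨A.act (p.1 : Y) (c p.2), hi _ p.1.2 _⟩ : X) :=
    h1.subtype_mk _
  have h3 : Continuous fun p : X × ℝ =>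
      |X.domRestrict F ⟨A.act (p.1 : Y) (c p.2), hi _ p.1.2 _⟩ - X.domRestrict F p.1| :=
    ((hFX.comp h2).sub (hFX.comp continuous_fst)).abs
  have hO : IsOpen {p : X × ℝ |
      |X.domRestrict F ⟨A.act (p.1 : Y) (c p.2), hi _ p.1.2 _⟩ - X.domRestrict F p.1| < η} :=
    isOpen_lt h3 continuous_const
  have : CompactSpace X := isCompact_iff_compactSpace.mp hX
  have hsub : (Set.univ : Set X) ×ˢ ({0} : Set ℝ) ⊆ {p : X × ℝ |
      |X.domRestrict F ⟨A.act (p.1 : Y) (c p.2), hi _ p.1.2 _⟩ - X.domRestrict F p.1| < η} := by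
    rintro ⟨z, t⟩ ⟨-, ht⟩
    have ht0 : t = 0 := ht
    subst ht0
    change |F (A.act (z : Y) (c 0)) - F z| < η
    rw [h0, A.act_one, sub_self, abs_zero]
    exact hη
  obtain ⟨u, v, -, hv, hu, h0v, huv⟩ :=
    generalized_tube_lemma isCompact_univ isCompact_singleton hO hsub
  obtain ⟨ε, hε, hball⟩ := Metric.isOpen_iff.mp hv 0 (h0v rfl)
  refine ⟨ε / 2, by positivity, fun z hz t ht => ?_⟩
  have h4 : t ∈ v := by
    refine hball ?_
    rw [Metric.mem_ball, Real.dist_eq, sub_zero]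
    linarith
  have h5 : ((⟨z, hz⟩ : X), t) ∈ {p : X × ℝ |
      |X.domRestrict F ⟨A.act (p.1 : Y) (c p.2), hi _ p.1.2 _⟩ - X.domRestrict F p.1| < η} :=
    huv ⟨hu (Set.mem_univ _), h4⟩
  have h6 : |F (A.act z (c t)) - F z| < η := h5
  exact h6.le

end Pool.Agent.MP27775c.SR
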