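import Pool.Agent.Lib.MP_27775c_an_SR.BdA
import Pool.Agent.Lib.MP_27775c_an_SR.BdB
import Pool.Agent.Lib.MP_27775c_an_SR.UnA

/-!
# MP_27775c_an, project SR, module BdC: transfer
-/

set_option autoImplicit false

open MeasureTheory Set Filter Topology
open scoped Manifold ContDiff UpperHalfPlane

namespace Pool.Agent.MP27775c.SR

open Pool.Agent.MP27775c.DO

variable {Y : Type*} [TopologicalSpace Y] [PolishSpace Y] [MeasurableSpace Y] [BorelSpace Y]
  (A : RAct Y)

/-- Proof. Let `b`, `c` be as in `FClose`, `δ` as in `unif_path` for `c = aa` and `η`. For `j : ℤ`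
let `E j = E ∩ {x | ⌊c x / δ⌋ = j}`, measurable, with union `E`. For `x ∈ E j`,
`|c x - δ * j| ≤ δ`, so by `ray_add` (`ray A y' u (c x + s) =
A.act (ray A y' u (δ * j + s)) (aa (c x - δ * j))`) and the invariance of `X` the hypothesis `h2` of
`bd_const` holds with `c₀ = δ * j`; so `Bd A F κ R y (2 * η) (E j)`. `bd_iUnion` (reindex `ℤ` by
`ℕ`, for example with `Equiv.intEquivNat`). -/
theorem bd_of_fclose {X : Set Y} {F : Y → ℝ} {M : Type*} [TopologicalSpace M] {e : Y → M}
    (hS : Setup A X F e) {κ : ℝ} {R : ℕ → ℝ} (hR : Tendsto R atTop atTop) {y y' : Y}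
    (hy' : y' ∈ X) (hg : Gd A F κ R y') {E : Set ℝ} (hE : MeasurableSet E)
    (hE' : volume E ≠ ⊤) {η : ℝ} (hη : 0 < η) (h : FClose A F η y y' E) :
    Bd A F κ R y (2 * η) E := by
  obtain ⟨b, c, hb, hc, hn, h1⟩ := h
  obtain ⟨C, hC⟩ := hS.bddF
  obtain ⟨δ, hδ, hδ'⟩ := unif_path A hS.comp hS.inv hS.contF continuous_aa aa_zero hη
  -- the pieces
  have hmeas : ∀ j : ℤ, MeasurableSet (E ∩ {x | ⌊c x / δ⌋ = j}) := by
    intro j
    refine hE.inter ?_
    have h2 : Measurable fun x => ⌊c x / δ⌋ := (hc.div_const δ).floor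
    exact h2 (measurableSet_singleton j)
  have hpiece : ∀ j : ℤ, Bd A F κ R y (2 * η) (E ∩ {x | ⌊c x / δ⌋ = j}) := by
    intro j
    refine bd_const A hS.measF hC hR hg (hmeas j)
      (ne_top_of_le_ne_top hE' (measure_mono inter_subset_left)) hb hc ?_ hη.le
      (c₀ := δ * j) ?_ ?_
    · intro Z hZ
      refine measure_mono_null ?_ (hn Z hZ)
      rintro x ⟨⟨hx1, _⟩, hx2⟩
      exact ⟨hx1, hx2⟩
    · exact fun x hx => h1 x hx.1
    · intro x hx s
      have h3 : |c x - δ * j| ≤ δ := by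
        have h4 : ⌊c x / δ⌋ = j := hx.2
        have h5 := Int.floor_le (c x / δ)
        have h6 := Int.lt_floor_add_one (c x / δ)
        rw [h4] at h5 h6
        rw [le_div_iff₀ hδ] at h5
        rw [div_lt_iff₀ hδ] at h6
        rw [abs_le]
        constructor <;> nlinarith
      have h7 : ray A y' (b x) (c x + s) =
          A.act (ray A y' (b x) (δ * j + s)) (aa (c x - δ * j)) := by
        rw [← ray_add]
        congr 1
        ring
      rw [h7]
      exact hδ' _ (hS.inv _ hy' _) _ h3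
  -- the union over the natural numbers
  have hU : (⋃ i : ℕ, E ∩ {x | ⌊c x / δ⌋ = Equiv.intEquivNat.symm i}) = E := by
    ext x
    simp only [mem_iUnion, mem_inter_iff, mem_ofPred_eq]
    constructor
    · rintro ⟨_, hx, _⟩
      exact hx
    · intro hx
      exact ⟨Equiv.intEquivNat ⌊c x / δ⌋, hx, by simp⟩
  have h8 := bd_iUnion A hS.measF hC (η := 2 * η) (by positivity)
    (E := fun i : ℕ => E ∩ {x | ⌊c x / δ⌋ = Equiv.intEquivNat.symm i})
    (fun i => hmeas _) (by rw [hU]; exact hE') (fun i => hpiece _)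
  rw [hU] at h8
  exact h8

end Pool.Agent.MP27775c.SR
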