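import Pool.Agent.Lib.MP_27775c_an_SR.Bas

/-!
# MP_27775c_an, project SR, module BdD: exhaustion
-/

set_option autoImplicit false

open MeasureTheory Set Filter Topology
open scoped Manifold ContDiff UpperHalfPlane

namespace Pool.Agent.MP27775c.SR

/-- Exhaustion. Proof. Let `α` be the supremum of `volume E` over the measurable `E ⊆ S` with `P E`,
`α ≤ volume S < ∞`. Choose `E n` with `volume (E n) → α` and let `E = ⋃ n, E n`; `P E` by `hU`, and
`volume E = α`. If `S \ E` is not null then `h` gives `E' ⊆ S \ E` of positive measure with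
`P E'`, and `E ∪ E'` (a countable union: `E, E', E', …`) has measure bigger than `α`:
contradiction. -/
theorem exhaust {P : Set ℝ → Prop} {S : Set ℝ} (hS : MeasurableSet S) (hS' : volume S ≠ ⊤)
    (h0 : P ∅)
    (hU : ∀ E : ℕ → Set ℝ, (∀ i, MeasurableSet (E i) ∧ E i ⊆ S ∧ P (E i)) → P (⋃ i, E i))
    (h : ∀ B ⊆ S, MeasurableSet B → volume B ≠ 0 →
      ∃ E ⊆ B, MeasurableSet E ∧ volume E ≠ 0 ∧ P E) :
    ∃ E ⊆ S, MeasurableSet E ∧ P E ∧ volume (S \ E) = 0 := by
  classical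
  set F : Set (Set ℝ) := {E | MeasurableSet E ∧ E ⊆ S ∧ P E} with hF
  have hne : (volume '' F).Nonempty :=
    ⟨volume (∅ : Set ℝ), ∅, ⟨MeasurableSet.empty, empty_subset _, h0⟩, rfl⟩
  obtain ⟨u, -, hu, hm⟩ := exists_seq_tendsto_sSup hne (OrderTop.bddAbove _)
  choose E hE hEu using hm
  have hEF : ∀ i, MeasurableSet (E i) ∧ E i ⊆ S ∧ P (E i) := hE
  have hT : (⋃ i, E i) ∈ F :=
    ⟨MeasurableSet.iUnion fun i => (hEF i).1, iUnion_subset fun i => (hEF i).2.1, hU E hEF⟩
  have hge : sSup (volume '' F) ≤ volume (⋃ i, E i) :=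
    le_of_tendsto' hu fun n => by
      rw [← hEu n]
      exact measure_mono (subset_iUnion E n)
  refine ⟨⋃ i, E i, hT.2.1, hT.1, hT.2.2, ?_⟩
  by_contra hne0
  obtain ⟨E', hE'B, hE'm, hE'0, hE'P⟩ := h _ sdiff_subset (hS.diff hT.1) hne0
  have hG : ∀ i : ℕ, MeasurableSet (if i = 0 then (⋃ i, E i) else E') ∧
      (if i = 0 then (⋃ i, E i) else E') ⊆ S ∧ P (if i = 0 then (⋃ i, E i) else E') := by
    intro i
    by_cases hi : i = 0
    · rw [if_pos hi]
      exact hT
    · rw [if_neg hi]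
      exact ⟨hE'm, hE'B.trans sdiff_subset, hE'P⟩
  have hV : (⋃ i : ℕ, (if i = 0 then (⋃ i, E i) else E')) ∈ F :=
    ⟨MeasurableSet.iUnion fun i => (hG i).1, iUnion_subset fun i => (hG i).2.1, hU _ hG⟩
  have hsub : (⋃ i, E i) ∪ E' ⊆ ⋃ i : ℕ, (if i = 0 then (⋃ i, E i) else E') := by
    refine union_subset ?_ ?_
    · intro x hx
      exact mem_iUnion.mpr ⟨0, by simpa using hx⟩
    · intro x hx
      exact mem_iUnion.mpr ⟨1, by simpa using hx⟩
  have hle : volume (⋃ i : ℕ, (if i = 0 then (⋃ i, E i) else E')) ≤ sSup (volume '' F) :=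
    le_sSup ⟨_, hV, rfl⟩
  have hdis : Disjoint (⋃ i, E i) E' := by
    rw [Set.disjoint_left]
    intro x hx hx'
    exact (hE'B hx').2 hx
  have h1 : volume (⋃ i, E i) + volume E' ≤ volume (⋃ i, E i) := by
    rw [← measure_union hdis hE'm]
    exact (measure_mono hsub).trans (hle.trans hge)
  have hfin : volume (⋃ i, E i) ≠ ⊤ := ne_top_of_le_ne_top hS' (measure_mono hT.2.1)
  have h2 : volume E' ≤ 0 := by
    have h3 : volume (⋃ i, E i) + volume E' ≤ volume (⋃ i, E i) + 0 := by simpa using h1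
    exact (ENNReal.add_le_add_iff_left hfin).mp h3
  exact hE'0 (le_antisymm h2 bot_le)

end Pool.Agent.MP27775c.SR
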