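import Pool.Agent.Lib.MP_27775c_an_SR.Bas

/-!
# MP_27775c_an, project SR, module BdE: from the bounds to convergence
-/

set_option autoImplicit false

open MeasureTheory Set Filter Topology
open scoped Manifold ContDiff UpperHalfPlane

namespace Pool.Agent.MP27775c.SR

open Pool.Agent.MP27775c.DO

variable {Y : Type*} [TopologicalSpace Y] [PolishSpace Y] [MeasurableSpace Y] [BorelSpace Y]
  (A : RAct Y)

private theorem gd_aux {F : Y → ℝ} (hF : Measurable F) (hb : ∃ C, ∀ y, |F y| ≤ C) {κ : ℝ}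
    {R : ℕ → ℝ} {y : Y}
    (h : ∀ η : ℝ, 0 < η → ∀ N : ℕ, ∃ E ⊆ Icc (-(N : ℝ)) N, MeasurableSet E ∧
      volume (Icc (-(N : ℝ)) N \ E) = 0 ∧ Bd A F κ R y η E) (s p q : ℝ) (hpq : p ≤ q) :
    Tendsto (fun k => ∫ x in p..q, F (ray A y x (s - R k))) atTop (𝓝 ((q - p) * κ)) := by
  obtain ⟨C, hC⟩ := hb
  rw [Metric.tendsto_nhds]
  intro ε hε
  set η : ℝ := ε / (2 * (q - p + 1)) with hη
  have hqp : 0 < q - p + 1 := by linarith
  have hη0 : 0 < η := by positivity
  obtain ⟨N, hN⟩ := exists_nat_ge (max |p| |q|)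
  have hpN : |p| ≤ N := (le_max_left _ _).trans hN
  have hqN : |q| ≤ N := (le_max_right _ _).trans hN
  obtain ⟨E, hEN, hEm, hE0, hBd⟩ := h η hη0 N
  have hsub : Ioc p q ⊆ Icc (-(N : ℝ)) N := by
    intro x hx
    have h1 := neg_le_of_abs_le hpN
    have h2 := le_of_abs_le hqN
    exact ⟨by linarith [hx.1], by linarith [hx.2]⟩
  set B : Set ℝ := Ioc p q ∩ E with hB
  have hBm : MeasurableSet B := measurableSet_Ioc.inter hEm
  have hdiff : volume (Ioc p q \ B) = 0 := by
    refine measure_mono_null ?_ hE0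
    rintro x ⟨hx1, hx2⟩
    exact ⟨hsub hx1, fun hx3 => hx2 ⟨hx1, hx3⟩⟩
  have hae : B =ᵐ[volume] Ioc p q := by
    refine Filter.EventuallyLE.antisymm ?_ ?_
    · exact (inter_subset_left (s := Ioc p q) (t := E)).eventuallyLE
    · exact ae_le_set.mpr hdiff
  have hvol : (volume B).toReal = q - p := by
    rw [measure_congr hae, Real.volume_Ioc, ENNReal.toReal_ofReal (by linarith)]
  filter_upwards [hBd s B inter_subset_right hBm η hη0] with k hk
  have hint : IntegrableOn (fun x => F (ray A y x (s - R k))) (Ioc p q) :=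
    intOn (meas_F_ray A hF y (s - R k)) (fun x => hC _) (by
      rw [Real.volume_Ioc]
      exact ENNReal.ofReal_ne_top)
  have h1 : ∫ x in B, (F (ray A y x (s - R k)) - κ) =
      (∫ x in p..q, F (ray A y x (s - R k))) - (q - p) * κ := by
    rw [setIntegral_congr_set hae, intervalIntegral.integral_of_le hpq,
      integral_sub hint (integrable_const κ)]
    congr 1
    rw [setIntegral_const, Measure.real, Real.volume_Ioc, ENNReal.toReal_ofReal (by linarith),
      smul_eq_mul]
  rw [h1, hvol] at hk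
  rw [Real.dist_eq]
  refine lt_of_le_of_lt hk ?_
  have h2 : η * (q - p) + η = ε / 2 := by
    rw [hη]
    field_simp
  rw [h2]
  linarith

/-- Proof. Given `s`, `p`, `q`, by symmetry let `p ≤ q`; choose `N` with `Ioc p q ⊆ Icc (-N) N`. For
`η` let `E` be as in `h` and `B = Ioc p q ∩ E`; it has measure `q - p`, and the integrals over
`Ioc p q` and `B` are equal (`setIntegral_congr_set`). So for large `k`
`|(∫ x in p..q, F (ray A y x (s - R k))) - (q - p) * κ| ≤ η * (q - p) + η`. -/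
theorem gd_of_bd {F : Y → ℝ} (hF : Measurable F) (hb : ∃ C, ∀ y, |F y| ≤ C) {κ : ℝ} {R : ℕ → ℝ}
    {y : Y}
    (h : ∀ η : ℝ, 0 < η → ∀ N : ℕ, ∃ E ⊆ Icc (-(N : ℝ)) N, MeasurableSet E ∧
      volume (Icc (-(N : ℝ)) N \ E) = 0 ∧ Bd A F κ R y η E) :
    Gd A F κ R y := by
  intro s p q
  rcases le_total p q with hpq | hpq
  · exact gd_aux A hF hb h s p q hpq
  · have h1 := (gd_aux A hF hb h s q p hpq).neg
    have h2 : -((p - q) * κ) = (q - p) * κ := by ring
    rw [h2] at h1
    refine h1.congr fun k => ?_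
    rw [intervalIntegral.integral_symm q p]

end Pool.Agent.MP27775c.SR
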