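import Pool.Agent.Lib.MP_27775c_an_SR.DefS

/-!
# MP_27775c_an, project SR, module DefC: asymptotically stable suspensions; definitions
-/

set_option autoImplicit false

open MeasureTheory Set Filter Topology
open scoped Manifold ContDiff UpperHalfPlane

namespace Pool.Agent.MP27775c.SR

open Pool.Agent.MP27775c.DO

variable {M : Type*} [TopologicalSpace M] {Z : Type*} [TopologicalSpace Z]

/-- Points `P (z, v)`, `P (z', v')` with `z, z'` close to each other are different unless
`(z, v) = (z', v')`. This holds if `P` is the quotient map by a torsion free cocompact Fuchsian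
group. -/
def InjP (P : ℍ × Z → M) : Prop :=
  ∃ δ : ℝ, 0 < δ ∧ ∀ (z z' : ℍ) (v v' : Z), P (z, v) = P (z', v') → dist z z' < δ →
    z = z' ∧ v = v'

/-- The leaves of the points `v'` near `v` are asymptotic to the leaf of `v` along the geodesic
which ends at the boundary point `x`. -/
def Contr (P : ℍ × Z → M) (v : Z) (x : ℝ) : Prop :=
  ∃ U ∈ 𝓝 v, ∀ v' ∈ U, ∀ V ∈ 𝓝ˢ (diagonal M), ∀ᶠ s in atBot,
    (P (pt x s, v), P (pt x s, v')) ∈ V

/-- Almost every leaf attracts the nearby leaves along almost every geodesic. -/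
def ContrT [MeasurableSpace C(ℍ, M)] (μ : Measure C(ℍ, M)) (P : ℍ × Z → M) : Prop :=
  ∀ᵐ φ : C(ℍ, M) ∂μ, ∀ v : Z, (∃ g : G, ∀ z, φ z = P (g • z, v)) → ∀ᵐ x : ℝ, Contr P v x

theorem stab_of_contr {P : ℍ × Z → M} {v : Z} {x : ℝ} (h : Contr P v x) : Stab P v x := by
  obtain ⟨U, hU, h1⟩ := h
  exact fun V hV => ⟨U, hU, fun v' hv' => h1 v' hv' V hV⟩

theorem stabT_of_contrT [MeasurableSpace C(ℍ, M)] {μ : Measure C(ℍ, M)} {P : ℍ × Z → M}
    (h : ContrT μ P) : StabT μ P := by
  filter_upwards [h] with φ hφ v hv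
  exact (hφ v hv).mono fun x hx => stab_of_contr hx

end Pool.Agent.MP27775c.SR
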