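import Pool.Agent.Lib.MP_27775c_an_SR.Defs

/-!
# MP_27775c_an, project SR: convergence through all radii; definition
-/

set_option autoImplicit false

open MeasureTheory Set Filter Topology
open scoped Manifold ContDiff UpperHalfPlane

namespace Pool.Agent.MP27775c.SR

open Pool.Agent.MP27775c.DO

variable {E : Type*} [NormedAddCommGroup E] [NormedSpace ℂ E] {M : Type*}
  [TopologicalSpace M] [ChartedSpace E M] [IsManifold 𝓘(ℂ, E) 1 M] [MeasurableSpace M]
  [MeasurableSpace C(ℍ, M)]

/-- For almost every point `a`, for every universal covering `φ` of the leaf of `a` with `φ i = a`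
and for every form `θ`, the Ahlfors currents satisfy `σ_R (θ) → T(θ) / T(om)` as `R → ∞`, without
any exceptional radii. -/
def AllR (F : Foliation E M) (om : Form E M) (μ : Measure C(ℍ, M)) : Prop :=
  ∀ᵐ a ∂(μ.map fun φ : C(ℍ, M) => φ UpperHalfPlane.I),
    ∀ φ : ℍ → M, IsUniv F φ → φ UpperHalfPlane.I = a → ∀ θ : Form E M,
      Tendsto (sigma om θ φ) atTop (𝓝 (cur μ θ / cur μ om))

end Pool.Agent.MP27775c.SR
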