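import Pool.Agent.Lib.MP_27775c_an_SR.Bas

/-!
# MP_27775c_an, project SR, module DefS: suspensions; definitions
-/

set_option autoImplicit false

open MeasureTheory Set Filter Topology
open scoped Manifold ContDiff UpperHalfPlane

namespace Pool.Agent.MP27775c.SR

open Pool.Agent.MP27775c.DO

variable {E : Type*} [NormedAddCommGroup E] [NormedSpace ℂ E] {M : Type*}
  [TopologicalSpace M] [ChartedSpace E M] {Z : Type*} [TopologicalSpace Z]

/-- `F` is a suspension over the upper half plane: `M` is the image of `ℍ × Z` under `P`, for every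
`v : Z` the map `z ↦ P (z, v)` is a universal covering of a leaf, and there is a compact set `K`
such that every point of `ℍ` can be moved to `K` by some `γ ∈ SL(2, ℝ)` for which
`P (w, v) = P (γ w, f v)`, for some map `f` of `Z`. Example: `P` is the quotient map of `ℍ × Z` by a
cocompact group `Γ` which acts on `ℍ` and on `Z`. -/
structure Susp [IsManifold 𝓘(ℂ, E) 1 M] (F : Foliation E M) (P : ℍ × Z → M) : Prop where
  cont : Continuous P
  surj : Function.Surjective P
  univ : ∀ v : Z, IsUniv F fun z : ℍ => P (z, v)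
  cocomp : ∃ K : Set ℍ, IsCompact K ∧ ∀ z : ℍ, ∃ (γ : G) (f : Z → Z), γ • z ∈ K ∧
    ∀ (w : ℍ) (v : Z), P (w, v) = P (γ • w, f v)

/-- The leaf of `v` is stable along the geodesic which ends at the boundary point `x`: for every
neighbourhood `V` of the diagonal and all `v'` near `v` the points `P (z, v')` are `V`-close to
`P (z, v)` for all `z = x + i e ^ s` with `s` near `-∞`. -/
def Stab {M : Type*} [TopologicalSpace M] (P : ℍ × Z → M) (v : Z) (x : ℝ) : Prop :=
  ∀ V ∈ 𝓝ˢ (diagonal M), ∃ U ∈ 𝓝 v, ∀ v' ∈ U, ∀ᶠ s in atBot,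
    (P (pt x s, v), P (pt x s, v')) ∈ V

/-- Almost every leaf is stable along almost every geodesic. -/
def StabT {M : Type*} [TopologicalSpace M] [MeasurableSpace C(ℍ, M)] (μ : Measure C(ℍ, M))
    (P : ℍ × Z → M) : Prop :=
  ∀ᵐ φ : C(ℍ, M) ∂μ, ∀ v : Z, (∃ g : G, ∀ z, φ z = P (g • z, v)) → ∀ᵐ x : ℝ, Stab P v x

/-- The point `v` is in the support of the current: for every neighbourhood `U` of `v` the
universal coverings of the leaves of the points of `U` form a set which is not `μ`-null. -/
def Charged {M : Type*} [TopologicalSpace M] [MeasurableSpace C(ℍ, M)] (μ : Measure C(ℍ, M))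
    (P : ℍ × Z → M) (v : Z) : Prop :=
  ∀ U ∈ 𝓝 v, μ {ψ : C(ℍ, M) | ∃ g : G, ∃ v' ∈ U, ∀ z, ψ z = P (g • z, v')} ≠ 0

end Pool.Agent.MP27775c.SR
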