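import Pool.Agent.Lib.MP_27775c_an_DO.Hm

/-!
# MP_27775c_an, project SR: Ahlfors currents converge along all radii under shadowing; definitions

Continuation of project DO (`Pool/Agent/Lib/MP_27775c_an_DO`). `G = SL(2, ℝ)` acts from the right
on `Y`; `ray A y x s = y · n_x a_s` is, for `s → -∞`, the geodesic of the leaf of `y` which ends at
the boundary point `x`.
-/

set_option autoImplicit false

open MeasureTheory Set Filter Topology
open scoped Manifold ContDiff UpperHalfPlane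

namespace Pool.Agent.MP27775c.SR

open Pool.Agent.MP27775c.DO

section

variable {Y : Type*} [TopologicalSpace Y] (A : RAct Y)

/-- The point `y · n_x a_s`. -/
noncomputable def ray (y : Y) (x s : ℝ) : Y := A.act y (nn x * aa s)

/-- The pushed horocycle averages of `F` at `y` converge to `κ`, along the sequence `R`. -/
def Gd (F : Y → ℝ) (κ : ℝ) (R : ℕ → ℝ) (y : Y) : Prop :=
  ∀ s p q : ℝ, Tendsto (fun k => ∫ x in p..q, F (ray A y x (s - R k))) atTop (𝓝 ((q - p) * κ))

/-- The same, for rational parameters. -/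
def GdQ (F : Y → ℝ) (κ : ℝ) (R : ℕ → ℝ) (y : Y) : Prop :=
  ∀ s p q : ℚ, Tendsto (fun k => ∫ x in (p : ℝ)..q, F (ray A y x (s - R k))) atTop
    (𝓝 (((q : ℝ) - p) * κ))

/-- The pushed averages over all measurable subsets of `E` converge to `κ` up to `η`. -/
def Bd (F : Y → ℝ) (κ : ℝ) (R : ℕ → ℝ) (y : Y) (η : ℝ) (E : Set ℝ) : Prop :=
  ∀ (s : ℝ) (B : Set ℝ), B ⊆ E → MeasurableSet B → ∀ ε : ℝ, 0 < ε → ∀ᶠ k in atTop,
    |∫ x in B, (F (ray A y x (s - R k)) - κ)| ≤ η * (volume B).toReal + ε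

/-- For `x ∈ E` the ray of `y` which ends at `x` is finally `η`-close, as seen by `F`, to the ray of
`y'` which ends at `b x`, with the delay `c x`. -/
def FClose (F : Y → ℝ) (η : ℝ) (y y' : Y) (E : Set ℝ) : Prop :=
  ∃ b c : ℝ → ℝ, Measurable b ∧ Measurable c ∧
    (∀ Z : Set ℝ, volume Z = 0 → volume (E ∩ b ⁻¹' Z) = 0) ∧
    ∀ x ∈ E, ∀ᶠ s in atBot, |F (ray A y x s) - F (ray A y' (b x) (c x + s))| ≤ η

/-- For `x ∈ E` the image in `M` of the ray of `y` which ends at `x` is finally `V`-close to the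
image of the ray of `y'` which ends at `b x`, with the delay `c x`. -/
def CloseA {M : Type*} (e : Y → M) (V : Set (M × M)) (y y' : Y) (E : Set ℝ) : Prop :=
  ∃ b c : ℝ → ℝ, Measurable b ∧ Measurable c ∧
    (∀ Z : Set ℝ, volume Z = 0 → volume (E ∩ b ⁻¹' Z) = 0) ∧
    ∀ x ∈ E, ∀ᶠ s in atBot, (e (ray A y x s), e (ray A y' (b x) (c x + s))) ∈ V

/-- The point `y` is shadowed by the points of a set which is not `μ`-null. -/
def ShadA {M : Type*} [TopologicalSpace M] [MeasurableSpace Y] (e : Y → M) (μ : Measure Y)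
    (y : Y) : Prop :=
  ∀ V ∈ 𝓝ˢ (diagonal M), ∀ B : Set ℝ, MeasurableSet B → volume B ≠ 0 →
    μ {y' | ∃ E ⊆ B, MeasurableSet E ∧ volume E ≠ 0 ∧ CloseA A e V y y' E} ≠ 0

/-- The setting: `X` is a compact invariant set, `F` is measurable, bounded, continuous on `X`, and
the points `z` of `X` are determined by the curves `t ↦ e (z · a_t)`. -/
structure Setup {M : Type*} [TopologicalSpace M] [MeasurableSpace Y] (X : Set Y) (F : Y → ℝ)
    (e : Y → M) : Prop where
  comp : IsCompact X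
  inv : ∀ y ∈ X, ∀ g : G, A.act y g ∈ X
  measF : Measurable F
  contF : ContinuousOn F X
  bddF : ∃ C, ∀ y, |F y| ≤ C
  conte : Continuous e
  sep : ∀ z ∈ X, ∀ z' ∈ X, (∀ t : ℝ, e (A.act z (aa t)) = e (A.act z' (aa t))) → z = z'

end

/-- The point `x + i e ^ s` of the geodesic which ends at the boundary point `x`. -/
noncomputable def pt (x s : ℝ) : ℍ := ⟨⟨x, Real.exp s⟩, Real.exp_pos s⟩

section

variable {M : Type*} [TopologicalSpace M]

/-- For `x ∈ E` the curve `s ↦ φ (x + i e ^ s)` is `V`-close, for `s` near `-∞`, to the curve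
`s ↦ ψ (b x + i e ^ (c x + s))`; the map `b` pulls null sets back to null sets. -/
def Close (V : Set (M × M)) (φ ψ : ℍ → M) (E : Set ℝ) : Prop :=
  ∃ b c : ℝ → ℝ, Measurable b ∧ Measurable c ∧
    (∀ Z : Set ℝ, volume Z = 0 → volume (E ∩ b ⁻¹' Z) = 0) ∧
    ∀ x ∈ E, ∀ᶠ s in atBot, (φ (pt x s), ψ (pt (b x) (c x + s))) ∈ V

/-- The map `φ` is shadowed by `μ`: for every neighbourhood `V` of the diagonal and every set `B` of
boundary points, of positive measure, the maps `ψ` whose geodesics are finally `V`-close to those of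
`φ` which end in a subset `E` of `B` of positive measure form a set which is not `μ`-null. -/
def Shadowed [MeasurableSpace C(ℍ, M)] (μ : Measure C(ℍ, M)) (φ : ℍ → M) : Prop :=
  ∀ V ∈ 𝓝ˢ (diagonal M), ∀ B : Set ℝ, MeasurableSet B → volume B ≠ 0 →
    μ {ψ : C(ℍ, M) | ∃ E ⊆ B, MeasurableSet E ∧ volume E ≠ 0 ∧ Close V φ ψ E} ≠ 0

end

end Pool.Agent.MP27775c.SR
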