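import Pool.Agent.Lib.MP_27775c_an_SR.Bas

/-!
# MP_27775c_an, project SR, module FiA: disc averages at a good point
-/

set_option autoImplicit false

open MeasureTheory Set Filter Topology
open scoped Manifold ContDiff UpperHalfPlane

namespace Pool.Agent.MP27775c.SR

open Pool.Agent.MP27775c.DO

variable {Y : Type*} [TopologicalSpace Y] [PolishSpace Y] [MeasurableSpace Y] [BorelSpace Y]
  (A : RAct Y)

private theorem FiA_nonneg (p : ℝ × ℝ) : 0 ≤ sigI p := by
  unfold sigI
  split_ifs
  · positivity
  · exact le_rfl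

private theorem FiA_int {h : ℝ × ℝ → ℝ} (hm : Measurable h) {C : ℝ} (hC : ∀ p, |h p| ≤ C) :
    Integrable fun p => sigI p * h p := by
  refine (dom_int.mul_const C).mono' (sigI_meas.mul hm).aestronglyMeasurable
    (Filter.Eventually.of_forall fun p => ?_)
  rw [Real.norm_eq_abs, abs_mul, abs_of_nonneg (FiA_nonneg p)]
  exact mul_le_mul (sigI_le p) (hC p) (abs_nonneg _) ((FiA_nonneg p).trans (sigI_le p))

/-- The inner integral, for `η > 1`. -/
private theorem FiA_inner (h : ℝ × ℝ → ℝ) {η : ℝ} (hη : 1 < η) :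
    ∫ x, sigI (x, η) * h (x, η) = 1 / η ^ 2 *
      ∫ x in (-Real.sqrt (η - 1))..(Real.sqrt (η - 1)), h (x, η) := by
  have h1 : ∀ x : ℝ, sigI (x, η) * h (x, η) =
      (Ioo (-Real.sqrt (η - 1)) (Real.sqrt (η - 1))).indicator
        (fun x => 1 / η ^ 2 * h (x, η)) x := by
    intro x
    unfold sigI
    by_cases hx : x ^ 2 < η - 1
    · have hx' : x ∈ Ioo (-Real.sqrt (η - 1)) (Real.sqrt (η - 1)) := Real.sq_lt.1 hx
      rw [Set.indicator_of_mem hx', if_pos ⟨hη, hx⟩]
    · have hx' : x ∉ Ioo (-Real.sqrt (η - 1)) (Real.sqrt (η - 1)) := fun h =>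
        hx (Real.sq_lt.2 h)
      rw [Set.indicator_of_notMem hx', if_neg fun h => hx h.2, zero_mul]
  simp only [h1]
  rw [integral_indicator measurableSet_Ioo, ← integral_Ioc_eq_integral_Ioo,
    integral_const_mul, intervalIntegral.integral_of_le]
  have := Real.sqrt_nonneg (η - 1)
  linarith

private theorem FiA_zero (h : ℝ × ℝ → ℝ) {η : ℝ} (hη : ¬ 1 < η) :
    ∫ x, sigI (x, η) * h (x, η) = 0 := by
  have h1 : ∀ x : ℝ, sigI (x, η) * h (x, η) = 0 := by
    intro x
    unfold sigI
    rw [if_neg fun h => hη h.1, zero_mul]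
  simp only [h1, integral_zero]

/-- Proof. As in `int_sigI` in `DO/BdB.lean` (private there, copy it), or from `binf_eq`,
`binf A (R k) F y = (∫ η in Ioi 1, 1 / η ^ 2 * ∫ x in (-√(η - 1))..(√(η - 1)),
F (ray A y x (log η - R k))) / ∫ sigI`. By `h` the inner integral tends to `2 * √(η - 1) * κ`, for
every `η > 1`, and it is at most `2 * √(η - 1) * C`; `2 * √(η - 1) / η ^ 2` is integrable
(`sigI_eq`, `sigI_pos`), so dominated convergence gives the limit
`κ * (∫ η in Ioi 1, 2 * √(η - 1) / η ^ 2) / ∫ sigI = κ` (`sigI_eq`). -/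
theorem binf_of_gd {F : Y → ℝ} (hF : Measurable F) (hb : ∃ C, ∀ y, |F y| ≤ C) {κ : ℝ}
    {R : ℕ → ℝ} {y : Y} (h : Gd A F κ R y) :
    Tendsto (fun k => binf A (R k) F y) atTop (𝓝 κ) := by
  obtain ⟨C, hC⟩ := hb
  have hm : ∀ k, Measurable fun p : ℝ × ℝ => F (ray A y p.1 (Real.log p.2 - R k)) := by
    intro k
    have h2 : Measurable fun p : ℝ × ℝ => (p.1, Real.log p.2 - R k) :=
      measurable_fst.prodMk ((Real.measurable_log.comp measurable_snd).sub_const (R k))
    exact (meas_F_ray2 A hF y).comp h2
  have hint : ∀ k, Integrable fun p : ℝ × ℝ =>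
      sigI p * F (ray A y p.1 (Real.log p.2 - R k)) := fun k => FiA_int (hm k) fun p => hC _
  have hintC : Integrable fun p : ℝ × ℝ => sigI p * C :=
    FiA_int (h := fun _ => C) measurable_const (C := |C|) fun _ => le_rfl
  have hintκ : Integrable fun p : ℝ × ℝ => sigI p * κ :=
    FiA_int (h := fun _ => κ) measurable_const (C := |κ|) fun _ => le_rfl
  have key : Tendsto (fun k => ∫ p, sigI p * F (ray A y p.1 (Real.log p.2 - R k))) atTop
      (𝓝 (∫ p, sigI p * κ)) := by
    rw [Measure.volume_eq_prod] at hint hintC hintκ ⊢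
    rw [integral_prod_symm _ hintκ]
    simp only [integral_prod_symm _ (hint _)]
    refine tendsto_integral_of_dominated_convergence (fun η => ∫ x, sigI (x, η) * C)
      (fun k => (hint k).integral_prod_right.aestronglyMeasurable)
      hintC.integral_prod_right (fun k => ae_of_all _ fun η => ?_)
      (ae_of_all _ fun η => ?_)
    · by_cases hη : 1 < η
      · rw [FiA_inner (fun p => F (ray A y p.1 (Real.log p.2 - R k))) hη,
          FiA_inner (fun _ => C) hη, norm_mul, Real.norm_of_nonneg (by positivity)]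
        refine mul_le_mul_of_nonneg_left ?_ (by positivity)
        have hs := Real.sqrt_nonneg (η - 1)
        refine (intervalIntegral.norm_integral_le_of_norm_le_const (C := C)
          fun x _ => ?_).trans (le_of_eq ?_)
        · rw [Real.norm_eq_abs]
          exact hC _
        · rw [intervalIntegral.integral_const, smul_eq_mul, abs_of_nonneg (by linarith)]
          ring
      · rw [FiA_zero (fun p => F (ray A y p.1 (Real.log p.2 - R k))) hη,
          FiA_zero (fun _ => C) hη, norm_zero]
    · by_cases hη : 1 < η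
      · have e : ∀ k, ∫ x, sigI (x, η) * F (ray A y x (Real.log η - R k)) = _ := fun k =>
          FiA_inner (fun p => F (ray A y p.1 (Real.log p.2 - R k))) hη
        simp only [e]
        rw [FiA_inner (fun _ => κ) hη, intervalIntegral.integral_const, smul_eq_mul]
        exact (h _ _ _).const_mul _
      · have e : ∀ k, ∫ x, sigI (x, η) * F (ray A y x (Real.log η - R k)) = _ := fun k =>
          FiA_zero (fun p => F (ray A y p.1 (Real.log p.2 - R k))) hη
        simp only [e]
        rw [FiA_zero (fun _ => κ) hη]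
        exact tendsto_const_nhds
  have hpos := sigI_pos
  have h3 := key.div_const (∫ p, sigI p)
  rw [integral_mul_const, mul_comm, mul_div_assoc, div_self hpos.ne', mul_one] at h3
  exact h3

end Pool.Agent.MP27775c.SR
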