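import Pool.Agent.Lib.MP_27775c_an_SR.MoB
import Pool.Agent.Lib.MP_27775c_an_SR.BdC
import Pool.Agent.Lib.MP_27775c_an_SR.BdE

/-!
# MP_27775c_an, project SR, module MoC: good points form an invariant set
-/

set_option autoImplicit false

open MeasureTheory Set Filter Topology
open scoped Manifold ContDiff UpperHalfPlane

namespace Pool.Agent.MP27775c.SR

open Pool.Agent.MP27775c.DO

variable {Y : Type*} [TopologicalSpace Y] [PolishSpace Y] [MeasurableSpace Y] [BorelSpace Y]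
  (A : RAct Y)

private theorem moC_mono {F : Y → ℝ} {η : ℝ} {y y' : Y} {E E' : Set ℝ} (hE : E' ⊆ E)
    (h : FClose A F η y y' E) : FClose A F η y y' E' := by
  obtain ⟨b, c, hb, hc, hn, h⟩ := h
  refine ⟨b, c, hb, hc, fun Z hZ => ?_, fun x hx => h x (hE hx)⟩
  exact measure_mono_null (inter_subset_inter_left _ hE) (hn Z hZ)

private theorem moC_null {a c : ℝ} (h : a ≠ 0 ∨ c ≠ 0) : volume {x : ℝ | a - c * x = 0} = 0 := by
  by_cases hc : c = 0
  · have ha : a ≠ 0 := by
      rcases h with h | h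
      · exact h
      · exact absurd hc h
    have he : {x : ℝ | a - c * x = 0} = ∅ := by
      ext x
      simp only [mem_setOf_eq, mem_empty_iff_false, iff_false]
      rw [hc]
      simpa using ha
    rw [he, measure_empty]
  · have he : {x : ℝ | a - c * x = 0} ⊆ {a / c} := by
      intro x hx
      rw [mem_singleton_iff, eq_div_iff hc]
      have h1 : a - c * x = 0 := hx
      linarith
    exact measure_mono_null he (measure_singleton _)

/-- Proof. `gd_of_bd`: for `η` and `N` take `E = Icc (-N) N ∩ {x | g⁻¹ 0 0 - g⁻¹ 1 0 * x ≠ 0}`: the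
complement in `Icc (-N) N` has at most one point (`g⁻¹ 0 0` and `g⁻¹ 1 0` are not both zero, as the
determinant is one). `fclose_act` for `η / 2`, restricted to `E` (`FClose` passes to subsets), and
`bd_of_fclose`. -/
theorem gd_act {X : Set Y} {F : Y → ℝ} {M : Type*} [TopologicalSpace M] {e : Y → M}
    (hS : Setup A X F e) {κ : ℝ} {R : ℕ → ℝ} (hR : Tendsto R atTop atTop) {y : Y} (hy : y ∈ X)
    (g : G) (h : Gd A F κ R y) : Gd A F κ R (A.act y g) := by
  have hne : g⁻¹ 0 0 ≠ 0 ∨ g⁻¹ 1 0 ≠ 0 := by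
    by_contra hc
    push Not at hc
    have hd := Matrix.det_fin_two (g⁻¹ : G).1
    rw [(g⁻¹ : G).2] at hd
    have h1 : (g⁻¹ : G).1 0 0 = 0 := hc.1
    have h2 : (g⁻¹ : G).1 1 0 = 0 := hc.2
    rw [h1, h2] at hd
    norm_num at hd
  refine gd_of_bd A hS.measF hS.bddF fun η hη N => ?_
  have hm : MeasurableSet (Icc (-(N : ℝ)) N ∩ {x : ℝ | g⁻¹ 0 0 - g⁻¹ 1 0 * x ≠ 0}) := by
    refine measurableSet_Icc.inter ?_
    have hf : Measurable fun x : ℝ => g⁻¹ 0 0 - g⁻¹ 1 0 * x := by fun_prop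
    exact (hf (measurableSet_singleton 0)).compl
  have hv : volume (Icc (-(N : ℝ)) N ∩ {x : ℝ | g⁻¹ 0 0 - g⁻¹ 1 0 * x ≠ 0}) ≠ ⊤ := by
    refine ne_top_of_le_ne_top ?_ (measure_mono inter_subset_left)
    rw [Real.volume_Icc]
    exact ENNReal.ofReal_ne_top
  refine ⟨Icc (-(N : ℝ)) N ∩ {x : ℝ | g⁻¹ 0 0 - g⁻¹ 1 0 * x ≠ 0}, inter_subset_left, hm, ?_, ?_⟩
  · refine measure_mono_null ?_ (moC_null hne)
    rintro x ⟨h1, h2⟩
    by_contra h3
    exact h2 ⟨h1, h3⟩
  · have h1 := bd_of_fclose A hS hR hy h hm hv (half_pos hη)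
      (moC_mono A inter_subset_right (fclose_act A hS hy g (half_pos hη)))
    have h2 : 2 * (η / 2) = η := by ring
    rwa [h2] at h1

end Pool.Agent.MP27775c.SR
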