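import Pool.Agent.Lib.MP_27775c_an_SR.Bas

/-!
# MP_27775c_an, project SR, module ReB: a common subsequence
-/

set_option autoImplicit false

open MeasureTheory Set Filter Topology
open scoped Manifold ContDiff UpperHalfPlane

namespace Pool.Agent.MP27775c.SR

/-- Countably many sequences which converge to zero in `L¹` have a common subsequence along which
they converge almost everywhere. Proof. Put `g k y = ∑' i, (1 / 2) ^ i * min 1 |f i k y|`. Then
`∫ g k ∂m = ∑' i, (1 / 2) ^ i * ∫ min 1 |f i k| ∂m → 0` (`tendsto_tsum_of_dominated_convergence`),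
so `g k → 0` in measure (`tendstoInMeasure_of_tendsto_eLpNorm`, or Markov) and
`TendstoInMeasure.exists_seq_tendsto_ae` gives a strictly increasing `n` with `g (n k) y → 0` for
almost every `y`; then `min 1 |f i (n k) y| ≤ 2 ^ i * g (n k) y → 0`, hence `f i (n k) y → 0`. (Or
a diagonal sequence: choose `n k` with `∫ |f i (n k)| ∂m ≤ (1 / 2) ^ k` for all `i ≤ k`, then
`∑ k, |f i (n k) y|` has a finite integral.) -/
theorem sub_ae {Y : Type*} [MeasurableSpace Y] {m : Measure Y} [IsProbabilityMeasure m]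
    {f : ℕ → ℕ → Y → ℝ} (hf : ∀ i k, Measurable (f i k)) (hi : ∀ i k, Integrable (f i k) m)
    (h : ∀ i, Tendsto (fun k => ∫ y, |f i k y| ∂m) atTop (𝓝 0)) :
    ∃ n : ℕ → ℕ, StrictMono n ∧ ∀ᵐ y ∂m, ∀ i, Tendsto (fun k => f i (n k) y) atTop (𝓝 0) := by
  have h1 : ∀ k : ℕ, ∀ᶠ j in atTop, ∀ i, i ≤ k → ∫ y, |f i j y| ∂m ≤ (1 / 2 : ℝ) ^ k := by
    intro k
    have h2 : ∀ᶠ j in atTop, ∀ i ∈ Set.Iic k, ∫ y, |f i j y| ∂m ≤ (1 / 2 : ℝ) ^ k := by
      rw [(Set.finite_Iic k).eventually_all]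
      intro i _
      exact (h i).eventually_le_const (by positivity)
    exact h2
  obtain ⟨n, hn, hn1⟩ := extraction_forall_of_eventually h1
  refine ⟨n, hn, ?_⟩
  rw [ae_all_iff]
  intro i
  have h3 : Summable (fun k => ∫ y, |f i (n k) y| ∂m) := by
    refine Summable.of_norm_bounded_eventually_nat summable_geometric_two ?_
    filter_upwards [eventually_ge_atTop i] with k hk
    rw [Real.norm_of_nonneg (integral_nonneg fun y => abs_nonneg _)]
    exact hn1 k i hk
  have h4 : ∫⁻ y, ∑' k, ‖f i (n k) y‖ₑ ∂m ≠ ⊤ := by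
    rw [lintegral_tsum fun k => (hf i (n k)).enorm.aemeasurable]
    have h5 : ∀ k, ∫⁻ y, ‖f i (n k) y‖ₑ ∂m = ENNReal.ofReal (∫ y, |f i (n k) y| ∂m) := by
      intro k
      rw [← ofReal_integral_norm_eq_lintegral_enorm (hi i (n k))]
      rfl
    rw [tsum_congr h5]
    exact h3.tsum_ofReal_ne_top
  have h6 := ae_lt_top (Measurable.tsum fun k => (hf i (n k)).enorm) h4
  filter_upwards [h6] with y hy
  have h7 := ENNReal.tendsto_atTop_zero_of_tsum_ne_top hy.ne
  rw [tendsto_zero_iff_enorm_tendsto_zero]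
  exact h7

end Pool.Agent.MP27775c.SR
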