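import Pool.Agent.Lib.MP_27775c_an_SR.ReA
import Pool.Agent.Lib.MP_27775c_an_SR.ReB

/-!
# MP_27775c_an, project SR, module ReC: good points of a subsequence
-/

set_option autoImplicit false

open MeasureTheory Set Filter Topology
open scoped Manifold ContDiff UpperHalfPlane

namespace Pool.Agent.MP27775c.SR

open Pool.Agent.MP27775c.DO

variable {Y : Type*} [TopologicalSpace Y] [PolishSpace Y] [MeasurableSpace Y] [BorelSpace Y]
  (A : RAct Y)

/-- For a measurable `F` the integrals over the rays are measurable in `y`. Proof: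
`StronglyMeasurable.integral_prod_right` as in the proof of `nav_meas` in project DO; `cont_ray`.
-/
theorem int_ray_meas {F : Y → ℝ} (hF : Measurable F) (s p q : ℝ) :
    Measurable fun y => ∫ x in p..q, F (ray A y x s) := by
  have h0 : Continuous fun r : Y × ℝ => ray A r.1 r.2 s := by
    have h1 : Continuous fun r : Y × ℝ => (r.1, r.2, s) := by fun_prop
    have h2 := (cont_ray A).comp h1
    simpa only [Function.comp_def] using h2
  have h1 : Measurable fun r : Y × ℝ => F (ray A r.1 r.2 s) := hF.comp h0.measurable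
  have h2 : StronglyMeasurable fun r : Y × ℝ => F (ray A r.1 r.2 s) := h1.stronglyMeasurable
  simp only [intervalIntegral]
  exact (h2.integral_prod_right (ν := volume.restrict (Ioc p q))).measurable.sub
    (h2.integral_prod_right (ν := volume.restrict (Ioc q p))).measurable

/-- Proof: a countable intersection of sets where a sequence of measurable functions converges to a
constant: `int_ray_meas`, `measurableSet_tendsto_nhds` (or `measurableSet_tendsto`). -/
theorem gdq_meas {F : Y → ℝ} (hF : Measurable F) (κ : ℝ) (R : ℕ → ℝ) :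
    MeasurableSet {y | GdQ A F κ R y} := by
  have h : {y | GdQ A F κ R y} = ⋂ s : ℚ, ⋂ p : ℚ, ⋂ q : ℚ,
      {y | Tendsto (fun k => ∫ x in (p : ℝ)..q, F (ray A y x (s - R k))) atTop
        (𝓝 (((q : ℝ) - p) * κ))} := by
    ext y
    simp only [Set.mem_iInter, Set.mem_ofPred_eq]
    rfl
  rw [h]
  refine MeasurableSet.iInter fun s => MeasurableSet.iInter fun p =>
    MeasurableSet.iInter fun q => ?_
  exact measurableSet_tendsto _ fun k => int_ray_meas A hF _ _ _

/-- Proof: `sub_ae` for the functions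
`f i k y = (∫ x in p..q, F (ray A y x (s - R k))) - (q - p) * κ`, the index `i` running through the
triples `(s, p, q)` of rational numbers (`exists_surjective_nat`, or an encoding), with `L1_ray`
along `t = s - R k → -∞`; bounded measurable functions are integrable. -/
theorem exists_sub {m : Measure Y} [IsProbabilityMeasure m] (h : IsPInv A m) (he : IsNErg A m)
    {F : Y → ℝ} (hF : Measurable F) (hb : ∃ C, ∀ y, |F y| ≤ C) {R : ℕ → ℝ}
    (hR : Tendsto R atTop atTop) :
    ∃ n : ℕ → ℕ, StrictMono n ∧ ∀ᵐ y ∂m, GdQ A F (∫ y, F y ∂m) (fun k => R (n k)) y := by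
  obtain ⟨e, he'⟩ := exists_surjective_nat (ℚ × ℚ × ℚ)
  obtain ⟨C, hC⟩ := hb
  set κ := ∫ y, F y ∂m with hκ
  let f : ℕ → ℕ → Y → ℝ := fun i k y =>
    (∫ x in ((e i).2.1 : ℝ)..((e i).2.2 : ℝ), F (ray A y x (((e i).1 : ℝ) - R k))) -
      (((e i).2.2 : ℝ) - ((e i).2.1 : ℝ)) * κ
  have hf : ∀ i k, Measurable (f i k) := fun i k => (int_ray_meas A hF _ _ _).sub_const _
  have hi : ∀ i k, Integrable (f i k) m := by
    intro i k
    refine Integrable.of_bound (hf i k).aestronglyMeasurable
      (C * |((e i).2.2 : ℝ) - ((e i).2.1 : ℝ)| +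
        |(((e i).2.2 : ℝ) - ((e i).2.1 : ℝ)) * κ|) (ae_of_all _ fun y => ?_)
    have h1 : ‖∫ x in ((e i).2.1 : ℝ)..((e i).2.2 : ℝ), F (ray A y x (((e i).1 : ℝ) - R k))‖ ≤
        C * |((e i).2.2 : ℝ) - ((e i).2.1 : ℝ)| :=
      intervalIntegral.norm_integral_le_of_norm_le_const fun x _ => by
        rw [Real.norm_eq_abs]
        exact hC _
    refine (norm_sub_le _ _).trans (add_le_add h1 ?_)
    rw [Real.norm_eq_abs]
  have hlim : ∀ i, Tendsto (fun k => ∫ y, |f i k y| ∂m) atTop (𝓝 0) := by
    intro i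
    have h1 : Tendsto (fun k => ((e i).1 : ℝ) - R k) atTop atBot := by
      simp only [sub_eq_add_neg]
      exact tendsto_atBot_add_const_left _ _ (tendsto_neg_atTop_atBot.comp hR)
    exact (L1_ray A h he hF ⟨C, hC⟩ ((e i).2.1 : ℝ) ((e i).2.2 : ℝ)).comp h1
  obtain ⟨n, hn, hae⟩ := sub_ae hf hi hlim
  refine ⟨n, hn, ?_⟩
  filter_upwards [hae] with y hy s p q
  obtain ⟨i, hi'⟩ := he' (s, p, q)
  have h1 := hy i
  simp only [f, hi'] at h1
  have h2 := h1.add_const (((q : ℝ) - (p : ℝ)) * κ)
  simpa only [sub_add_cancel, zero_add] using h2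

end Pool.Agent.MP27775c.SR
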