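import Pool.Agent.Lib.MP_27775c_an_SR.ShA
import Pool.Agent.Lib.MP_27775c_an_SR.BdC
import Pool.Agent.Lib.MP_27775c_an_SR.BdD
import Pool.Agent.Lib.MP_27775c_an_SR.BdE

/-!
# MP_27775c_an, project SR, module ShB: a shadowed point is good
-/

set_option autoImplicit false

open MeasureTheory Set Filter Topology
open scoped Manifold ContDiff UpperHalfPlane

namespace Pool.Agent.MP27775c.SR

open Pool.Agent.MP27775c.DO

variable {Y : Type*} [TopologicalSpace Y] [PolishSpace Y] [MeasurableSpace Y] [BorelSpace Y]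
  (A : RAct Y)

/-- Proof. `gd_of_bd`: let `η > 0` and `N` be given, `V` as in `fclose_of_close` for `η / 2`,
`S = Icc (-N) N`. `exhaust` with `P E = Bd A F κ R y η E` (closed under countable unions:
`bd_iUnion`; `Bd` for `∅` is trivial). Let `B ⊆ S` be measurable, not null. By `hs` the set of the
`y'` with `E ⊆ B`, `E` measurable, not null, `CloseA A e V y y' E`, is not `μ`-null, so it is not
contained in the null set where `hG` fails: there are `y' ∈ X` with `Gd A F κ R y'` and such an `E`.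
`FClose A F (η / 2) y y' E`, and `bd_of_fclose` gives `Bd A F κ R y η E`. -/
theorem gd_of_shad {X : Set Y} {F : Y → ℝ} {M : Type*} [TopologicalSpace M] [CompactSpace M]
    [T2Space M] {e : Y → M} (hS : Setup A X F e) {κ : ℝ} {R : ℕ → ℝ}
    (hR : Tendsto R atTop atTop) {μ : Measure Y} (hG : ∀ᵐ y' ∂μ, y' ∈ X ∧ Gd A F κ R y')
    {y : Y} (hy : y ∈ X) (hs : ShadA A e μ y) : Gd A F κ R y := by
  obtain ⟨C, hC⟩ := hS.bddF
  refine gd_of_bd A hS.measF ⟨C, hC⟩ fun η hη N => ?_
  obtain ⟨V, hV, hV2⟩ := fclose_of_close A hS (half_pos hη)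
  have hvol : volume (Icc (-(N : ℝ)) N) ≠ ⊤ := by
    rw [Real.volume_Icc]
    exact ENNReal.ofReal_ne_top
  have h0 : Bd A F κ R y η ∅ := by
    intro s B hB _ ε hε
    have hB' : B = ∅ := subset_empty_iff.mp hB
    refine Eventually.of_forall fun k => ?_
    rw [hB']
    simp only [Measure.restrict_empty, integral_zero_measure, abs_zero, measure_empty,
      ENNReal.toReal_zero, mul_zero, zero_add]
    exact hε.le
  have hU : ∀ E : ℕ → Set ℝ, (∀ i, MeasurableSet (E i) ∧ E i ⊆ Icc (-(N : ℝ)) N ∧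
      Bd A F κ R y η (E i)) → Bd A F κ R y η (⋃ i, E i) := fun E hE =>
    bd_iUnion A hS.measF hC hη.le (fun i => (hE i).1)
      (ne_top_of_le_ne_top hvol (measure_mono (iUnion_subset fun i => (hE i).2.1)))
      fun i => (hE i).2.2
  have hx : ∀ B ⊆ Icc (-(N : ℝ)) N, MeasurableSet B → volume B ≠ 0 →
      ∃ E ⊆ B, MeasurableSet E ∧ volume E ≠ 0 ∧ Bd A F κ R y η E := by
    intro B hB hBm hB0
    have h1 := hs V hV B hBm hB0
    have h2 : ∃ y', (∃ E ⊆ B, MeasurableSet E ∧ volume E ≠ 0 ∧ CloseA A e V y y' E) ∧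
        (y' ∈ X ∧ Gd A F κ R y') := by
      by_contra hcon
      apply h1
      refine measure_mono_null (fun y' hy' => ?_) (ae_iff.mp hG)
      exact fun h => hcon ⟨y', hy', h⟩
    obtain ⟨y', ⟨E, hEB, hEm, hE0, hc⟩, hy', hg⟩ := h2
    refine ⟨E, hEB, hEm, hE0, ?_⟩
    have h3 := bd_of_fclose A hS hR hy' hg hEm
      (ne_top_of_le_ne_top hvol (measure_mono (hEB.trans hB))) (half_pos hη)
      (hV2 y hy y' hy' E hc)
    have h4 : 2 * (η / 2) = η := by ring
    rwa [h4] at h3
  obtain ⟨E, hE1, hE2, hE3, hE4⟩ := exhaust measurableSet_Icc hvol h0 hU hx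
  exact ⟨E, hE1, hE2, hE4, hE3⟩

end Pool.Agent.MP27775c.SR
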