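import Pool.Agent.Lib.MP_27775c_an_SR.UnA

/-!
# MP_27775c_an, project SR, module UnB: from rational parameters to real ones
-/

set_option autoImplicit false

open MeasureTheory Set Filter Topology
open scoped Manifold ContDiff UpperHalfPlane

namespace Pool.Agent.MP27775c.SR

open Pool.Agent.MP27775c.DO

variable {Y : Type*} [TopologicalSpace Y] [PolishSpace Y] [MeasurableSpace Y] [BorelSpace Y]
  (A : RAct Y)

private lemma unB_int {f : ℝ → ℝ} (hf : Measurable f) {C : ℝ} (hC : ∀ x, |f x| ≤ C) (a b : ℝ) :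
    IntervalIntegrable f volume a b := by
  rw [intervalIntegrable_iff]
  refine intOn hf hC ?_
  rw [uIoc, Real.volume_Ioc]
  exact ENNReal.ofReal_ne_top

private lemma unB_bd {f : ℝ → ℝ} {C : ℝ} (hC : ∀ x, |f x| ≤ C) (a b : ℝ) :
    |∫ x in a..b, f x| ≤ C * |b - a| := by
  have h := intervalIntegral.norm_integral_le_of_norm_le_const (a := a) (b := b) (f := f)
    (C := C) (fun x _ => by
      rw [Real.norm_eq_abs]
      exact hC x)
  rwa [Real.norm_eq_abs] at h

/-- changing the end points -/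
private lemma unB_ends {f : ℝ → ℝ} (hf : Measurable f) {C : ℝ} (hC : ∀ x, |f x| ≤ C)
    (p q p' q' : ℝ) :
    |(∫ x in p..q, f x) - ∫ x in p'..q', f x| ≤ C * |p' - p| + C * |q' - q| := by
  rw [intervalIntegral.integral_interval_sub_interval_comm (unB_int hf hC p q)
    (unB_int hf hC p' q') (unB_int hf hC p p')]
  refine (abs_sub _ _).trans ?_
  exact add_le_add (unB_bd hC p p') (unB_bd hC q q')

/-- Proof. Let `C` bound `|F|`, `C ≥ 0`. Given real `s, p, q` and `ε`: `unif_path` with `c = aa`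
gives `δ`; choose rational `s'`, `p'`, `q'` with `|s - s'| ≤ δ` and `p'`, `q'` close to `p`, `q`. By
`ray_add` and the invariance of `X`, `|F (ray A y x (s - R k)) - F (ray A y x (s' - R k))| ≤ η` for
all `x`, and changing `p`, `q` changes the integral by at most `C * (|p - p'| + |q - q'|)`. -/
theorem gd_of_gdq {X : Set Y} {F : Y → ℝ} {M : Type*} [TopologicalSpace M] {e : Y → M}
    (hS : Setup A X F e) {κ : ℝ} {R : ℕ → ℝ} {y : Y} (hy : y ∈ X) (h : GdQ A F κ R y) :
    Gd A F κ R y := by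
  obtain ⟨C, hC⟩ := hS.bddF
  have hC0 : 0 ≤ C := (abs_nonneg _).trans (hC y)
  intro s p q
  rw [Metric.tendsto_atTop]
  intro ε hε
  obtain ⟨δ, hδ, hu⟩ := unif_path A hS.comp hS.inv hS.contF continuous_aa aa_zero
    (show 0 < ε / (8 * (|q - p| + 1)) by positivity)
  obtain ⟨ρ, hρ⟩ : ∃ ρ : ℝ, ρ = ε / (16 * (C + |κ| + 1)) := ⟨_, rfl⟩
  have hρ0 : 0 < ρ := by
    rw [hρ]
    positivity
  obtain ⟨s', hs1, hs2⟩ := exists_rat_btwn (show s < s + δ by linarith)
  obtain ⟨p', hp1, hp2⟩ := exists_rat_btwn (show p < p + ρ by linarith)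
  obtain ⟨q', hq1, hq2⟩ := exists_rat_btwn (show q < q + ρ by linarith)
  obtain ⟨N, hN⟩ := (Metric.tendsto_atTop.1 (h s' p' q')) (ε / 4) (by positivity)
  refine ⟨N, fun k hk => ?_⟩
  have h4 := hN k hk
  rw [Real.dist_eq] at h4 ⊢
  have m1 := meas_F_ray A hS.measF y (s - R k)
  have m2 := meas_F_ray A hS.measF y (s' - R k)
  have h1 : |(∫ x in p..q, F (ray A y x (s - R k))) -
      ∫ x in p..q, F (ray A y x (s' - R k))| ≤ ε / 8 := by
    rw [← intervalIntegral.integral_sub (unB_int m1 (fun x => hC _) p q)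
      (unB_int m2 (fun x => hC _) p q)]
    refine (unB_bd (C := ε / (8 * (|q - p| + 1))) (fun x => ?_) p q).trans ?_
    · have e1 : s' - R k = (s - R k) + (s' - s) := by ring
      rw [e1, ray_add, abs_sub_comm]
      refine hu _ ?_ _ ?_
      · exact hS.inv y hy _
      · rw [abs_le]
        constructor <;> linarith
    · rw [div_mul_eq_mul_div, div_le_iff₀ (by positivity)]
      nlinarith [abs_nonneg (q - p)]
  have h2 := unB_ends m2 (fun x => hC (ray A y x (s' - R k))) p q p' q'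
  have hp3 : |(p' : ℝ) - p| ≤ ρ := by
    rw [abs_le]
    constructor <;> linarith
  have hq3 : |(q' : ℝ) - q| ≤ ρ := by
    rw [abs_le]
    constructor <;> linarith
  have hCρ : (C + |κ| + 1) * ρ = ε / 16 := by
    rw [hρ]
    field_simp
  have hκ0 := abs_nonneg κ
  have h3 : C * |(p' : ℝ) - p| + C * |(q' : ℝ) - q| ≤ ε / 8 := by
    nlinarith [mul_le_mul_of_nonneg_left hp3 hC0, mul_le_mul_of_nonneg_left hq3 hC0,
      mul_nonneg hκ0 hρ0.le]
  have h5 : |((q' : ℝ) - p') * κ - (q - p) * κ| ≤ ε / 8 := by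
    have e2 : ((q' : ℝ) - p') * κ - (q - p) * κ = ((q' - q) - (p' - p)) * κ := by ring
    rw [e2, abs_mul]
    have e3 : |((q' : ℝ) - q) - (p' - p)| ≤ ρ + ρ := (abs_sub _ _).trans (add_le_add hq3 hp3)
    nlinarith [mul_le_mul_of_nonneg_right e3 hκ0, mul_nonneg hC0 hρ0.le]
  have h6 : (∫ x in p..q, F (ray A y x (s - R k))) - (q - p) * κ =
      ((∫ x in p..q, F (ray A y x (s - R k))) - ∫ x in p..q, F (ray A y x (s' - R k))) +
      ((∫ x in p..q, F (ray A y x (s' - R k))) -
        ∫ x in (p' : ℝ)..q', F (ray A y x (s' - R k))) +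
      ((∫ x in (p' : ℝ)..q', F (ray A y x (s' - R k))) - ((q' : ℝ) - p') * κ) +
      (((q' : ℝ) - p') * κ - (q - p) * κ) := by ring
  rw [h6]
  refine lt_of_le_of_lt (abs_add_le _ _) ?_
  have h7 := abs_add_le (((∫ x in p..q, F (ray A y x (s - R k))) -
      ∫ x in p..q, F (ray A y x (s' - R k))) +
      ((∫ x in p..q, F (ray A y x (s' - R k))) -
        ∫ x in (p' : ℝ)..q', F (ray A y x (s' - R k))))
      ((∫ x in (p' : ℝ)..q', F (ray A y x (s' - R k))) - ((q' : ℝ) - p') * κ)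
  have h8 := abs_add_le ((∫ x in p..q, F (ray A y x (s - R k))) -
      ∫ x in p..q, F (ray A y x (s' - R k)))
      ((∫ x in p..q, F (ray A y x (s' - R k))) -
        ∫ x in (p' : ℝ)..q', F (ray A y x (s' - R k)))
  linarith

end Pool.Agent.MP27775c.SR
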