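import Pool.Agent.Lib.MP_27775c_an_SR.FiA
import Pool.Agent.Lib.MP_27775c_an_SR.ShB
import Pool.Agent.Lib.MP_27775c_an_SR.MoC
import Pool.Agent.Lib.MP_27775c_an_SR.ReC
import Pool.Agent.Lib.MP_27775c_an_SR.UnB

/-!
# MP_27775c_an, project SR, module FiB: convergence of the disc averages for all radii
-/

set_option autoImplicit false

open MeasureTheory Set Filter Topology
open scoped Manifold ContDiff UpperHalfPlane

namespace Pool.Agent.MP27775c.SR

open Pool.Agent.MP27775c.DO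

variable {Y : Type*} [TopologicalSpace Y] [PolishSpace Y] [MeasurableSpace Y] [BorelSpace Y]
  (A : RAct Y)

/-- The abstract theorem. Proof. `exists_goodE` gives `m` with `kap A m = μ`, invariant under the
triangular group and ergodic for `nn`; `m Xᶜ = 0` by `ae_of_kap`; `∫ F ∂μ = ∫ F ∂m = κ` by
`int_kap`. Suppose that the convergence fails. There are `ε > 0` and `R k → ∞` with
`ε ≤ |bav A (R k) F y - κ|` for all `k` (`Filter.not_tendsto_iff_exists_frequently_notMem`,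
`Filter.exists_seq_forall_of_frequently`). `exists_sub` gives a subsequence `R' = R ∘ n` with `GdQ`
`m`-almost everywhere. Let `p y' = (y' ∈ X ∧ GdQ A F κ R' y')`, measurable (`gdq_meas`, `X` is
closed) and invariant under rotations (`gd_of_gdq`, `gd_act`, `Gd` implies `GdQ`; for the converse
use `kk (-θ)`), so `ae_kap` gives `p` `μ`-almost everywhere, and `gd_of_gdq` gives the hypothesis
`hG` of `gd_of_shad`. So `Gd A F κ R' y`; `binf_of_gd` and `bav_binf` give
`bav A (R' k) F y → κ`: contradiction. -/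
theorem abs_main {μ : Measure Y} [IsProbabilityMeasure μ] (hH : IsHarm A μ) (hE : IsExt A μ)
    (hP : ¬ IsExc A μ) {X : Set Y} {F : Y → ℝ} {M : Type*} [TopologicalSpace M] [CompactSpace M]
    [T2Space M] {e : Y → M} (hS : Setup A X F e) (hX : ∀ᵐ y ∂μ, y ∈ X)
    (hK : ∀ y θ, F (A.act y (kk θ)) = F y) {y : Y} (hy : y ∈ X) (hs : ShadA A e μ y) :
    Tendsto (fun R : ℝ => bav A R F y) atTop (𝓝 (∫ y, F y ∂μ)) := by
  obtain ⟨m, hm, hp, hk, hE'⟩ := exists_goodE A hH hE hP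
  have hint := (int_kap A (m := m) hS.measF hK).2
  rw [hk] at hint
  rw [hint]
  by_contra hcon
  obtain ⟨s, hs', hf⟩ := not_tendsto_iff_exists_frequently_notMem.1 hcon
  obtain ⟨R, hR, hRs⟩ := exists_seq_forall_of_frequently hf
  obtain ⟨n, hn, hae⟩ := exists_sub A hp hE' hS.measF hS.bddF hR
  obtain ⟨κ, hκ⟩ : ∃ κ, κ = ∫ y, F y ∂m := ⟨_, rfl⟩
  rw [← hκ] at hae hs'
  have hR' : Tendsto (fun k => R (n k)) atTop atTop := hR.comp hn.tendsto_atTop
  have hXm : ∀ᵐ y ∂m, y ∈ X := ae_of_kap A (by rw [hk]; exact hX) (fun y g hy => hS.inv y hy g)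
  have htoQ : ∀ y', Gd A F κ (fun k => R (n k)) y' → GdQ A F κ (fun k => R (n k)) y' :=
    fun y' h s p q => h s p q
  have hmeas : MeasurableSet {y' | y' ∈ X ∧ GdQ A F κ (fun k => R (n k)) y'} :=
    hS.comp.isClosed.measurableSet.inter (gdq_meas A hS.measF κ _)
  have hinv1 : ∀ y' θ, (y' ∈ X ∧ GdQ A F κ (fun k => R (n k)) y') →
      (A.act y' (kk θ) ∈ X ∧ GdQ A F κ (fun k => R (n k)) (A.act y' (kk θ))) :=
    fun y' θ h => ⟨hS.inv _ h.1 _, htoQ _ (gd_act A hS hR' h.1 (kk θ) (gd_of_gdq A hS h.1 h.2))⟩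
  have hinv : ∀ y' θ, (A.act y' (kk θ) ∈ X ∧ GdQ A F κ (fun k => R (n k)) (A.act y' (kk θ))) ↔
      (y' ∈ X ∧ GdQ A F κ (fun k => R (n k)) y') := by
    refine fun y' θ => ⟨fun h => ?_, hinv1 y' θ⟩
    have h1 := hinv1 _ (-θ) h
    rwa [← A.act_mul, ← kk_add, add_neg_cancel, kk_zero, A.act_one] at h1
  have hae' : ∀ᵐ y' ∂(kap A m), y' ∈ X ∧ GdQ A F κ (fun k => R (n k)) y' :=
    ae_kap A hmeas hinv (hXm.and hae)
  rw [hk] at hae'
  have hG : ∀ᵐ y' ∂μ, y' ∈ X ∧ Gd A F κ (fun k => R (n k)) y' :=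
    hae'.mono fun y' h => ⟨h.1, gd_of_gdq A hS h.1 h.2⟩
  have hgd := gd_of_shad A hS hR' hG hy hs
  have h1 := binf_of_gd A hS.measF hS.bddF hgd
  obtain ⟨e', he', hb⟩ := bav_binf A
  obtain ⟨C, hC⟩ := hS.bddF
  have h2 : Tendsto (fun k => bav A (R (n k)) F y - binf A (R (n k)) F y) atTop (𝓝 0) := by
    have h3 : Tendsto (fun k => C * e' (R (n k))) atTop (𝓝 0) := by
      have h4 := (he'.comp hR').const_mul C
      rw [mul_zero] at h4
      exact h4
    refine squeeze_zero_norm' ?_ h3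
    filter_upwards [hR'.eventually (eventually_gt_atTop 0)] with k hk'
    rw [Real.norm_eq_abs]
    exact hb F hS.measF C hC _ hk' y
  have h5 := h2.add h1
  simp only [sub_add_cancel, zero_add] at h5
  obtain ⟨k, hk'⟩ := (h5.eventually hs').exists
  exact hRs _ hk'

end Pool.Agent.MP27775c.SR
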