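import Pool.Agent.Lib.MP_27775c_an_SR.Bas

/-!
# MP_27775c_an, project SR, module HoA: typical points
-/

set_option autoImplicit false

open MeasureTheory Set Filter Topology
open scoped Manifold ContDiff UpperHalfPlane

namespace Pool.Agent.MP27775c.SR

open Pool.Agent.MP27775c.DO

variable {Y : Type*} [TopologicalSpace Y] [PolishSpace Y] [MeasurableSpace Y] [BorelSpace Y]
  (A : RAct Y)

omit [PolishSpace Y] [MeasurableSpace Y] [BorelSpace Y] in
private theorem hoA_iter (y : Y) (k : ℕ) :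
    (fun z => A.act z (aa (-1)))^[k] y = A.act y (aa (-(k : ℝ))) := by
  induction k with
  | zero => simp [aa_zero, A.act_one]
  | succ k ih =>
    rw [Function.iterate_succ_apply', ih, ← A.act_mul, ← aa_add]
    push_cast
    rw [neg_add]

/-- The error function of a bounded continuous function. -/
private noncomputable def hoA_E (U : Y → ℝ) (F : BoundedContinuousFunction Y ℝ) :
    Y → ENNReal := fun y => ‖U y - F y‖ₑ

omit [PolishSpace Y] in
private theorem hoA_E_meas {U : Y → ℝ} (hU : Measurable U) (F : BoundedContinuousFunction Y ℝ) :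
    Measurable (hoA_E U F) :=
  (hU.sub F.continuous.measurable).enorm

private theorem hoA_choose (m : Measure Y) [IsProbabilityMeasure m] {U : Y → ℝ}
    (hU : Measurable U) (h01 : ∀ y, 0 ≤ U y ∧ U y ≤ 1) {δ : ℝ} (hδ : 0 < δ) :
    ∃ F : BoundedContinuousFunction Y ℝ, ∫⁻ y, hoA_E U F y ∂m ≤ ENNReal.ofReal δ := by
  have hδ0 : ENNReal.ofReal δ ≠ 0 := (ENNReal.ofReal_pos.2 hδ).ne'
  have hL : MemLp U 1 m := by
    refine MemLp.of_bound hU.aestronglyMeasurable 1 (Eventually.of_forall fun y => ?_)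
    rw [Real.norm_eq_abs, abs_of_nonneg (h01 y).1]
    exact (h01 y).2
  obtain ⟨F, hF, -⟩ := hL.exists_boundedContinuous_eLpNorm_sub_le ENNReal.one_ne_top hδ0
  refine ⟨F, ?_⟩
  rw [eLpNorm_one_eq_lintegral_enorm] at hF
  exact hF

/-- The set where some average is too large. -/
private def hoA_B (E : Y → ENNReal) (c : ℝ) : Set Y :=
  {y | ∃ n : ℕ, 0 < n ∧ ENNReal.ofReal c * n <
    ∑ k ∈ Finset.range n, E ((fun z => A.act z (aa (-1)))^[k] y)}

omit [PolishSpace Y] in
private theorem hoA_B_meas {E : Y → ENNReal} (hE : Measurable E) (c : ℝ) :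
    MeasurableSet (hoA_B A E c) := by
  have h1 : hoA_B A E c = ⋃ n : ℕ, {y | 0 < n ∧ ENNReal.ofReal c * n <
      ∑ k ∈ Finset.range n, E ((fun z => A.act z (aa (-1)))^[k] y)} := by
    ext y
    simp [hoA_B]
  rw [h1]
  refine MeasurableSet.iUnion fun n => ?_
  have h2 : Measurable fun y => ∑ k ∈ Finset.range n,
      E ((fun z => A.act z (aa (-1)))^[k] y) :=
    Finset.measurable_sum _ fun k _ => hE.comp ((meas_act A (aa (-1))).iterate k)
  have h3 : MeasurableSet {y | ENNReal.ofReal c * n <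
      ∑ k ∈ Finset.range n, E ((fun z => A.act z (aa (-1)))^[k] y)} :=
    measurableSet_lt measurable_const h2
  exact (MeasurableSet.const (0 < n)).inter h3

omit [PolishSpace Y] [MeasurableSpace Y] [BorelSpace Y] in
private theorem hoA_pt {U : Y → ℝ} (F : BoundedContinuousFunction Y ℝ) {η : ℝ} (hη : 0 ≤ η)
    (z z' : Y) (h : |F z - F z'| ≤ η) :
    ENNReal.ofReal |U z - U z'| ≤ hoA_E U F z + hoA_E U F z' + ENNReal.ofReal η := by
  have h2 : |U z - U z'| ≤ |U z - F z| + |U z' - F z'| + η := by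
    have e1 : U z - U z' = (U z - F z) - (U z' - F z') + (F z - F z') := by ring
    rw [e1]
    refine (abs_add_le _ _).trans (add_le_add ?_ h)
    exact abs_sub _ _
  calc ENNReal.ofReal |U z - U z'| ≤ ENNReal.ofReal (|U z - F z| + |U z' - F z'| + η) :=
        ENNReal.ofReal_le_ofReal h2
    _ = ‖U z - F z‖ₑ + ‖U z' - F z'‖ₑ + ENNReal.ofReal η := by
        rw [ENNReal.ofReal_add (by positivity) hη, ENNReal.ofReal_add (by positivity)
          (by positivity), ← Real.norm_eq_abs, ← Real.norm_eq_abs, ofReal_norm,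
          ofReal_norm]
    _ = _ := rfl

omit [PolishSpace Y] [MeasurableSpace Y] [BorelSpace Y] in
private theorem hoA_sum {U : Y → ℝ} (h01 : ∀ y, 0 ≤ U y ∧ U y ≤ 1) (E : Y → ENNReal)
    {η : ℝ} (hη : 0 < η) {x x' : Y} {k₀ : ℕ}
    (h : ∀ k : ℕ, k₀ ≤ k → ENNReal.ofReal |U (A.act x (aa (-(k : ℝ)))) -
      U (A.act x' (aa (-(k : ℝ))))| ≤ E (A.act x (aa (-(k : ℝ)))) +
        E (A.act x' (aa (-(k : ℝ)))) + ENNReal.ofReal η)
    (hx : x ∉ hoA_B A E η) (hx' : x' ∉ hoA_B A E η) (n : ℕ) (hn : 0 < n) :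
    mdif A U x x' n ≤ k₀ / n + 3 * η := by
  have e1 : ∀ y ∉ hoA_B A E η, ∑ k ∈ Finset.range n, E (A.act y (aa (-(k : ℝ)))) ≤
      ENNReal.ofReal η * n := by
    intro y hy
    by_contra hc
    refine hy ⟨n, hn, ?_⟩
    simp only [hoA_iter]
    exact not_le.1 hc
  have e2 : ∀ k ∈ Finset.range n, ENNReal.ofReal |U (A.act x (aa (-(k : ℝ)))) -
      U (A.act x' (aa (-(k : ℝ))))| ≤ (if k < k₀ then 1 else 0) +
        (E (A.act x (aa (-(k : ℝ)))) + E (A.act x' (aa (-(k : ℝ)))) + ENNReal.ofReal η) := by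
    intro k _
    by_cases hk : k < k₀
    · rw [if_pos hk]
      refine le_trans ?_ le_self_add
      rw [← ENNReal.ofReal_one]
      refine ENNReal.ofReal_le_ofReal ?_
      rw [abs_le]
      have h2 := h01 (A.act x (aa (-(k : ℝ))))
      have h3 := h01 (A.act x' (aa (-(k : ℝ))))
      constructor <;> linarith [h2.1, h2.2, h3.1, h3.2]
    · rw [if_neg hk, zero_add]
      exact h k (not_lt.1 hk)
  have e3 : ∑ k ∈ Finset.range n, (if k < k₀ then (1 : ENNReal) else 0) ≤ k₀ := by
    rw [Finset.sum_ite, Finset.sum_const_zero, add_zero, Finset.sum_const, nsmul_eq_mul, mul_one]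
    have h4 : ((Finset.range n).filter fun k => k < k₀).card ≤ k₀ := by
      calc _ ≤ (Finset.range k₀).card := by
            refine Finset.card_le_card fun k hk => ?_
            exact Finset.mem_range.2 (Finset.mem_filter.1 hk).2
        _ = k₀ := Finset.card_range _
    exact_mod_cast h4
  have e4 : ENNReal.ofReal (∑ k ∈ Finset.range n, |U (A.act x (aa (-(k : ℝ)))) -
      U (A.act x' (aa (-(k : ℝ))))|) ≤ ENNReal.ofReal (k₀ + 3 * η * n) := by
    rw [ENNReal.ofReal_sum_of_nonneg fun _ _ => abs_nonneg _]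
    refine (Finset.sum_le_sum e2).trans ?_
    rw [Finset.sum_add_distrib, Finset.sum_add_distrib, Finset.sum_add_distrib, Finset.sum_const,
      Finset.card_range, nsmul_eq_mul]
    have e5 : ENNReal.ofReal (k₀ + 3 * η * n) = k₀ + (ENNReal.ofReal η * n +
        ENNReal.ofReal η * n + n * ENNReal.ofReal η) := by
      rw [ENNReal.ofReal_add (by positivity) (by positivity), ENNReal.ofReal_natCast,
        ENNReal.ofReal_mul (by positivity), ENNReal.ofReal_mul (by positivity),
        ENNReal.ofReal_natCast]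
      have : ENNReal.ofReal 3 = 3 := by simp
      rw [this]
      ring
    rw [e5]
    exact add_le_add e3 (add_le_add (add_le_add (e1 x hx) (e1 x' hx')) le_rfl)
  rw [ENNReal.ofReal_le_ofReal_iff (by positivity)] at e4
  have hn' : (0 : ℝ) < n := by exact_mod_cast hn
  unfold mdif
  rw [one_div, inv_mul_le_iff₀ hn']
  refine e4.trans (le_of_eq ?_)
  field_simp

/-- The set of typical points, for asymptotic pairs. Proof: as `exists_Om` in `DO/OmA.lean`, but
without the compact sets (copy its private lemmas). For every `j` choose a bounded continuous `F j`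
with `∫ |U - F j| ∂m ≤ 8 ^ (-j)`, `E j = |U - F j|`. By `hopf_det` for `τ y = y · aa (-1)` the set
where some average `1 / n * ∑ k < n, E j (y · aa (-k))` is larger than `2 ^ (-j)` has measure at
most `4 ^ (-j)`. By Borel-Cantelli `Ω = {y | for all large j, for all n ≥ 1, the average is
≤ 2 ^ (-j)}` has full measure; it is measurable. Let `x`, `x'` be in `Ω` and asymptotic. For large
`j`, with `z = x · aa (-k)`, `z' = x' · aa (-k)`:
`|U z - U z'| ≤ E j z + E j z' + |F j z - F j z'|`, and the last term is at most `2 ^ (-j)` for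
large `k`. So the limes superior of the averages is at most `3 * 2 ^ (-j)`. -/
theorem exists_OmG {m : Measure Y} [IsProbabilityMeasure m] (ha : ∀ t, tr A m (aa t) = m)
    {U : Y → ℝ} (hU : Measurable U) (h01 : ∀ y, 0 ≤ U y ∧ U y ≤ 1) :
    ∃ Ω : Set Y, MeasurableSet Ω ∧ m Ωᶜ = 0 ∧ ∀ x ∈ Ω, ∀ x' ∈ Ω,
      (∀ F : BoundedContinuousFunction Y ℝ, Tendsto (fun k : ℕ =>
        F (A.act x (aa (-(k : ℝ)))) - F (A.act x' (aa (-(k : ℝ))))) atTop (𝓝 0)) →
      Tendsto (mdif A U x x') atTop (𝓝 0) := by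
  have hch : ∀ j : ℕ, ∃ F : BoundedContinuousFunction Y ℝ,
      ∫⁻ y, hoA_E U F y ∂m ≤ ENNReal.ofReal ((1 / 8) ^ j) := fun j =>
    hoA_choose m hU h01 (by positivity)
  choose F hI using hch
  have hEm : ∀ j, Measurable (hoA_E U (F j)) := fun j => hoA_E_meas hU (F j)
  have hB : ∀ j : ℕ, m (hoA_B A (hoA_E U (F j)) ((1 / 2) ^ j)) ≤
      ENNReal.ofReal ((1 / 4) ^ j) := by
    intro j
    have hp : (0 : ℝ) < (1 / 2) ^ j := by positivity
    refine (hopf_det (mp_of_tr A (ha (-1))) (hEm j) (ENNReal.ofReal_pos.2 hp)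
      ENNReal.ofReal_ne_top).trans ?_
    refine (ENNReal.div_le_div_right (hI j) _).trans (le_of_eq ?_)
    rw [← ENNReal.ofReal_div_of_pos hp]
    congr 1
    rw [← div_pow]
    norm_num
  have hs : ∑' j, m (hoA_B A (hoA_E U (F j)) ((1 / 2) ^ j)) ≠ ⊤ := by
    refine ne_top_of_le_ne_top ?_ (ENNReal.tsum_le_tsum hB)
    have h1 : Summable fun j : ℕ => (1 / 4 : ℝ) ^ j :=
      summable_geometric_of_lt_one (by norm_num) (by norm_num)
    exact h1.tsum_ofReal_ne_top
  have hΩ : MeasurableSet {y | ∀ᶠ j in atTop,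
      y ∉ hoA_B A (hoA_E U (F j)) ((1 / 2) ^ j)} := by
    have h1 := MeasurableSet.measurableSet_liminf (s := fun j =>
      (hoA_B A (hoA_E U (F j)) ((1 / 2) ^ j))ᶜ) fun j => (hoA_B_meas A (hEm j) _).compl
    have h2 : liminf (fun j => (hoA_B A (hoA_E U (F j)) ((1 / 2) ^ j))ᶜ) atTop =
        {y | ∀ᶠ j in atTop, y ∉ hoA_B A (hoA_E U (F j)) ((1 / 2) ^ j)} := by
      ext y
      rw [mem_liminf_iff_eventually_mem]
      rfl
    rwa [h2] at h1
  refine ⟨_, hΩ, ae_eventually_notMem hs, fun x hx x' hx' has => ?_⟩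
  rw [Metric.tendsto_atTop]
  intro ε hε
  have hj : ∀ᶠ j : ℕ in atTop, (1 / 2 : ℝ) ^ j < ε / 6 :=
    (tendsto_pow_atTop_nhds_zero_of_lt_one (by norm_num) (by norm_num)).eventually_lt_const
      (by positivity)
  obtain ⟨j, hj1, hj2, hj3⟩ := (hj.and (hx.and hx')).exists
  have hη : (0 : ℝ) < (1 / 2) ^ j := by positivity
  have hk : ∀ᶠ k : ℕ in atTop,
      |F j (A.act x (aa (-(k : ℝ)))) - F j (A.act x' (aa (-(k : ℝ))))| < (1 / 2) ^ j := by
    have h6 := (has (F j)).abs
    rw [abs_zero] at h6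
    exact h6.eventually_lt_const hη
  obtain ⟨k₀, hk₀⟩ := eventually_atTop.1 hk
  have hsum := hoA_sum A h01 (hoA_E U (F j)) hη (x := x) (x' := x') (k₀ := k₀)
    (fun k hk1 => hoA_pt (F j) hη.le _ _ (hk₀ k hk1).le) hj2 hj3
  have hn : ∀ᶠ n : ℕ in atTop, (k₀ : ℝ) / n < ε / 2 :=
    (tendsto_const_div_atTop_nhds_zero_nat (k₀ : ℝ)).eventually_lt_const (by positivity)
  obtain ⟨n₀, hn₀⟩ := eventually_atTop.1 hn
  refine ⟨n₀ + 1, fun n hn1 => ?_⟩
  have h7 := hsum n (by omega)
  have h8 := hn₀ n (by omega)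
  have h9 : 0 ≤ mdif A U x x' n := by
    unfold mdif
    positivity
  rw [Real.dist_eq, sub_zero, abs_of_nonneg h9]
  linarith

end Pool.Agent.MP27775c.SR
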