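import Pool.Agent.Lib.MP_27775c_an_SR.HoA

/-!
# MP_27775c_an, project SR, module HoA2: the set X3 is null
-/

set_option autoImplicit false

open MeasureTheory Set Filter Topology
open scoped Manifold ContDiff UpperHalfPlane

namespace Pool.Agent.MP27775c.SR

open Pool.Agent.MP27775c.DO

variable {Y : Type*} [TopologicalSpace Y] [PolishSpace Y] [MeasurableSpace Y] [BorelSpace Y]
  (A : RAct Y)

/-- Proof. `exists_U` gives `U`, `exists_OmG` gives `Ω`. `X3 A Ω U` is measurable, invariant under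
the triangular group (`X3_meas`, `X3_nn`, `X3_aa`), so `m (X3) = 0` or `m (X3ᶜ) = 0` (`IsPErg`); the
second is impossible by `const_of_X3`. As in the proof of `exists_X0S` in `DO/XC.lean`;
`OmP_full`. -/
theorem exists_X0G {m : Measure Y} [IsProbabilityMeasure m] (h : IsPInv A m) (he : IsPErg A m)
    (hn : ¬ IsNErg A m) : ∃ (Ω : Set Y) (U : Y → ℝ), MeasurableSet Ω ∧ Measurable U ∧
      (∀ y s, U (A.act y (nn s)) = U y) ∧
      (∀ x ∈ Ω, ∀ x' ∈ Ω, (∀ F : BoundedContinuousFunction Y ℝ, Tendsto (fun k : ℕ =>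
        F (A.act x (aa (-(k : ℝ)))) - F (A.act x' (aa (-(k : ℝ))))) atTop (𝓝 0)) →
        Tendsto (mdif A U x x') atTop (𝓝 0)) ∧
      m (OmP A Ω)ᶜ = 0 ∧ m (X3 A Ω U) = 0 := by
  obtain ⟨U, hU, h01, hinv, hnc⟩ := exists_U A h.1 hn
  obtain ⟨Ω, hΩ, h0, hH⟩ := exists_OmG A h.2 hU h01
  have hm3 : MeasurableSet (X3 A Ω U) := X3_meas A hΩ hU
  have hi1 : ∀ s, AInv A m (X3 A Ω U) (nn s) := by
    intro s
    have h1 : (fun y => A.act y (nn s)) ⁻¹' (X3 A Ω U) = X3 A Ω U := by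
      ext x
      exact X3_nn A hΩ hinv x s
    rw [AInv, h1, symmDiff_self]
    exact measure_empty
  have hi2 : ∀ t, AInv A m (X3 A Ω U) (aa t) := by
    intro t
    have h1 : (fun y => A.act y (aa t)) ⁻¹' (X3 A Ω U) = X3 A Ω U := by
      ext x
      exact X3_aa A hΩ x t
    rw [AInv, h1, symmDiff_self]
    exact measure_empty
  have h3 : m (X3 A Ω U) = 0 := by
    rcases he _ hm3 hi1 hi2 with h3 | h3
    · exact h3
    · exact (hnc (const_of_X3 A h he hΩ hU h01 hinv h3)).elim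
  exact ⟨Ω, U, hΩ, hU, hinv, hH, OmP_full A h hΩ h0, h3⟩

end Pool.Agent.MP27775c.SR
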