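import Pool.Agent.Lib.MP_27775c_an_SR.Bas

/-!
# MP_27775c_an, project SR, module HoB: time shifts form a group
-/

set_option autoImplicit false

open MeasureTheory Set Filter Topology
open scoped Manifold ContDiff UpperHalfPlane

namespace Pool.Agent.MP27775c.SR

private theorem HoB_shift {P : ℝ → Prop} (h : ∀ᵐ t : ℝ, P t) (δ : ℝ) : ∀ᵐ t : ℝ, P (t + δ) :=
  (measurePreserving_add_right volume δ).quasiMeasurePreserving.ae h

/-- The preimage of a null set under `x ↦ -log ((a - c x) ^ 2) - δ` is null. -/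
private theorem HoB_null {D : Set ℝ} (hD : volume D = 0) {a c : ℝ} (hc : c ≠ 0) (δ : ℝ) :
    volume {x : ℝ | -Real.log ((a - c * x) ^ 2) - δ ∈ D} = 0 := by
  have h1 : {x : ℝ | -Real.log ((a - c * x) ^ 2) - δ ∈ D} ⊆ {a / c} ∪
      ((fun v : ℝ => (a - Real.exp (-(v + δ) / 2)) / c) '' D ∪
        (fun v : ℝ => (a + Real.exp (-(v + δ) / 2)) / c) '' D) := by
    intro x hx
    rcases eq_or_ne (a - c * x) 0 with h2 | h2
    · left
      rw [mem_singleton_iff, eq_div_iff hc]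
      linarith
    · right
      have h3 : Real.exp (-((-Real.log ((a - c * x) ^ 2) - δ) + δ) / 2) = |a - c * x| := by
        have h4 : -((-Real.log ((a - c * x) ^ 2) - δ) + δ) / 2 = Real.log |a - c * x| := by
          rw [← sq_abs (a - c * x), Real.log_pow]
          push_cast
          ring
        rw [h4, Real.exp_log (abs_pos.2 h2)]
      rcases lt_or_gt_of_ne h2 with h5 | h5
      · right
        refine ⟨_, hx, ?_⟩
        show (a + Real.exp (-((-Real.log ((a - c * x) ^ 2) - δ) + δ) / 2)) / c = x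
        rw [h3, abs_of_neg h5, div_eq_iff hc]
        ring
      · left
        refine ⟨_, hx, ?_⟩
        show (a - Real.exp (-((-Real.log ((a - c * x) ^ 2) - δ) + δ) / 2)) / c = x
        rw [h3, abs_of_pos h5, div_eq_iff hc]
        ring
  refine measure_mono_null h1 ?_
  rw [measure_union_null_iff, measure_union_null_iff]
  refine ⟨Real.volume_singleton, ?_, ?_⟩
  · refine addHaar_image_eq_zero_of_differentiableOn_of_addHaar_eq_zero volume ?_ hD
    intro v _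
    apply DifferentiableAt.differentiableWithinAt
    fun_prop
  · refine addHaar_image_eq_zero_of_differentiableOn_of_addHaar_eq_zero volume ?_ hD
    intro v _
    apply DifferentiableAt.differentiableWithinAt
    fun_prop

/-- Proof. `S* = {x | ∀ᵐ t, (t, t - log ((a - c * x) ^ 2)) ∈ E}` is measurable
(`measurable_measure_prodMk_left`), and by Fubini almost every point of `S` is in `S*`, so `S*` has
positive measure. Write `γ x = -log ((a - c * x) ^ 2)`. For `x₁, x₂ ∈ S*`, `h1` gives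
`(t + γ x₁, t + γ x₂) ∈ Q` for almost every `t`. Let `D = {δ | ∀ᵐ r, (r + δ, r) ∈ Q}`, measurable;
by `hsym`, `htr` and translations it is closed under negatives and sums. `γ x₁ - γ x₂ ∈ D` for
`x₁, x₂ ∈ S*`. Fix `x₂ ∈ S*`. If `D` were a null set then `{x | γ x - γ x₂ ∈ D} ⊇ S*` would be a
null set, because the preimage of a null set under `γ` is null (`γ` is smooth with derivative
`2 c / (a - c x) ≠ 0` on the two half lines `a - c x ≠ 0`, it has smooth inverses there,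
`x = (a ∓ exp (-γ / 2)) / c`, and smooth maps send null sets to null sets:
`MeasureTheory.addHaar_image_eq_zero_of_differentiableOn_of_addHaar_eq_zero`). So `D` has positive
measure, `D - D ⊆ D` is a neighbourhood of zero (Steinhaus:
`MeasureTheory.Measure.sub_mem_nhds_zero_of_addHaar_pos`), so `D` is everything, and by Fubini
(shear `(r, δ) ↦ (r + δ, r)`) almost every `q` is in `Q`. -/
theorem stein {E Q : Set (ℝ × ℝ)} (hE : MeasurableSet E) (hQ : MeasurableSet Q)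
    (h1 : ∀ t r₁ r₂ : ℝ, (t, r₁) ∈ E → (t, r₂) ∈ E → (r₁, r₂) ∈ Q)
    (hsym : ∀ r₁ r₂ : ℝ, (r₁, r₂) ∈ Q → (r₂, r₁) ∈ Q)
    (htr : ∀ r₁ r₂ r₃ : ℝ, (r₁, r₂) ∈ Q → (r₂, r₃) ∈ Q → (r₁, r₃) ∈ Q)
    {a c : ℝ} (hc : c ≠ 0) {S : Set ℝ} (hS : volume S ≠ 0)
    (hs : ∀ᵐ q : ℝ × ℝ, q.1 ∈ S → (q.2, q.2 - Real.log ((a - c * q.1) ^ 2)) ∈ E) :
    ∀ᵐ q : ℝ × ℝ, q ∈ Q := by
  have hmT : MeasurableSet {q : ℝ × ℝ | (q.2 + q.1, q.2) ∈ Q} := by
    have h2 : Measurable fun q : ℝ × ℝ => (q.2 + q.1, q.2) := by fun_prop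
    exact h2 hQ
  set D : Set ℝ := {δ : ℝ | ∀ᵐ r : ℝ, (r + δ, r) ∈ Q} with hDdef
  have hmD : MeasurableSet D := by
    have h2 : Measurable fun δ : ℝ => volume (Prod.mk δ ⁻¹' {q : ℝ × ℝ | (q.2 + q.1, q.2) ∈ Q}ᶜ) :=
      measurable_measure_prodMk_left hmT.compl
    have h3 : D = {δ : ℝ | volume (Prod.mk δ ⁻¹' {q : ℝ × ℝ | (q.2 + q.1, q.2) ∈ Q}ᶜ) = 0} := by
      ext δ
      exact Iff.rfl
    rw [h3]
    exact h2 (measurableSet_singleton 0)
  have hneg : ∀ δ ∈ D, -δ ∈ D := by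
    intro δ hδ
    have h2 := HoB_shift hδ (-δ)
    filter_upwards [h2] with r hr
    have h3 := hsym _ _ hr
    rwa [neg_add_cancel_right] at h3
  have hadd : ∀ δ₁ ∈ D, ∀ δ₂ ∈ D, δ₁ + δ₂ ∈ D := by
    intro δ₁ hδ₁ δ₂ hδ₂
    have h2 := HoB_shift hδ₁ δ₂
    have h0 : ∀ᵐ r : ℝ, (r + δ₂, r) ∈ Q := hδ₂
    show ∀ᵐ r : ℝ, (r + (δ₁ + δ₂), r) ∈ Q
    filter_upwards [h2, h0] with r hr hr2
    have h3 := htr _ _ _ hr hr2
    have h4 : r + (δ₁ + δ₂) = r + δ₂ + δ₁ := by ring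
    rwa [h4]
  -- the set `S*`
  obtain ⟨T, hT, hTpos⟩ : ∃ T : Set ℝ, (∀ x ∈ T, ∀ᵐ t : ℝ,
      (t, t - Real.log ((a - c * x) ^ 2)) ∈ E) ∧ volume T ≠ 0 := by
    refine ⟨{x | ∀ᵐ t : ℝ, (t, t - Real.log ((a - c * x) ^ 2)) ∈ E}, fun x hx => hx, ?_⟩
    intro h0
    apply hS
    have h2 : ∀ᵐ x : ℝ, ∀ᵐ t : ℝ, x ∈ S → (t, t - Real.log ((a - c * x) ^ 2)) ∈ E :=
      Measure.ae_ae_of_ae_prod hs
    have h3 : ∀ᵐ x : ℝ, x ∉ {x | ∀ᵐ t : ℝ, (t, t - Real.log ((a - c * x) ^ 2)) ∈ E} :=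
      measure_eq_zero_iff_ae_notMem.1 h0
    rw [measure_eq_zero_iff_ae_notMem]
    filter_upwards [h2, h3] with x hx hx3 hxS
    exact hx3 (hx.mono fun t ht => ht hxS)
  have hdiff : ∀ x₁ ∈ T, ∀ x₂ ∈ T,
      -Real.log ((a - c * x₁) ^ 2) - -Real.log ((a - c * x₂) ^ 2) ∈ D := by
    intro x₁ hx₁ x₂ hx₂
    have h2 : ∀ᵐ t : ℝ, (t - Real.log ((a - c * x₁) ^ 2), t - Real.log ((a - c * x₂) ^ 2)) ∈ Q := by
      filter_upwards [hT x₁ hx₁, hT x₂ hx₂] with t ht1 ht2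
      exact h1 _ _ _ ht1 ht2
    have h3 := HoB_shift h2 (Real.log ((a - c * x₂) ^ 2))
    filter_upwards [h3] with r hr
    have h4 : r + (-Real.log ((a - c * x₁) ^ 2) - -Real.log ((a - c * x₂) ^ 2)) =
        r + Real.log ((a - c * x₂) ^ 2) - Real.log ((a - c * x₁) ^ 2) := by ring
    rw [add_sub_cancel_right] at hr
    rwa [h4]
  obtain ⟨x₂, hx₂⟩ : T.Nonempty := by
    rw [nonempty_iff_ne_empty]
    intro h2
    exact hTpos (by rw [h2, measure_empty])
  have hDpos : volume D ≠ 0 := by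
    intro h2
    apply hTpos
    refine measure_mono_null (fun x hx => ?_)
      (HoB_null h2 (a := a) hc (-Real.log ((a - c * x₂) ^ 2)))
    exact hdiff x hx x₂ hx₂
  have hnhd : D ∈ 𝓝 (0 : ℝ) := by
    have h2 := Measure.sub_mem_nhds_zero_of_addHaar_pos volume D hmD
      (pos_iff_ne_zero.2 hDpos)
    refine mem_of_superset h2 ?_
    rintro _ ⟨δ₁, h3, δ₂, h4, rfl⟩
    show δ₁ - δ₂ ∈ D
    rw [sub_eq_add_neg]
    exact hadd _ h3 _ (hneg _ h4)
  have hzero : (0 : ℝ) ∈ D := mem_of_mem_nhds hnhd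
  have huniv : ∀ δ : ℝ, δ ∈ D := by
    intro δ
    have hmul : ∀ (n : ℕ) (ε : ℝ), ε ∈ D → (n : ℝ) * ε ∈ D := by
      intro n ε hε
      induction n with
      | zero => simpa using hzero
      | succ n ih =>
        have h2 := hadd _ ih _ hε
        have h3 : ((n + 1 : ℕ) : ℝ) * ε = (n : ℝ) * ε + ε := by
          push_cast
          ring
        rwa [h3]
    have hlim : Tendsto (fun n : ℕ => δ / (n : ℝ)) atTop (𝓝 0) :=
      tendsto_const_div_atTop_nhds_zero_nat δ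
    obtain ⟨n, hn, hn1⟩ := ((hlim.eventually hnhd).and (eventually_ge_atTop 1)).exists
    have h2 := hmul n _ hn
    have h3 : (n : ℝ) ≠ 0 := by
      have h4 : (1 : ℝ) ≤ n := by exact_mod_cast hn1
      linarith
    rwa [mul_div_cancel₀ _ h3] at h2
  have hT2 : ∀ᵐ q : ℝ × ℝ, q ∈ {q : ℝ × ℝ | (q.2 + q.1, q.2) ∈ Q} :=
    (Measure.ae_prod_mem_iff_ae_ae_mem hmT).2 (ae_of_all _ fun δ => huniv δ)
  have hmp : MeasurePreserving (fun z : ℝ × ℝ => (z.1 - z.2, z.2)) (volume.prod volume)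
      (volume.prod volume) := measurePreserving_sub_prod volume volume
  have h5 := hmp.quasiMeasurePreserving.ae hT2
  filter_upwards [h5] with q hq
  have h6 : q = (q.2 + (q.1 - q.2), q.2) := by
    ext
    · simp
    · rfl
  rw [h6]
  exact hq

end Pool.Agent.MP27775c.SR
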