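import Pool.Agent.Lib.MP_27775c_an_SR.HoA2
import Pool.Agent.Lib.MP_27775c_an_SR.HoB

/-!
# MP_27775c_an, project SR, module HoC: asymptotic orbits with a shift of time
-/

set_option autoImplicit false

open MeasureTheory Set Filter Topology
open scoped Manifold ContDiff UpperHalfPlane

namespace Pool.Agent.MP27775c.SR

open Pool.Agent.MP27775c.DO

variable {Y : Type*} [TopologicalSpace Y] [PolishSpace Y] [MeasurableSpace Y] [BorelSpace Y]
  (A : RAct Y)

/-- the value of an invariant function along the backward orbit -/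
private theorem hoc_orb {U : Y → ℝ} (hinv : ∀ y s, U (A.act y (nn s)) = U y) (x : Y)
    (s t k : ℝ) :
    U (A.act (A.act x (nn s * aa t)) (aa (-k))) = U (A.act (A.act x (aa t)) (aa (-k))) := by
  rw [← A.act_mul, ← A.act_mul, mul_assoc, ← aa_add, nn_aa, A.act_mul, hinv]

private theorem hoc_nonneg (U : Y → ℝ) (x y : Y) (n : ℕ) : 0 ≤ mdif A U x y n := by
  unfold mdif
  exact mul_nonneg (by positivity) (Finset.sum_nonneg fun _ _ => abs_nonneg _)

private theorem hoc_comm (U : Y → ℝ) (x y : Y) (n : ℕ) : mdif A U x y n = mdif A U y x n := by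
  unfold mdif
  congr 1
  exact Finset.sum_congr rfl fun k _ => abs_sub_comm _ _

private theorem hoc_tri (U : Y → ℝ) (x y z : Y) (n : ℕ) :
    mdif A U x y n ≤ mdif A U x z n + mdif A U z y n := by
  unfold mdif
  rw [← mul_add, ← Finset.sum_add_distrib]
  refine mul_le_mul_of_nonneg_left (Finset.sum_le_sum fun k _ => ?_) (by positivity)
  exact abs_sub_le _ _ _

/-- Proof. As `pair_md` in `DO/PaC.lean` (copy the private `inv_orb`). For almost every
`q = (x, t)`: `x₁ = ray A y x t ∈ Ω` (definition of `OmP`) and, by `nonsing g hc`,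
`x₂ = ray A y' (b x) (t - log ..) ∈ Ω`. If `x ∈ S`, the hypothesis `hS` along `s = t - k` and
`ray_add` show that `x₁` and `x₂` are asymptotic, so `mdif A U x₁ x₂ → 0` by `hH`; by the invariance
of `U` under `nn` this is `md2 A U y y' (t, t - log ..)`. -/
theorem asy_md {Ω : Set Y} (hΩ : MeasurableSet Ω) {U : Y → ℝ} (hU : Measurable U)
    (hinv : ∀ y s, U (A.act y (nn s)) = U y)
    (hH : ∀ x ∈ Ω, ∀ x' ∈ Ω, (∀ F : BoundedContinuousFunction Y ℝ, Tendsto (fun k : ℕ =>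
      F (A.act x (aa (-(k : ℝ)))) - F (A.act x' (aa (-(k : ℝ))))) atTop (𝓝 0)) →
      Tendsto (mdif A U x x') atTop (𝓝 0))
    {y y' : Y} (hy : y ∈ OmP A Ω) (hy' : y' ∈ OmP A Ω) {g : G} (hc : g 1 0 ≠ 0) {S : Set ℝ}
    (hS : ∀ x ∈ S, ∀ F : BoundedContinuousFunction Y ℝ, Tendsto (fun s : ℝ =>
      F (ray A y x s) - F (ray A y' ((g 1 1 * x - g 0 1) / (g 0 0 - g 1 0 * x))
        (s - Real.log ((g 0 0 - g 1 0 * x) ^ 2)))) atBot (𝓝 0)) :
    ∀ᵐ q : ℝ × ℝ, q.1 ∈ S →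
      Tendsto (md2 A U y y' (q.2, q.2 - Real.log ((g 0 0 - g 1 0 * q.1) ^ 2))) atTop (𝓝 0) := by
  have h1 : ∀ᵐ q : ℝ × ℝ, A.act y (nn q.1 * aa q.2) ∈ Ω := hy
  have h2 : ∀ᵐ q : ℝ × ℝ, A.act y' (nn q.1 * aa q.2) ∈ Ω := hy'
  have h3 := nonsing g hc h2
  filter_upwards [h1, h3] with q hq1 hq2 hq3
  set s' := (g 1 1 * q.1 - g 0 1) / (g 0 0 - g 1 0 * q.1) with hs'
  set t' := q.2 - Real.log ((g 0 0 - g 1 0 * q.1) ^ 2) with ht'
  have hat : Tendsto (fun k : ℕ => q.2 + -(k : ℝ)) atTop atBot :=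
    tendsto_atBot_add_const_left _ _ (tendsto_neg_atTop_atBot.comp tendsto_natCast_atTop_atTop)
  have h6 := hH _ hq1 _ hq2 (fun F => by
    have h4 := (hS q.1 hq3 F).comp hat
    refine h4.congr fun k => ?_
    have h5 : A.act (A.act y (nn q.1 * aa q.2)) (aa (-(k : ℝ))) =
        ray A y q.1 (q.2 + -(k : ℝ)) := (ray_add A y q.1 q.2 (-(k : ℝ))).symm
    have h7 : A.act (A.act y' (nn s' * aa t')) (aa (-(k : ℝ))) =
        ray A y' s' (q.2 + -(k : ℝ) - Real.log ((g 0 0 - g 1 0 * q.1) ^ 2)) := by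
      have h8 := (ray_add A y' s' t' (-(k : ℝ))).symm
      have h9 : q.2 + -(k : ℝ) - Real.log ((g 0 0 - g 1 0 * q.1) ^ 2) = t' + -(k : ℝ) := by
        rw [ht']
        ring
      rw [h9]
      exact h8
    rw [h5, h7]
    rfl)
  have h7 : md2 A U y y' (q.2, t') =
      mdif A U (A.act y (nn q.1 * aa q.2)) (A.act y' (nn s' * aa t')) := by
    funext n
    unfold md2 mdif
    congr 1
    refine Finset.sum_congr rfl fun k _ => ?_
    rw [hoc_orb A hinv, hoc_orb A hinv]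
  rw [h7]
  exact h6

/-- Proof. `asy_md` and `stein` with `E = {q | md2 A U y y' q → 0}`,
`Q = {q | md2 A U y' y' q → 0}` (`md2_meas`), `a = g 0 0`, `c = g 1 0`; the triangle inequality for
`mdif` gives `h1`, `hsym`, `htr`. -/
theorem x3_of_asy {Ω : Set Y} (hΩ : MeasurableSet Ω) {U : Y → ℝ} (hU : Measurable U)
    (hinv : ∀ y s, U (A.act y (nn s)) = U y)
    (hH : ∀ x ∈ Ω, ∀ x' ∈ Ω, (∀ F : BoundedContinuousFunction Y ℝ, Tendsto (fun k : ℕ =>
      F (A.act x (aa (-(k : ℝ)))) - F (A.act x' (aa (-(k : ℝ))))) atTop (𝓝 0)) →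
      Tendsto (mdif A U x x') atTop (𝓝 0))
    {y y' : Y} (hy : y ∈ OmP A Ω) (hy' : y' ∈ OmP A Ω) {g : G} (hc : g 1 0 ≠ 0) {S : Set ℝ}
    (hS0 : volume S ≠ 0)
    (hS : ∀ x ∈ S, ∀ F : BoundedContinuousFunction Y ℝ, Tendsto (fun s : ℝ =>
      F (ray A y x s) - F (ray A y' ((g 1 1 * x - g 0 1) / (g 0 0 - g 1 0 * x))
        (s - Real.log ((g 0 0 - g 1 0 * x) ^ 2)))) atBot (𝓝 0)) :
    y' ∈ X3 A Ω U := by
  refine ⟨hy', ?_⟩
  refine stein (E := {q : ℝ × ℝ | Tendsto (md2 A U y y' q) atTop (𝓝 0)})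
    (Q := {q : ℝ × ℝ | Tendsto (md2 A U y' y' q) atTop (𝓝 0)})
    (md2_meas A hU y y') (md2_meas A hU y' y') ?_ ?_ ?_ hc hS0
    (asy_md A hΩ hU hinv hH hy hy' hc hS)
  · intro t r₁ r₂ h1 h2
    have h3 : Tendsto (fun n => md2 A U y y' (t, r₁) n + md2 A U y y' (t, r₂) n) atTop (𝓝 0) := by
      have h4 := Tendsto.add h1 h2
      rw [add_zero] at h4
      exact h4
    refine squeeze_zero (fun n => hoc_nonneg A U _ _ n) (fun n => ?_) h3
    have h5 := hoc_tri A U (A.act y' (aa r₁)) (A.act y' (aa r₂)) (A.act y (aa t)) n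
    rw [hoc_comm A U (A.act y' (aa r₁)) (A.act y (aa t))] at h5
    exact h5
  · intro r₁ r₂ h1
    refine Tendsto.congr (fun n => ?_) h1
    exact hoc_comm A U (A.act y' (aa r₁)) (A.act y' (aa r₂)) n
  · intro r₁ r₂ r₃ h1 h2
    have h3 : Tendsto (fun n => md2 A U y' y' (r₁, r₂) n + md2 A U y' y' (r₂, r₃) n) atTop
        (𝓝 0) := by
      have h4 := Tendsto.add h1 h2
      rw [add_zero] at h4
      exact h4
    refine squeeze_zero (fun n => hoc_nonneg A U _ _ n) (fun n => ?_) h3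
    exact hoc_tri A U (A.act y' (aa r₁)) (A.act y' (aa r₃)) (A.act y' (aa r₂)) n

end Pool.Agent.MP27775c.SR
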