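import Pool.Agent.Lib.MP_27775c_an_SR.ShA
import Pool.Agent.Lib.MP_27775c_an_SR.UnA

/-!
# MP_27775c_an, project SR, module HoD: asymptotic rays
-/

set_option autoImplicit false

open MeasureTheory Set Filter Topology
open scoped Manifold ContDiff UpperHalfPlane

namespace Pool.Agent.MP27775c.SR

open Pool.Agent.MP27775c.DO

variable {Y : Type*} [TopologicalSpace Y] [PolishSpace Y] [MeasurableSpace Y] [BorelSpace Y]
  (A : RAct Y)

/-- Proof. Every bounded continuous `F` gives a `Setup A X F e`. By `exists_V` for `η` there are `V`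
and `T`; for `s` near `-∞` the pairs at `s + t`, `|t| ≤ T`, are in `V` (`ray_add`), so
`|F (ray A y x s) - F (ray A y₂ x s)| ≤ η`. As in `fclose_act` (`MoB.lean`): by `pair_eq` for `g`,
`A.act (ray A y₂ x s) (oo u) = ray A (A.act y₂ g) (b x) (s - log ..)` with
`u = exp s * g 1 0 / (g 0 0 - g 1 0 * x) → 0`, and `unif_path` for `oo` on `X`. -/
theorem asy_rays {X : Set Y} (hX : IsCompact X) (hi : ∀ y ∈ X, ∀ g : G, A.act y g ∈ X)
    {M : Type*} [TopologicalSpace M] [CompactSpace M] [T2Space M] {e : Y → M} (he : Continuous e)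
    (hsep : ∀ z ∈ X, ∀ z' ∈ X, (∀ t : ℝ, e (A.act z (aa t)) = e (A.act z' (aa t))) → z = z')
    {y y₂ : Y} (hy : y ∈ X) (hy₂ : y₂ ∈ X) {x : ℝ}
    (h : ∀ V ∈ 𝓝ˢ (diagonal M), ∀ᶠ s in atBot, (e (ray A y x s), e (ray A y₂ x s)) ∈ V) (g : G)
    (hg : g 0 0 - g 1 0 * x ≠ 0) (F : BoundedContinuousFunction Y ℝ) :
    Tendsto (fun s : ℝ => F (ray A y x s) -
      F (ray A (A.act y₂ g) ((g 1 1 * x - g 0 1) / (g 0 0 - g 1 0 * x))
        (s - Real.log ((g 0 0 - g 1 0 * x) ^ 2)))) atBot (𝓝 0) := by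
  have hS : Setup A X (fun y => F y) e :=
    { comp := hX
      inv := hi
      measF := F.continuous.measurable
      contF := F.continuous.continuousOn
      bddF := ⟨‖F‖, fun y => F.norm_coe_le_norm y⟩
      conte := he
      sep := hsep }
  rw [Metric.tendsto_nhds]
  intro ε hε
  have hη : 0 < ε / 3 := by positivity
  obtain ⟨V, hV, T, hVT⟩ := exists_V A hS hη
  obtain ⟨δ, hδ, hu⟩ := unif_path A hS.comp hS.inv hS.contF continuous_oo oo_zero hη
  have ht : Tendsto (fun s : ℝ => Real.exp s * g 1 0 / (g 0 0 - g 1 0 * x)) atBot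
      (𝓝 0) := by
    have h1 := (Real.tendsto_exp_atBot.mul_const (g 1 0)).div_const (g 0 0 - g 1 0 * x)
    rwa [zero_mul, zero_div] at h1
  have ht2 := ht.abs
  rw [abs_zero] at ht2
  obtain ⟨s₀, hs₀⟩ := eventually_atBot.mp (h V hV)
  filter_upwards [eventually_le_atBot (s₀ - |T|), ht2.eventually (gt_mem_nhds hδ)] with s hs hs2
  have h1 : |F (ray A y x s) - F (ray A y₂ x s)| ≤ ε / 3 := by
    refine hVT _ (hS.inv y hy _) _ (hS.inv y₂ hy₂ _) fun t ht => ?_
    have h1 : s + t ≤ s₀ := by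
      have h2 := le_abs_self t
      have h3 := le_abs_self T
      linarith
    have h4 := hs₀ (s + t) h1
    rw [ray_add, ray_add] at h4
    exact h4
  have h2 := hu (ray A y₂ x s) (hS.inv y₂ hy₂ _) _ (le_of_lt hs2)
  have h3 : A.act (ray A y₂ x s) (oo (Real.exp s * g 1 0 / (g 0 0 - g 1 0 * x))) =
      ray A (A.act y₂ g) ((g 1 1 * x - g 0 1) / (g 0 0 - g 1 0 * x))
        (s - Real.log ((g 0 0 - g 1 0 * x) ^ 2)) := by
    unfold ray
    rw [← A.act_mul]
    have h4 : A.act y₂ (nn x * aa s * oo (Real.exp s * g 1 0 / (g 0 0 - g 1 0 * x))) =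
        A.act y₂ (g * nn ((g 1 1 * x - g 0 1) / (g 0 0 - g 1 0 * x)) *
          aa (s - Real.log ((g 0 0 - g 1 0 * x) ^ 2))) := by
      rcases pair_eq g x s hg with h5 | h5
      · rw [h5]
      · rw [h5, A.act_neg]
    rw [h4, ← A.act_mul, ← mul_assoc]
  rw [h3] at h2
  rw [Real.dist_eq, sub_zero]
  have h6 : F (ray A y x s) - F (ray A (A.act y₂ g) ((g 1 1 * x - g 0 1) / (g 0 0 - g 1 0 * x))
      (s - Real.log ((g 0 0 - g 1 0 * x) ^ 2))) = (F (ray A y x s) - F (ray A y₂ x s)) -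
      (F (ray A (A.act y₂ g) ((g 1 1 * x - g 0 1) / (g 0 0 - g 1 0 * x))
      (s - Real.log ((g 0 0 - g 1 0 * x) ^ 2))) - F (ray A y₂ x s)) := by ring
  rw [h6]
  refine (abs_sub _ _).trans_lt ?_
  linarith

end Pool.Agent.MP27775c.SR
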