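import Pool.Agent.Lib.MP_27775c_an_SR.DefC

/-!
# MP_27775c_an, project SR, module HoE: uniqueness of the representation
-/

set_option autoImplicit false

open MeasureTheory Set Filter Topology
open scoped Manifold ContDiff UpperHalfPlane

namespace Pool.Agent.MP27775c.SR

open Pool.Agent.MP27775c.DO

variable {M : Type*} {Z : Type*}

private theorem hoE_coe (u τ : ℝ) (z : ℍ) :
    (((nn u * aa τ) • z : ℍ) : ℂ) = ((Real.exp τ : ℝ) : ℂ) * z + (u : ℂ) := by
  have h0 : (((nn u * aa τ) • z : ℍ) : ℂ) =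
      ((((nn u * aa τ : G) 0 0 : ℝ) : ℂ) * z + (((nn u * aa τ : G) 0 1 : ℝ) : ℂ)) /
        ((((nn u * aa τ : G) 1 0 : ℝ) : ℂ) * z + (((nn u * aa τ : G) 1 1 : ℝ) : ℂ)) :=
    UpperHalfPlane.coe_specialLinearGroup_apply _ z
  rw [h0]
  have hm : ((nn u * aa τ : G) : Matrix (Fin 2) (Fin 2) ℝ) =
      (nn u : Matrix (Fin 2) (Fin 2) ℝ) * (aa τ : Matrix (Fin 2) (Fin 2) ℝ) :=
    Matrix.SpecialLinearGroup.coe_mul _ _
  have e00 : ((nn u * aa τ : G) : Matrix (Fin 2) (Fin 2) ℝ) 0 0 = Real.exp (τ / 2) := by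
    rw [hm]
    simp [nn, aa, Matrix.mul_apply, Fin.sum_univ_two]
  have e01 : ((nn u * aa τ : G) : Matrix (Fin 2) (Fin 2) ℝ) 0 1 = u * Real.exp (-(τ / 2)) := by
    rw [hm]
    simp [nn, aa, Matrix.mul_apply, Fin.sum_univ_two]
  have e10 : ((nn u * aa τ : G) : Matrix (Fin 2) (Fin 2) ℝ) 1 0 = 0 := by
    rw [hm]
    simp [nn, aa, Matrix.mul_apply, Fin.sum_univ_two]
  have e11 : ((nn u * aa τ : G) : Matrix (Fin 2) (Fin 2) ℝ) 1 1 = Real.exp (-(τ / 2)) := by
    rw [hm]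
    simp [nn, aa, Matrix.mul_apply, Fin.sum_univ_two]
  have e2 : Real.exp τ = Real.exp (τ / 2) * Real.exp (τ / 2) := by
    rw [← Real.exp_add, add_halves]
  rw [e00, e01, e10, e11, e2, Real.exp_neg]
  have hE0 : ((Real.exp (τ / 2) : ℝ) : ℂ) ≠ 0 := by exact_mod_cast (Real.exp_pos _).ne'
  set E : ℝ := Real.exp (τ / 2) with hE
  push_cast
  field_simp
  ring

private theorem hoE_re (u τ : ℝ) (z : ℍ) :
    ((nn u * aa τ) • z : ℍ).re = Real.exp τ * z.re + u := by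
  have h := congrArg Complex.re (hoE_coe u τ z)
  simpa only [Complex.add_re, Complex.re_ofReal_mul, Complex.ofReal_re, UpperHalfPlane.coe_re]
    using h

private theorem hoE_im (u τ : ℝ) (z : ℍ) :
    ((nn u * aa τ) • z : ℍ).im = Real.exp τ * z.im := by
  have h := congrArg Complex.im (hoE_coe u τ z)
  simpa only [Complex.add_im, Complex.im_ofReal_mul, Complex.ofReal_im, UpperHalfPlane.coe_im,
    add_zero] using h

/-- Proof. Let `k = a_τ n_u`-like: if `z = i r` with large `r` then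
`dist z ((aa τ * nn u) • z)` and `dist z ((nn u * aa τ) • z)` tend to `|τ|` for `r → ∞`
(`UpperHalfPlane.dist_eq` or the scaling by `aa (log r)`: `nn u * aa τ * aa (log r) =
aa (log r) * nn (u / r) * aa τ`). -/
theorem small_move (u τ : ℝ) {δ : ℝ} (hδ : |τ| < δ) :
    ∃ z : ℍ, dist z ((nn u * aa τ) • z) < δ := by
  have hd : 0 < δ - |τ| := sub_pos.2 hδ
  set Y : ℝ := |u| / (δ - |τ|) + 1 with hY
  have hYp : 0 < Y := by positivity
  have hyp : 0 < Real.exp (-τ) * Y := by positivity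
  let z : ℍ := ⟨⟨0, Real.exp (-τ) * Y⟩, hyp⟩
  let z' : ℍ := ⟨⟨0, Y⟩, hYp⟩
  have hzre : z.re = 0 := rfl
  have hzim : z.im = Real.exp (-τ) * Y := rfl
  have hz're : z'.re = 0 := rfl
  have hz'im : z'.im = Y := rfl
  have hwre : ((nn u * aa τ) • z : ℍ).re = u := by rw [hoE_re, hzre, mul_zero, zero_add]
  have hwim : ((nn u * aa τ) • z : ℍ).im = Y := by
    rw [hoE_im, hzim, ← mul_assoc, ← Real.exp_add, add_neg_cancel, Real.exp_zero, one_mul]
  have h1 : dist z z' = |τ| := by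
    rw [UpperHalfPlane.dist_of_re_eq (hzre.trans hz're.symm), hzim, hz'im, Real.dist_eq,
      Real.log_mul (Real.exp_pos _).ne' hYp.ne', Real.log_exp]
    rw [show -τ + Real.log Y - Real.log Y = -τ by ring, abs_neg]
  have h2 : dist z' ((nn u * aa τ) • z) ≤ |u| / Y := by
    have e := UpperHalfPlane.sinh_half_dist z' ((nn u * aa τ) • z)
    rw [hz'im, hwim, Real.sqrt_mul_self hYp.le] at e
    have e3 : dist (z' : ℂ) (((nn u * aa τ) • z : ℍ) : ℂ) = |u| := by
      rw [Complex.dist_eq]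
      have e4 : (z' : ℂ) - (((nn u * aa τ) • z : ℍ) : ℂ) = ((-u : ℝ) : ℂ) := by
        apply Complex.ext
        · rw [Complex.sub_re, UpperHalfPlane.coe_re, UpperHalfPlane.coe_re, hz're, hwre,
            Complex.ofReal_re, zero_sub]
        · rw [Complex.sub_im, UpperHalfPlane.coe_im, UpperHalfPlane.coe_im, hz'im, hwim,
            Complex.ofReal_im, sub_self]
      rw [e4, Complex.norm_real, Real.norm_eq_abs, abs_neg]
    rw [e3] at e
    have e5 : dist z' ((nn u * aa τ) • z) / 2 ≤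
        Real.sinh (dist z' ((nn u * aa τ) • z) / 2) :=
      Real.self_le_sinh_iff.2 (div_nonneg dist_nonneg zero_le_two)
    rw [e] at e5
    have e6 : |u| / (2 * Y) = (|u| / Y) / 2 := by rw [div_div, mul_comm]
    linarith [e5, e6]
  have h3 : |u| / Y < δ - |τ| := by
    rw [div_lt_iff₀ hYp, hY, mul_add, mul_div_cancel₀ _ hd.ne', mul_one]
    linarith
  refine ⟨z, ?_⟩
  calc dist z ((nn u * aa τ) • z) ≤ dist z z' + dist z' ((nn u * aa τ) • z) :=
        dist_triangle _ _ _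
    _ < δ := by rw [h1]; linarith

/-- Proof. `z ↦ e ^ τ z + u` has a fixed point in `ℍ` only if it is the identity (imaginary
parts). -/
theorem no_fix {u τ : ℝ} {z : ℍ} (h : (nn u * aa τ) • z = z) : u = 0 ∧ τ = 0 := by
  have h1 : Real.exp τ * z.im = z.im := by rw [← hoE_im u τ z, h]
  have h2 : Real.exp τ * z.re + u = z.re := by rw [← hoE_re u τ z, h]
  have h3 : Real.exp τ = 1 := mul_right_cancel₀ z.im_ne_zero (by rw [h1, one_mul])
  have h4 : τ = 0 := Real.exp_eq_one_iff τ |>.1 h3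
  refine ⟨?_, h4⟩
  rw [h3, one_mul] at h2
  linarith

/-- Uniqueness of the representation. Proof. Let `δ` be as in `InjP`. Put
`p = aa t' * nn x' * (aa t * nn x)⁻¹ = nn u * aa (t' - t)` with `u = exp t' * (x' - x)` (`aa_nn`).
Substituting `z = (g₀ * aa t * nn x)⁻¹ • ζ`, `P (ζ, v) = P ((g₀ * p * g₀⁻¹) • ζ, v')` for all `ζ`.
By `small_move` there is `ζ = g₀ • z₁` with `dist ζ ((g₀ * p * g₀⁻¹) • ζ) = dist z₁ (p • z₁) < δ`,
so `p • z₁ = z₁` and `v = v'`, and `no_fix` gives `t' = t`, `x' = x`. -/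
theorem rep_unique {P : ℍ × Z → M} {δ : ℝ} (hδ : ∀ (z z' : ℍ) (v v' : Z),
    P (z, v) = P (z', v') → dist z z' < δ → z = z' ∧ v = v') (g₀ : G) {x x' t t' : ℝ} {v v' : Z}
    (ht : |t' - t| < δ)
    (h : ∀ z : ℍ, P ((g₀ * (aa t * nn x)) • z, v) = P ((g₀ * (aa t' * nn x')) • z, v')) :
    x = x' ∧ t = t' ∧ v = v' := by
  set u : ℝ := Real.exp t' * (x' - x) with hu
  have hp : aa t' * nn x' = (nn u * aa (t' - t)) * (aa t * nn x) := by
    have e1 : (nn u * aa (t' - t)) * (aa t * nn x) = nn u * (aa (t' - t) * aa t) * nn x := by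
      simp only [mul_assoc]
    rw [e1, ← aa_add, sub_add_cancel, mul_assoc, aa_nn, aa_nn, ← mul_assoc, ← nn_add, hu]
    congr 2
    ring
  obtain ⟨z₁, hz₁⟩ := small_move u (t' - t) ht
  have h1 := h ((aa t * nn x)⁻¹ • z₁)
  have s1 : (g₀ * (aa t * nn x)) • ((aa t * nn x)⁻¹ • z₁) = g₀ • z₁ := by
    rw [mul_smul g₀ (aa t * nn x), smul_inv_smul]
  have s2 : (g₀ * (aa t' * nn x')) • ((aa t * nn x)⁻¹ • z₁) =
      g₀ • ((nn u * aa (t' - t)) • z₁) := by
    rw [hp, mul_smul g₀, mul_smul (nn u * aa (t' - t)) (aa t * nn x), smul_inv_smul]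
  rw [s1, s2] at h1
  have h2 : dist (g₀ • z₁) (g₀ • ((nn u * aa (t' - t)) • z₁)) < δ := by
    rw [dist_smul]
    exact hz₁
  obtain ⟨h3, h4⟩ := hδ _ _ _ _ h1 h2
  have h5 : (nn u * aa (t' - t)) • z₁ = z₁ := (smul_left_cancel g₀ h3).symm
  obtain ⟨h6, h7⟩ := no_fix h5
  refine ⟨?_, by linarith, h4⟩
  rw [hu] at h6
  rcases mul_eq_zero.1 h6 with h8 | h8
  · exact absurd h8 (Real.exp_pos _).ne'
  · linarith

end Pool.Agent.MP27775c.SR
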