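import Pool.Agent.Lib.MP_27775c_an_SR.HoE

/-!
# MP_27775c_an, project SR, module HoE2: the leaves with a given end are negligible
-/

set_option autoImplicit false

open MeasureTheory Set Filter Topology
open scoped Manifold ContDiff UpperHalfPlane

namespace Pool.Agent.MP27775c.SR

open Pool.Agent.MP27775c.DO

variable {E : Type*} [NormedAddCommGroup E] [NormedSpace ℂ E] [FiniteDimensional ℂ E]
  {M : Type*} [TopologicalSpace M] [ChartedSpace E M]
  [IsManifold 𝓘(ℂ, E) 1 M] [CompactSpace M] [T2Space M] [MeasurableSpace C(ℍ, M)]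
  [BorelSpace C(ℍ, M)] {Z : Type*} [TopologicalSpace Z] [CompactSpace Z]

private theorem hoE2_neg (g : G) (z : ℍ) : (-g) • z = g • z := by
  apply UpperHalfPlane.ext
  rw [UpperHalfPlane.coe_specialLinearGroup_apply, UpperHalfPlane.coe_specialLinearGroup_apply,
    ← neg_div_neg_eq]
  simp
  ring_nf

private theorem hoE2_ext {g h : G} (h00 : g 0 0 = h 0 0) (h01 : g 0 1 = h 0 1)
    (h10 : g 1 0 = h 1 0) (h11 : g 1 1 = h 1 1) : g = h := by
  apply Matrix.SpecialLinearGroup.ext
  intro i j
  fin_cases i <;> fin_cases j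
  · exact h00
  · exact h01
  · exact h10
  · exact h11

private theorem hoE2_pos {p : G} (h : p 1 0 = 0) (h0 : 0 < p 0 0) :
    ∃ t x : ℝ, p = aa t * nn x := by
  have hd : p 0 0 * p 1 1 = 1 := by
    have h1 := p.det_coe
    rw [Matrix.det_fin_two] at h1
    have h2 : (p : Matrix (Fin 2) (Fin 2) ℝ) 1 0 = 0 := h
    rw [h2, mul_zero, sub_zero] at h1
    exact h1
  have he : Real.exp (Real.log (p 0 0)) = p 0 0 := Real.exp_log h0
  refine ⟨2 * Real.log (p 0 0), p 0 1 / p 0 0, ?_⟩
  refine hoE2_ext ?_ ?_ ?_ ?_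
  · simp only [aa, nn, Matrix.SpecialLinearGroup.coe_mul, Matrix.mul_apply, Fin.sum_univ_two]
    simp [he]
  · simp only [aa, nn, Matrix.SpecialLinearGroup.coe_mul, Matrix.mul_apply, Fin.sum_univ_two]
    simp [he]
    field_simp
  · simp only [aa, nn, Matrix.SpecialLinearGroup.coe_mul, Matrix.mul_apply, Fin.sum_univ_two]
    simp [h]
  · simp only [aa, nn, Matrix.SpecialLinearGroup.coe_mul, Matrix.mul_apply, Fin.sum_univ_two]
    simp [Real.exp_neg, he]
    exact (eq_inv_of_mul_eq_one_right hd)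

private theorem hoE2_tri {p : G} (h : p 1 0 = 0) :
    ∃ t x : ℝ, ∀ (g : G) (z : ℍ), (g * p) • z = (g * (aa t * nn x)) • z := by
  have hd : p 0 0 * p 1 1 = 1 := by
    have h1 := p.det_coe
    rw [Matrix.det_fin_two] at h1
    have h2 : (p : Matrix (Fin 2) (Fin 2) ℝ) 1 0 = 0 := h
    rw [h2, mul_zero, sub_zero] at h1
    exact h1
  rcases lt_trichotomy 0 (p 0 0) with h0 | h0 | h0
  · obtain ⟨t, x, hp⟩ := hoE2_pos h h0
    exact ⟨t, x, fun g z => by rw [hp]⟩
  · rw [← h0, zero_mul] at hd
    exact absurd hd zero_ne_one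
  · have h1 : (-p) 1 0 = 0 := by
      rw [Matrix.SpecialLinearGroup.coe_neg, Matrix.neg_apply, h, neg_zero]
    have h2 : 0 < (-p) 0 0 := by
      rw [Matrix.SpecialLinearGroup.coe_neg, Matrix.neg_apply]
      linarith
    obtain ⟨t, x, hp⟩ := hoE2_pos h1 h2
    exact ⟨t, x, fun g z => by rw [← hp, mul_neg, hoE2_neg]⟩

/-- The map which parametrises the leaves with a given end. -/
private noncomputable def hoE2_phi {P : ℍ × Z → M} (hP : Continuous P) (g₀ : G)
    (q : ℝ × ℝ × Z) : C(ℍ, M) :=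
  ⟨fun z => P ((g₀ * (aa q.1 * nn q.2.1)) • z, q.2.2),
    hP.comp ((continuous_const_smul _).prodMk continuous_const)⟩

omit [FiniteDimensional ℂ E] [ChartedSpace E M] [IsManifold 𝓘(ℂ, E) 1 M] [CompactSpace M]
  [T2Space M] [MeasurableSpace C(ℍ, M)] [BorelSpace C(ℍ, M)] [CompactSpace Z] in
private theorem hoE2_cont {P : ℍ × Z → M} (hP : Continuous P) (g₀ : G) :
    Continuous (hoE2_phi hP g₀) := by
  apply ContinuousMap.continuous_of_continuous_uncurry
  have h1 : Continuous fun q : (ℝ × ℝ × Z) × ℍ => g₀ * (aa q.1.1 * nn q.1.2.1) :=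
    continuous_const.mul ((continuous_aa.comp (continuous_fst.comp continuous_fst)).mul
      (continuous_nn.comp (continuous_fst.comp (continuous_snd.comp continuous_fst))))
  exact hP.comp ((h1.smul continuous_snd).prodMk
    (continuous_snd.comp (continuous_snd.comp continuous_fst)))

/-- Proof. A triangular matrix `p` is, up to the sign (which acts trivially), `aa t * nn x`. For
`j, k : ℤ` and `ε = δ / 2` let `B j k` be the set of the `y = P (g₀ aa t nn x ·, v)` with
`t ∈ [j ε, (j + 1) ε)`, `x ∈ [k, k + 1)`, `v : Z`. The set is the union of the `B j k`. The map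
`(t, x, v) ↦ P (g₀ aa t nn x ·, v)`, `ℝ × ℝ × Z → C(ℍ, M)`, is continuous and `Z` is compact, so
`B j k` is a countable union of compact sets, hence measurable. `B j (k + 1)` is the image of
`B j k` under `y ↦ y · nn 1` (`nn_add`), so all `B j k`, `k : ℤ`, have the same measure (`h.1`:
invariance; the action of `nn 1` is a bijection), and they are disjoint by `rep_unique`. As `m` is
finite,
`m (B j k) = 0`. -/
theorem null_end {F : Foliation E M} {P : ℍ × Z → M} (hP : Susp F P) (hi : InjP P)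
    {m : Measure C(ℍ, M)} [IsProbabilityMeasure m] (h : IsPInv (pre M) m) (g₀ : G) :
    m {y : C(ℍ, M) | ∃ (p : G) (v : Z), p 1 0 = 0 ∧ ∀ z, y z = P ((g₀ * p) • z, v)} = 0 := by
  obtain ⟨δ, hδ, hinj⟩ := hi
  set ε : ℝ := δ / 2 with hε
  have hε0 : 0 < ε := by positivity
  set Φ := hoE2_phi hP.cont g₀ with hΦ
  have hΦc : Continuous Φ := hoE2_cont hP.cont g₀
  -- the pieces
  set B : ℤ → ℤ → Set C(ℍ, M) := fun j k =>
    Φ '' (Icc (j * ε) ((j + 1) * ε) ×ˢ (Icc (k : ℝ) (k + 1) ×ˢ (univ : Set Z))) with hB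
  have hBm : ∀ j k, MeasurableSet (B j k) := by
    intro j k
    refine IsCompact.measurableSet ?_
    exact (isCompact_Icc.prod (isCompact_Icc.prod isCompact_univ)).image hΦc
  -- the action
  have hact : ∀ (q : ℝ × ℝ × Z) (s : ℝ),
      (pre M).act (Φ q) (nn s) = Φ (q.1, q.2.1 + s, q.2.2) := by
    intro q s
    ext z
    change P ((g₀ * (aa q.1 * nn q.2.1)) • (nn s • z), q.2.2) =
      P ((g₀ * (aa q.1 * nn (q.2.1 + s))) • z, q.2.2)
    rw [nn_add, ← mul_smul]
    congr 3
    simp only [mul_assoc]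
  have hsh : ∀ j k (l : ℤ), (fun y => (pre M).act y (nn (l : ℝ))) ⁻¹' (B j (k + l)) = B j k := by
    intro j k l
    ext y
    constructor
    · rintro ⟨q, ⟨hq1, hq2, hq3⟩, hq⟩
      refine ⟨(q.1, q.2.1 + (-(l : ℝ)), q.2.2), ⟨hq1, ⟨?_, ?_⟩, hq3⟩, ?_⟩
      · have := hq2.1
        push_cast at this
        simp only
        linarith
      · have := hq2.2
        push_cast at this
        simp only
        linarith
      · rw [← hact, hq]
        change (pre M).act ((pre M).act y (nn (l : ℝ))) (nn (-(l : ℝ))) = y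
        rw [← (pre M).act_mul, ← nn_add, add_neg_cancel, nn_zero, (pre M).act_one]
    · rintro ⟨q, ⟨hq1, hq2, hq3⟩, rfl⟩
      refine ⟨(q.1, q.2.1 + (l : ℝ), q.2.2), ⟨hq1, ⟨?_, ?_⟩, hq3⟩, ?_⟩
      · have := hq2.1
        push_cast
        linarith
      · have := hq2.2
        push_cast
        linarith
      · rw [← hact]
  have hmeas : ∀ j k (l : ℤ), m (B j (k + l)) = m (B j k) := by
    intro j k l
    have h1 := h.1 (l : ℝ)
    unfold tr at h1
    have hcont : Continuous fun y : C(ℍ, M) => (pre M).act y (nn (l : ℝ)) :=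
      (pre M).cont.comp (continuous_id.prodMk continuous_const)
    conv_lhs => rw [← h1]
    rw [Measure.map_apply hcont.measurable (hBm _ _), hsh]
  have hnull : ∀ j k, m (B j k) = 0 := by
    intro j k
    by_contra hne
    have hdis : Pairwise (Function.onFun Disjoint fun n : ℕ => B j (k + 2 * n)) := by
      intro n n' hnn
      rw [Function.onFun, Set.disjoint_left]
      rintro _ ⟨q, ⟨hq1, hq2, _⟩, rfl⟩ ⟨q', ⟨hq1', hq2', _⟩, hqq⟩
      have h2 := rep_unique hinj g₀ (x := q.2.1) (x' := q'.2.1) (t := q.1) (t' := q'.1)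
        (v := q.2.2) (v' := q'.2.2) (by
          have h3 := hq1.1
          have h4 := hq1.2
          have h5 := hq1'.1
          have h6 := hq1'.2
          rw [abs_lt]
          constructor <;> nlinarith) (fun z => by
          have h3 := congrArg (fun f : C(ℍ, M) => f z) hqq
          exact h3.symm)
      have h3 := h2.1
      have h4 := hq2.1
      have h5 := hq2.2
      have h6 := hq2'.1
      have h7 := hq2'.2
      rw [← h3] at h6 h7
      push_cast at h4 h5 h6 h7
      have h8 : (n : ℝ) < n' + 1 := by linarith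
      have h9 : (n' : ℝ) < n + 1 := by linarith
      have h10 : n < n' + 1 := by exact_mod_cast h8
      have h11 : n' < n + 1 := by exact_mod_cast h9
      exact hnn (by omega)
    have h2 := measure_iUnion (μ := m) hdis (fun n => hBm _ _)
    have h3 : ∀ n : ℕ, m (B j (k + 2 * n)) = m (B j k) := fun n => by
      have := hmeas j k (2 * n)
      exact this
    simp only [h3] at h2
    rw [ENNReal.tsum_const_eq_top_of_ne_zero hne] at h2
    exact absurd h2 (measure_ne_top m _)
  -- the union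
  refine measure_mono_null (t := ⋃ (j : ℤ) (k : ℤ), B j k) ?_ ?_
  · rintro y ⟨p, v, hp, hy⟩
    obtain ⟨t, x, htx⟩ := hoE2_tri hp
    refine mem_iUnion.2 ⟨⌊t / ε⌋, mem_iUnion.2 ⟨⌊x⌋, ⟨(t, x, v), ⟨⟨?_, ?_⟩, ⟨?_, ?_⟩, mem_univ _⟩,
      ?_⟩⟩⟩
    · have := Int.floor_le (t / ε)
      rwa [le_div_iff₀ hε0] at this
    · have := (Int.lt_floor_add_one (t / ε)).le
      rwa [div_le_iff₀ hε0] at this
    · exact Int.floor_le x
    · exact (Int.lt_floor_add_one x).le
    · ext z
      rw [hy z, htx]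
      rfl
  · rw [measure_iUnion_null_iff]
    intro j
    rw [measure_iUnion_null_iff]
    exact fun k => hnull j k

end Pool.Agent.MP27775c.SR
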