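import Pool.Agent.Lib.MP_27775c_an_SR.DefS

/-!
# MP_27775c_an, project SR, module SuB: uniform continuity of a suspension
-/

set_option autoImplicit false

open MeasureTheory Set Filter Topology
open scoped Manifold ContDiff UpperHalfPlane

namespace Pool.Agent.MP27775c.SR

open Pool.Agent.MP27775c.DO

variable {E : Type*} [NormedAddCommGroup E] [NormedSpace ℂ E] [FiniteDimensional ℂ E]
  {M : Type*} [TopologicalSpace M] [ChartedSpace E M]
  [IsManifold 𝓘(ℂ, E) 1 M] [CompactSpace M] [T2Space M]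
  {Z : Type*} [TopologicalSpace Z] [CompactSpace Z]

/-- Proof. Let `K` be as in `cocomp`. For `(k, v) ∈ K × Z` the continuity of `P` gives `r > 0` and
a neighbourhood `N` of `v` such that `(P (w, v'), P (w', v')) ∈ V` for `w, w'` in the ball of radius
`2 r` about `k` and `v' ∈ N` (`V` is a neighbourhood of `(P (k, v), P (k, v))`). Finitely many sets
`ball k r ×ˢ N` cover `K ×ˢ univ`; let `δ` be the smallest `r`. For general `w, w', v` with
`dist w w' < δ` choose `γ, f` for `w`: `P (w, v) = P (γ • w, f v)`, `P (w', v) = P (γ • w', f v)`,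
`γ • w ∈ K` and `dist (γ • w) (γ • w') < δ`. -/
theorem susp_unif {F : Foliation E M} {P : ℍ × Z → M} (hP : Susp F P) {V : Set (M × M)}
    (hV : V ∈ 𝓝ˢ (diagonal M)) :
    ∃ δ : ℝ, 0 < δ ∧ ∀ (w w' : ℍ) (v : Z), dist w w' < δ → (P (w, v), P (w', v)) ∈ V := by
  obtain ⟨K, hK, hcov⟩ := hP.cocomp
  have hKZ : IsCompact (K ×ˢ (univ : Set Z)) := hK.prod isCompact_univ
  have hloc : ∃ δ : ℝ, 0 < δ ∧ ∀ q ∈ K ×ˢ (univ : Set Z), ∀ w' : ℍ, dist q.1 w' < δ →
      (P (q.1, q.2), P (w', q.2)) ∈ V := by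
    refine hKZ.induction_on (p := fun S : Set (ℍ × Z) => ∃ δ : ℝ, 0 < δ ∧ ∀ q ∈ S, ∀ w' : ℍ,
      dist q.1 w' < δ → (P (q.1, q.2), P (w', q.2)) ∈ V) ?_ ?_ ?_ ?_
    · exact ⟨1, one_pos, fun q hq => absurd hq (notMem_empty q)⟩
    · rintro S S' hSS' ⟨δ, hδ, h⟩
      exact ⟨δ, hδ, fun q hq => h q (hSS' hq)⟩
    · rintro S S' ⟨δ, hδ, h⟩ ⟨δ', hδ', h'⟩
      refine ⟨min δ δ', lt_min hδ hδ', fun q hq w' hw' => ?_⟩
      rcases hq with hq | hq
      · exact h q hq w' (hw'.trans_le (min_le_left _ _))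
      · exact h' q hq w' (hw'.trans_le (min_le_right _ _))
    · rintro ⟨k, v⟩ -
      have hg : Continuous fun a : (ℍ × ℍ) × Z => (P (a.1.1, a.2), P (a.1.2, a.2)) :=
        (hP.cont.comp (by fun_prop)).prodMk (hP.cont.comp (by fun_prop))
      have hVn : V ∈ 𝓝 (P (k, v), P (k, v)) :=
        mem_nhdsSet_iff_forall.1 hV _ (mem_diagonal _)
      have hpre := hg.continuousAt.preimage_mem_nhds (x := ((k, k), v)) hVn
      obtain ⟨U, hU, N, hN, hUN⟩ := mem_nhds_prod_iff.1 hpre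
      obtain ⟨ε, hε, hball⟩ := Metric.mem_nhds_iff.1 hU
      refine ⟨Metric.ball k (ε / 2) ×ˢ N, mem_nhdsWithin_of_mem_nhds
        (prod_mem_nhds (Metric.ball_mem_nhds k (half_pos hε)) hN), ε / 2, half_pos hε, ?_⟩
      rintro ⟨w, v'⟩ ⟨hw, hv'⟩ w' hw'
      have hw1 : dist w k < ε / 2 := hw
      have hw2 : dist w w' < ε / 2 := hw'
      have hw3 : dist w' k < ε := by
        have h1 := dist_triangle w' w k
        rw [dist_comm w' w] at h1
        linarith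
      have h4 : ((w, w') : ℍ × ℍ) ∈ Metric.ball ((k, k) : ℍ × ℍ) ε := by
        rw [Metric.mem_ball, Prod.dist_eq]
        exact max_lt (by linarith) hw3
      exact hUN (mk_mem_prod (hball h4) hv')
  obtain ⟨δ, hδ, h⟩ := hloc
  refine ⟨δ, hδ, fun w w' v hw => ?_⟩
  obtain ⟨γ, f, hγ, hf⟩ := hcov w
  rw [hf w v, hf w' v]
  exact h (γ • w, f v) (mk_mem_prod hγ (mem_univ _)) (γ • w') (by rwa [dist_smul])

/-- Proof. `M` is compact and Hausdorff, so it has a uniform structure for which the entourages are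
the neighbourhoods of the diagonal (`uniformSpaceOfCompactR1`, `nhdsSet_diagonal_eq_uniformity`);
take a closed entourage `V₁` with `V₁ ○ V₁ ○ V₁ ⊆ V` (`comp_mem_uniformity_sets`,
`uniformity_hasBasis_closed`). -/
theorem exists_third {V : Set (M × M)} (hV : V ∈ 𝓝ˢ (diagonal M)) :
    ∃ V₁ ∈ 𝓝ˢ (diagonal M), IsClosed V₁ ∧
      ∀ p q r t : M, (p, q) ∈ V₁ → (q, r) ∈ V₁ → (r, t) ∈ V₁ → (p, t) ∈ V := by
  let _ : UniformSpace M := uniformSpaceOfCompactR1
  have hu : 𝓝ˢ (diagonal M) = uniformity M := nhdsSet_diagonal_eq_uniformity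
  rw [hu] at hV ⊢
  obtain ⟨W, hW, hWV⟩ := comp_mem_uniformity_sets hV
  obtain ⟨W', hW', hWW⟩ := comp_mem_uniformity_sets hW
  obtain ⟨V₁, ⟨hV₁, hc⟩, hV₁W⟩ := uniformity_hasBasis_closed.mem_iff.1 hW'
  refine ⟨V₁, hV₁, hc, fun p q r t h1 h2 h3 => ?_⟩
  have h4 : (p, r) ∈ W := hWW ⟨q, hV₁W h1, hV₁W h2⟩
  have h5 : (r, t) ∈ W := hWW ⟨t, hV₁W h3, refl_mem_uniformity hW'⟩
  exact hWV ⟨r, h4, h5⟩

end Pool.Agent.MP27775c.SR
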