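import Pool.Agent.Lib.MP_27775c_an_SR.SuA
import Pool.Agent.Lib.MP_27775c_an_SR.SuB

/-!
# MP_27775c_an, project SR, module SuD: close leaves of a suspension
-/

set_option autoImplicit false

open MeasureTheory Set Filter Topology
open scoped Manifold ContDiff UpperHalfPlane

namespace Pool.Agent.MP27775c.SR

open Pool.Agent.MP27775c.DO

variable {E : Type*} [NormedAddCommGroup E] [NormedSpace ℂ E] [FiniteDimensional ℂ E]
  {M : Type*} [TopologicalSpace M] [ChartedSpace E M]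
  [IsManifold 𝓘(ℂ, E) 1 M] [CompactSpace M] [T2Space M]
  {Z : Type*} [TopologicalSpace Z] [CompactSpace Z]

/-- Proof. Let `V₁` be as in `exists_third`, `δ` as in `susp_unif` for `V₁`. Let
`b = bm h⁻¹ ∘ bm g`, `c x = cm h⁻¹ (bm g x) + cm g x`: measurable, `b` pulls null sets back to null
sets (`bm_ns`). Let `E` be the set of the `x ∈ B ∩ bm g ⁻¹' S` such that `x` is not the pole of
`bm g` and `bm g x` is not the pole of `bm h⁻¹`: measurable, and it differs from `B ∩ bm g ⁻¹' S`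
by a null set (`pole_null`, `bm_ns`). For `x ∈ E`, `x' = bm g x`, `s' = cm g x + s`, and `s` near
`-∞`: `P (g • pt x s, v)` and `P (pt x' s', v)` are `V₁`-close (`asym g`, `δ`), the second and
`P (pt x' s', v')` are `V₁`-close (`x' ∈ S`), and `P (pt x' s', v')` and
`P (h • pt (b x) (c x + s), v')` are `V₁`-close: `asym h⁻¹ x'` and
`dist (h⁻¹ • pt x' s') (pt (b x) (c x + s)) = dist (pt x' s') (h • pt (b x) (c x + s))`. -/
theorem susp_close {F : Foliation E M} {P : ℍ × Z → M} (hP : Susp F P) {V : Set (M × M)}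
    (hV : V ∈ 𝓝ˢ (diagonal M)) :
    ∃ V₁ ∈ 𝓝ˢ (diagonal M), IsClosed V₁ ∧ ∀ (g h : G) (v v' : Z) (B S : Set ℝ),
      MeasurableSet B → MeasurableSet S → volume (B ∩ bm g ⁻¹' S) ≠ 0 →
      (∀ x ∈ S, ∀ᶠ s in atBot, (P (pt x s, v), P (pt x s, v')) ∈ V₁) →
      ∃ E ⊆ B, MeasurableSet E ∧ volume E ≠ 0 ∧
        Close V (fun z => P (g • z, v)) (fun z => P (h • z, v')) E := by
  obtain ⟨V₁, hV₁, hcl, h3⟩ := exists_third hV
  obtain ⟨δ, hδ, hu⟩ := susp_unif hP hV₁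
  refine ⟨V₁, hV₁, hcl, ?_⟩
  intro g h v v' B S hB hS hvol hst
  have mg := bm_meas g
  have mh := bm_meas h⁻¹
  have mpole : ∀ k : G, MeasurableSet {x : ℝ | k⁻¹ 0 0 - k⁻¹ 1 0 * x ≠ 0} := by
    intro k
    have h1 : Measurable fun x : ℝ => k⁻¹ 0 0 - k⁻¹ 1 0 * x :=
      (measurable_id.const_mul _).const_sub _
    exact h1 (measurableSet_singleton (0 : ℝ)).compl
  let E : Set ℝ := (B ∩ bm g ⁻¹' S) ∩ ({x : ℝ | g⁻¹ 0 0 - g⁻¹ 1 0 * x ≠ 0} ∩
    bm g ⁻¹' {x : ℝ | (h⁻¹)⁻¹ 0 0 - (h⁻¹)⁻¹ 1 0 * x ≠ 0})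
  have hEm : MeasurableSet E :=
    (hB.inter (mg hS)).inter ((mpole g).inter (mg (mpole h⁻¹)))
  have hE0 : volume E ≠ 0 := by
    intro h0
    apply hvol
    have hsub : B ∩ bm g ⁻¹' S ⊆ E ∪ ({x : ℝ | g⁻¹ 0 0 - g⁻¹ 1 0 * x = 0} ∪
        bm g ⁻¹' {x : ℝ | (h⁻¹)⁻¹ 0 0 - (h⁻¹)⁻¹ 1 0 * x = 0}) := by
      intro x hx
      by_cases h1 : g⁻¹ 0 0 - g⁻¹ 1 0 * x = 0
      · exact Or.inr (Or.inl h1)
      · by_cases h2 : (h⁻¹)⁻¹ 0 0 - (h⁻¹)⁻¹ 1 0 * bm g x = 0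
        · exact Or.inr (Or.inr h2)
        · exact Or.inl ⟨hx, h1, h2⟩
    refine measure_mono_null hsub ?_
    rw [measure_union_null_iff, measure_union_null_iff]
    exact ⟨h0, pole_null g, bm_ns g _ (pole_null h⁻¹)⟩
  refine ⟨E, fun x hx => hx.1.1, hEm, hE0, fun x => bm h⁻¹ (bm g x),
    fun x => cm h⁻¹ (bm g x) + cm g x, mh.comp mg, ((cm_meas h⁻¹).comp mg).add (cm_meas g),
    ?_, ?_⟩
  · intro N hN
    refine measure_mono_null inter_subset_right ?_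
    exact bm_ns g _ (bm_ns h⁻¹ N hN)
  · intro x hx
    obtain ⟨⟨hxB, hxS⟩, hx1, hx2⟩ := hx
    have e1 : ∀ᶠ s : ℝ in atBot, dist (g • pt x s) (pt (bm g x) (cm g x + s)) < δ :=
      (asym g x hx1).eventually (gt_mem_nhds hδ)
    have ht : Tendsto (fun s : ℝ => cm g x + s) atBot atBot :=
      tendsto_atBot_add_const_left _ _ tendsto_id
    have e2 : ∀ᶠ s : ℝ in atBot, dist (h⁻¹ • pt (bm g x) (cm g x + s))
        (pt (bm h⁻¹ (bm g x)) (cm h⁻¹ (bm g x) + (cm g x + s))) < δ :=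
      ht.eventually ((asym h⁻¹ (bm g x) hx2).eventually (gt_mem_nhds hδ))
    have e3 : ∀ᶠ s : ℝ in atBot, (P (pt (bm g x) (cm g x + s), v),
        P (pt (bm g x) (cm g x + s), v')) ∈ V₁ := ht.eventually (hst _ hxS)
    filter_upwards [e1, e2, e3] with s h1 h2 h3'
    refine h3 _ (P (pt (bm g x) (cm g x + s), v)) (P (pt (bm g x) (cm g x + s), v')) _
      (hu _ _ v h1) h3' (hu _ _ v' ?_)
    have h4 : dist (h⁻¹ • pt (bm g x) (cm g x + s))
        (pt (bm h⁻¹ (bm g x)) (cm h⁻¹ (bm g x) + (cm g x + s))) =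
        dist (pt (bm g x) (cm g x + s))
          (h • pt (bm h⁻¹ (bm g x)) (cm h⁻¹ (bm g x) + (cm g x + s))) := by
      rw [← dist_smul h (h⁻¹ • pt (bm g x) (cm g x + s)), smul_inv_smul]
    rw [h4, ← add_assoc] at h2
    exact h2

end Pool.Agent.MP27775c.SR
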