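import Pool.Agent.Lib.MP_27775c_an_SR.DefC
import Pool.Agent.Lib.MP_27775c_an_SR.SuD

/-!
# MP_27775c_an, project SR, module HoF1: attracted leaves
-/

set_option autoImplicit false

open MeasureTheory Set Filter Topology
open scoped Manifold ContDiff UpperHalfPlane

namespace Pool.Agent.MP27775c.SR

open Pool.Agent.MP27775c.DO

variable {E : Type*} [NormedAddCommGroup E] [NormedSpace ℂ E] [FiniteDimensional ℂ E]
  {M : Type*} [TopologicalSpace M] [ChartedSpace E M]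
  [IsManifold 𝓘(ℂ, E) 1 M] [CompactSpace M] [T2Space M]
  {Z : Type*} [TopologicalSpace Z] [CompactSpace Z]

/-- Proof. `bm_ns` for `g`: for almost every `x` the map `bm g x` is a point with `Contr P v`, and
`x` is not the pole. Let `U ∈ 𝓝 v` be as in `Contr P v (bm g x)`, `b j` a set of a countable basis
with `v ∈ b j ⊆ U`. For `v' ∈ b j` and a neighbourhood `V` take `V₁` as in `exists_third` and `δ` as
in `susp_unif` for `V₁`: `P (g • pt x s, v)`, `P (pt (bm g x) (cm g x + s), v)`,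
`P (pt (bm g x) (cm g x + s), v')`, `P (g • pt x s, v')` are consecutively `V₁`-close for `s` near
`-∞` (`asym`). So almost every `x` lies in one of the countably many sets of the statement. -/
theorem contr_set {F : Foliation E M} {P : ℍ × Z → M} (hP : Susp F P) (g : G) {v : Z}
    (hv : ∀ᵐ x : ℝ, Contr P v x) {b : ℕ → Set Z}
    (hb : ∀ U ∈ 𝓝 v, ∃ j, v ∈ b j ∧ b j ⊆ U) :
    ∃ j, v ∈ b j ∧ volume {x : ℝ | ∀ v' ∈ b j, ∀ V ∈ 𝓝ˢ (diagonal M), ∀ᶠ s in atBot,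
      (P (g • pt x s, v), P (g • pt x s, v')) ∈ V} ≠ 0 := by
  by_contra hcon
  have hcon' : ∀ j, v ∈ b j → volume {x : ℝ | ∀ v' ∈ b j, ∀ V ∈ 𝓝ˢ (diagonal M),
      ∀ᶠ s in atBot, (P (g • pt x s, v), P (g • pt x s, v')) ∈ V} = 0 := by
    intro j hj
    by_contra h
    exact hcon ⟨j, hj, h⟩
  have h1 : ∀ᵐ x : ℝ, g⁻¹ 0 0 - g⁻¹ 1 0 * x ≠ 0 := by
    rw [ae_iff]
    refine measure_mono_null (fun x hx => ?_) (pole_null g)
    exact not_not.1 hx
  have h2 : ∀ᵐ x : ℝ, Contr P v (bm g x) := by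
    rw [ae_iff] at hv ⊢
    exact bm_ns g _ hv
  have h3 : ∀ᵐ x : ℝ, ∀ j, v ∈ b j → ¬ ∀ v' ∈ b j, ∀ V ∈ 𝓝ˢ (diagonal M),
      ∀ᶠ s in atBot, (P (g • pt x s, v), P (g • pt x s, v')) ∈ V := by
    rw [ae_all_iff]
    intro j
    by_cases hj : v ∈ b j
    · have h4 := hcon' j hj
      rw [ae_iff]
      refine measure_mono_null (fun x hx => ?_) h4
      by_contra h5
      exact hx fun _ h6 => h5 h6
    · exact ae_of_all _ fun x h4 => absurd h4 hj
  obtain ⟨x, hx1, hx2, hx3⟩ := (h1.and (h2.and h3)).exists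
  obtain ⟨U, hU, hUx⟩ := hx2
  obtain ⟨j, hj, hjU⟩ := hb U hU
  refine hx3 j hj fun v' hv' V hV => ?_
  obtain ⟨V₁, hV₁, -, ht⟩ := exists_third hV
  obtain ⟨δ, hδ, hu⟩ := susp_unif hP hV₁
  have e1 : ∀ᶠ s : ℝ in atBot, dist (g • pt x s) (pt (bm g x) (cm g x + s)) < δ :=
    (asym g x hx1).eventually (gt_mem_nhds hδ)
  have ht2 : Tendsto (fun s : ℝ => cm g x + s) atBot atBot :=
    tendsto_atBot_add_const_left _ _ tendsto_id
  have e2 := ht2.eventually (hUx v' (hjU hv') V₁ hV₁)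
  filter_upwards [e1, e2] with s k1 k2
  refine ht _ _ _ _ (hu _ _ v k1) k2 (hu _ _ v' ?_)
  rw [dist_comm]
  exact k1

end Pool.Agent.MP27775c.SR
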