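import Pool.Agent.Lib.MP_27775c_an_SR.Bas

/-!
# MP_27775c_an, project SR, module NaA: the identity theorem
-/

set_option autoImplicit false

open MeasureTheory Set Filter Topology
open scoped Manifold ContDiff UpperHalfPlane

namespace Pool.Agent.MP27775c.SR

open Pool.Agent.MP27775c.DO

variable {E : Type*} [NormedAddCommGroup E] [NormedSpace ℂ E] [FiniteDimensional ℂ E]
  {M : Type*} [TopologicalSpace M] [ChartedSpace E M]
  [IsManifold 𝓘(ℂ, E) 1 M] [T2Space M]

private theorem naA_cont (z : ℍ) : ContinuousAt UpperHalfPlane.ofComplex (z : ℂ) :=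
  (UpperHalfPlane.mdifferentiableAt_ofComplex z.im_pos).continuousAt

omit [T2Space M] in
private theorem naA_loc {φ ψ : ℍ → M} (hφ : Hol E φ) (hψ : Hol E ψ) (z : ℍ) (hz : φ z = ψ z) :
    ∃ r : ℝ, 0 < r ∧ AnalyticOnNhd ℂ (rep E (φ z) φ) (Metric.ball (z : ℂ) r) ∧
      AnalyticOnNhd ℂ (rep E (φ z) ψ) (Metric.ball (z : ℂ) r) ∧
      ∀ w ∈ Metric.ball (z : ℂ) r, rep E (φ z) φ w = rep E (φ z) ψ w →
        φ (UpperHalfPlane.ofComplex w) = ψ (UpperHalfPlane.ofComplex w) := by
  have hcs : CompleteSpace E := FiniteDimensional.complete ℂ E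
  have h0 : (chartAt E (φ z)).source ∈ 𝓝 (φ z) :=
    (chartAt E (φ z)).open_source.mem_nhds (mem_chart_source E (φ z))
  have h1 : ∀ᶠ w in 𝓝 (z : ℂ), φ (UpperHalfPlane.ofComplex w) ∈ (chartAt E (φ z)).source := by
    have h : Tendsto (fun w : ℂ => φ (UpperHalfPlane.ofComplex w)) (𝓝 (z : ℂ)) (𝓝 (φ z)) := by
      have h2 : ContinuousAt φ (UpperHalfPlane.ofComplex (z : ℂ)) := (hφ _).continuousAt
      have h3 := ContinuousAt.comp h2 (naA_cont z)
      have h4 := h3.tendsto
      rw [Function.comp_apply, UpperHalfPlane.ofComplex_apply] at h4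
      exact h4
    exact h.eventually h0
  have h2 : ∀ᶠ w in 𝓝 (z : ℂ), ψ (UpperHalfPlane.ofComplex w) ∈ (chartAt E (φ z)).source := by
    have h : Tendsto (fun w : ℂ => ψ (UpperHalfPlane.ofComplex w)) (𝓝 (z : ℂ)) (𝓝 (φ z)) := by
      have h2 : ContinuousAt ψ (UpperHalfPlane.ofComplex (z : ℂ)) := (hψ _).continuousAt
      have h3 := ContinuousAt.comp h2 (naA_cont z)
      have h4 := h3.tendsto
      rw [Function.comp_apply, UpperHalfPlane.ofComplex_apply, ← hz] at h4
      exact h4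
    exact h.eventually h0
  have h3 : ∀ᶠ w in 𝓝 (z : ℂ), 0 < w.im :=
    (isOpen_lt continuous_const Complex.continuous_im).mem_nhds z.im_pos
  obtain ⟨r, hr, hB⟩ := Metric.eventually_nhds_iff_ball.1 (h1.and (h2.and h3))
  have hdiff : ∀ {χ : ℍ → M}, Hol E χ → (∀ w ∈ Metric.ball (z : ℂ) r,
      χ (UpperHalfPlane.ofComplex w) ∈ (chartAt E (φ z)).source) →
      AnalyticOnNhd ℂ (rep E (φ z) χ) (Metric.ball (z : ℂ) r) := by
    intro χ hχ hs
    refine DifferentiableOn.analyticOnNhd (fun w hw => ?_) Metric.isOpen_ball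
    have hw3 := (hB w hw).2.2
    have h5 := hs w hw
    rw [UpperHalfPlane.ofComplex_apply_of_im_pos hw3] at h5
    exact (rep_diff hχ (φ z) h5).differentiableWithinAt
  refine ⟨r, hr, hdiff hφ fun w hw => (hB w hw).1, hdiff hψ fun w hw => (hB w hw).2.1,
    fun w hw he => ?_⟩
  exact (chartAt E (φ z)).injOn (hB w hw).1 (hB w hw).2.1 he

/-- Holomorphic maps which agree on the imaginary axis are equal. Proof. Let `W` be the set of the
`z ∈ ℍ` such that `φ = ψ` near `z`, an open set. (a) `W` is closed in `ℍ`: let `z` be in its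
closure. `φ z = ψ z` as `M` is Hausdorff; choose an open disc `D` about `z` in the upper half plane
which both maps send into the source of the chart at `p = φ z`. `rep E p φ` and `rep E p ψ` are
holomorphic on `D` (`rep_diff`), so analytic (`DifferentiableOn.analyticOnNhd`), and they agree on a
non empty open subset of `D`; so they agree on `D`
(`AnalyticOnNhd.eqOn_of_preconnected_of_eventuallyEq`), and the chart is injective. (b) `i ∈ W`: the
same with a disc about `i`: the representatives agree on the points `i e ^ t` of `D`, which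
accumulate at `i` (`AnalyticOnNhd.eqOn_of_preconnected_of_frequently_eq`). (c) `ℍ` is connected. -/
theorem hol_eq {φ ψ : ℍ → M} (hφ : Hol E φ) (hψ : Hol E ψ)
    (h : ∀ t : ℝ, φ (pt 0 t) = ψ (pt 0 t)) : φ = ψ := by
  have key : ∀ z : ℍ, ∀ r : ℝ, 0 < r → (∀ w ∈ Metric.ball (z : ℂ) r,
      φ (UpperHalfPlane.ofComplex w) = ψ (UpperHalfPlane.ofComplex w)) →
      ∀ᶠ x in 𝓝 z, φ x = ψ x := by
    intro z r hr hw
    have h1 : ∀ᶠ x : ℍ in 𝓝 z, (x : ℂ) ∈ Metric.ball (z : ℂ) r :=
      UpperHalfPlane.continuous_coe.continuousAt.eventually (Metric.ball_mem_nhds _ hr)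
    filter_upwards [h1] with x hx
    have h2 := hw x hx
    rwa [UpperHalfPlane.ofComplex_apply] at h2
  have hopen : IsOpen {z : ℍ | ∀ᶠ x in 𝓝 z, φ x = ψ x} := isOpen_setOfPred_eventually_nhds
  have hclosed : IsClosed {z : ℍ | ∀ᶠ x in 𝓝 z, φ x = ψ x} := by
    refine isClosed_of_closure_subset fun z hz => ?_
    have he : φ z = ψ z := by
      have h1 : IsClosed {x : ℍ | φ x = ψ x} := isClosed_eq hφ.continuous hψ.continuous
      have h2 : closure {z : ℍ | ∀ᶠ x in 𝓝 z, φ x = ψ x} ⊆ {x : ℍ | φ x = ψ x} :=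
        closure_minimal (fun x hx => hx.self_of_nhds) h1
      exact h2 hz
    obtain ⟨r, hr, ha1, ha2, hinj⟩ := naA_loc hφ hψ z he
    have h1 : ∀ᶠ x : ℍ in 𝓝 z, (x : ℂ) ∈ Metric.ball (z : ℂ) r :=
      UpperHalfPlane.continuous_coe.continuousAt.eventually (Metric.ball_mem_nhds _ hr)
    obtain ⟨x, hx1, hx2⟩ := mem_closure_iff_nhds.1 hz _ h1
    have hev : rep E (φ z) φ =ᶠ[𝓝 (x : ℂ)] rep E (φ z) ψ := by
      have h3 : Tendsto UpperHalfPlane.ofComplex (𝓝 (x : ℂ)) (𝓝 x) := by
        have h4 := (naA_cont x).tendsto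
        rwa [UpperHalfPlane.ofComplex_apply] at h4
      filter_upwards [h3.eventually hx2] with w hw
      unfold rep
      rw [hw]
    have heq := ha1.eqOn_of_preconnected_of_eventuallyEq ha2
      (convex_ball (z : ℂ) r).isPreconnected hx1 hev
    exact key z r hr fun w hw => hinj w hw (heq hw)
  have hne : {z : ℍ | ∀ᶠ x in 𝓝 z, φ x = ψ x}.Nonempty := by
    obtain ⟨r, hr, ha1, ha2, hinj⟩ := naA_loc hφ hψ (pt 0 0) (h 0)
    refine ⟨pt 0 0, ?_⟩
    have hcont : Continuous fun t : ℝ => ((pt 0 t : ℍ) : ℂ) := by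
      have h1 : (fun t : ℝ => ((pt 0 t : ℍ) : ℂ)) = fun t : ℝ => ((Real.exp t : ℝ) : ℂ) *
          Complex.I := by
        funext t
        apply Complex.ext
        · simp [pt]
        · simp only [pt, Complex.mul_im, Complex.ofReal_re, Complex.I_im, mul_one,
            Complex.ofReal_im, Complex.I_re, mul_zero, add_zero]
      rw [h1]
      fun_prop
    have ht : Tendsto (fun t : ℝ => ((pt 0 t : ℍ) : ℂ)) (𝓝[≠] (0 : ℝ))
        (𝓝[≠] ((pt 0 0 : ℍ) : ℂ)) := by
      refine tendsto_nhdsWithin_iff.2 ⟨hcont.continuousAt.mono_left nhdsWithin_le_nhds, ?_⟩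
      filter_upwards [self_mem_nhdsWithin] with t ht h1
      apply ht
      have h2 : (((pt 0 t : ℍ) : ℂ)).im = (((pt 0 0 : ℍ) : ℂ)).im := by
        rw [show ((pt 0 t : ℍ) : ℂ) = ((pt 0 0 : ℍ) : ℂ) from h1]
      have h3 : Real.exp t = Real.exp 0 := h2
      exact Real.exp_injective h3
    have hfr : ∃ᶠ w in 𝓝[≠] ((pt 0 0 : ℍ) : ℂ),
        rep E (φ (pt 0 0)) φ w = rep E (φ (pt 0 0)) ψ w := by
      refine ht.frequently (Filter.Frequently.of_forall fun t => ?_)
      unfold rep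
      rw [UpperHalfPlane.ofComplex_apply, h t]
    have heq := ha1.eqOn_of_preconnected_of_frequently_eq ha2
      (convex_ball _ r).isPreconnected (Metric.mem_ball_self hr) hfr
    exact key _ r hr fun w hw => hinj w hw (heq hw)
  have huniv := IsClopen.eq_univ ⟨hclosed, hopen⟩ hne
  funext z
  have hz : z ∈ {z : ℍ | ∀ᶠ x in 𝓝 z, φ x = ψ x} := by
    rw [huniv]
    exact mem_univ z
  exact hz.self_of_nhds

end Pool.Agent.MP27775c.SR
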