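import Pool.Agent.Lib.MP_27775c_an_SR.NbB

/-!
# MP_27775c_an, project SR, module NbC: compactness
-/

set_option autoImplicit false

open MeasureTheory Set Filter Topology
open scoped Manifold ContDiff UpperHalfPlane

namespace Pool.Agent.MP27775c.SR

open Pool.Agent.MP27775c.DO

variable {E : Type*} [NormedAddCommGroup E] [NormedSpace ℂ E] [FiniteDimensional ℂ E]
  {M : Type*} [TopologicalSpace M] [ChartedSpace E M]
  [IsManifold 𝓘(ℂ, E) 1 M] [CompactSpace M] [T2Space M]

/-- Proof. Give `M` its uniform structure (`uniformSpaceOfCompactR1` or the like: a compact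
Hausdorff space has exactly one; it induces the given topology, so that the topology of `C(ℍ, M)`
does not change). `XX om C` is equicontinuous: let `z₀` and an entourage `V` be given; for every
`p : M` let `U p` be a neighbourhood of `p` with `U p ×ˢ U p ⊆ V`, and `W p ⊆ U p`, `N p` as in
`loc_equi`. Finitely many `W p` cover `M`; on the intersection of the corresponding `N p`, every
`φ ∈ XX om C` satisfies `(φ z₀, φ z) ∈ V`. By the theorem of Arzelà and Ascoli
(`ArzelaAscoli.isCompact_closure_of_isClosedEmbedding`, `ArzelaAscoli.isCompact_of_equicontinuous`;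
`M` is compact, so pointwise relative compactness is trivial) the closure of `XX om C` in `C(ℍ, M)`
is compact; it is closed (`XX_closed`). -/
theorem XX_comp {om : Form E M} (hom : om.Pos) (C : ℝ) : IsCompact (XX om C) := by
  let u : UniformSpace M := uniformSpaceOfCompactR1
  have hcoh : IsCoherentWith {K : Set ℍ | IsCompact K} := by
    apply IsCoherentWith.of_nhds
    intro x
    obtain ⟨K, hK, hx⟩ := exists_compact_mem_nhds x
    exact ⟨K, hK, hx⟩
  have hemb : IsClosedEmbedding (UniformOnFun.ofFun {K : Set ℍ | IsCompact K} ∘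
      (fun φ : C(ℍ, M) => (φ : ℍ → M))) := by
    refine ⟨ContinuousMap.isUniformEmbedding_toUniformOnFunIsCompact.isEmbedding, ?_⟩
    have h1 := UniformOnFun.isClosed_setOfPred_continuous (β := M) hcoh
    convert h1 using 1
    exact ContinuousMap.range_toUniformOnFunIsCompact
  have heq : Equicontinuous ((fun φ : C(ℍ, M) => (φ : ℍ → M)) ∘ ((↑) : XX om C → C(ℍ, M))) := by
    intro z₀ U hU
    obtain ⟨V, hV, hVs, hVU⟩ := comp_symm_mem_uniformity_sets hU
    choose W hW N hN h using fun p : M =>
      loc_equi hom C z₀ p (UniformSpace.ball_mem_nhds p hV)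
    obtain ⟨t, ht⟩ := CompactSpace.elim_nhds_subcover W hW
    have hmem : (⋂ p ∈ t, N p) ∈ 𝓝 z₀ := (Filter.biInter_finset_mem t).2 (fun p _ => hN p)
    filter_upwards [hmem] with z hz φ
    have hcov : (φ : C(ℍ, M)) z₀ ∈ ⋃ p ∈ t, W p := by rw [ht]; trivial
    obtain ⟨p, hp, hφ⟩ := mem_iUnion₂.1 hcov
    have h1 := h p φ φ.2 hφ z (mem_iInter₂.1 hz p hp)
    have h2 := h p φ φ.2 hφ z₀ (mem_of_mem_nhds (hN p))
    apply hVU
    exact ⟨p, SetRel.symm V h2, h1⟩
  have hc := ArzelaAscoli.isCompact_closure_of_isClosedEmbedding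
    (𝔖 := {K : Set ℍ | IsCompact K}) (fun K hK => hK) hemb (s := XX om C)
    (fun K _ => heq.equicontinuousOn K)
    (fun K _ x _ => ⟨univ, isCompact_univ, fun _ _ => mem_univ _⟩)
  rwa [(XX_closed om C).closure_eq] at hc

end Pool.Agent.MP27775c.SR
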