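import Pool.Agent.Lib.MP_27775c_an_SR.DefS

/-!
# MP_27775c_an, project SR, module SuC: the universal coverings of a suspension
-/

set_option autoImplicit false

open MeasureTheory Set Filter Topology
open scoped Manifold ContDiff UpperHalfPlane

namespace Pool.Agent.MP27775c.SR

open Pool.Agent.MP27775c.DO

variable {E : Type*} [NormedAddCommGroup E] [NormedSpace ℂ E] [FiniteDimensional ℂ E]
  {M : Type*} [TopologicalSpace M] [ChartedSpace E M]
  [IsManifold 𝓘(ℂ, E) 1 M] [CompactSpace M] [T2Space M]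
  {Z : Type*} [TopologicalSpace Z]

/-- Proof. `φ i = P (w, v)`. The map `χ z = P (pp w • z, v)` is a universal covering (`univ_act`)
with `χ i = P (w, v)` (`pp_smul`), and `univ_unique` gives `φ z = χ (kk t • z)`. -/
theorem susp_form {F : Foliation E M} {P : ℍ × Z → M} (hP : Susp F P) {φ : ℍ → M}
    (h : IsUniv F φ) : ∃ (g : G) (v : Z), ∀ z, φ z = P (g • z, v) := by
  obtain ⟨⟨w, v⟩, hwv⟩ := hP.surj (φ UpperHalfPlane.I)
  have h1 : IsUniv F fun z : ℍ => P (pp w • z, v) := univ_act (hP.univ v) (pp w)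
  have h2 : φ UpperHalfPlane.I = (fun z : ℍ => P (pp w • z, v)) UpperHalfPlane.I := by
    show φ UpperHalfPlane.I = P (pp w • UpperHalfPlane.I, v)
    rw [pp_smul, hwv]
  obtain ⟨t, ht⟩ := univ_unique h1 h h2
  refine ⟨pp w * kk t, v, fun z => ?_⟩
  rw [ht z, mul_smul]

private theorem suC_bd {F : Foliation E M} {P : ℍ × Z → M} [CompactSpace Z] (hP : Susp F P)
    (om : Form E M) {K : Set ℍ} (hK : IsCompact K) :
    ∃ C, ∀ k ∈ K, ∀ v : Z,
      om.val (vel (fun z : ℍ => P (pp k • z, v)) UpperHalfPlane.I) ≤ C := by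
  have h0 : Continuous fun p : G × ℍ => p.1 • p.2 := continuous_smul
  have h1 : Continuous fun q : (ℍ × Z) × ℍ => (pp q.1.1, q.2) :=
    (continuous_pp.comp (continuous_fst.comp continuous_fst)).prodMk continuous_snd
  have h2 : Continuous fun q : (ℍ × Z) × ℍ => pp q.1.1 • q.2 := by
    have h := h0.comp h1
    simpa only [Function.comp_def] using h
  have h3 : Continuous fun q : (ℍ × Z) × ℍ => (pp q.1.1 • q.2, q.1.2) :=
    h2.prodMk (continuous_snd.comp continuous_fst)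
  have hcont : Continuous fun q : (ℍ × Z) × ℍ => P (pp q.1.1 • q.2, q.1.2) := by
    have h := hP.cont.comp h3
    simpa only [Function.comp_def] using h
  have hc1 : ∀ q : ℍ × Z, Continuous fun z : ℍ => P (pp q.1 • z, q.2) := fun q => by
    have h := hcont.comp (Continuous.prodMk_right (X := ℍ × Z) (Y := ℍ) q)
    simpa only [Function.comp_def] using h
  obtain ⟨Φ, hΦ⟩ : ∃ Φ : ℍ × Z → C(ℍ, M), ∀ q, Φ q = ⟨fun z : ℍ => P (pp q.1 • z, q.2), hc1 q⟩ :=
    ⟨_, fun q => rfl⟩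
  have hΦa : ∀ q : ℍ × Z, ∀ z : ℍ, Φ q z = P (pp q.1 • z, q.2) := fun q z => by
    rw [hΦ q]
    rfl
  have hΦc : Continuous Φ := by
    refine ContinuousMap.continuous_of_continuous_uncurry _ ?_
    have h1 : Function.uncurry (fun q z => Φ q z) =
        fun q : (ℍ × Z) × ℍ => P (pp q.1.1 • q.2, q.1.2) := by
      funext q
      exact hΦa q.1 q.2
    rw [h1]
    exact hcont
  have hfun : ∀ q : ℍ × Z, (Φ q : ℍ → M) = fun z : ℍ => P (pp q.1 • z, q.2) := fun q =>
    funext (hΦa q)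
  have hhol : ∀ q : ℍ × Z, Hol E (Φ q : ℍ → M) := fun q => by
    rw [hfun q]
    exact (univ_act (hP.univ q.2) (pp q.1)).1.1
  have hcv : ContinuousOn (fun φ : C(ℍ, M) => om.val (vel φ UpperHalfPlane.I))
      {φ : C(ℍ, M) | Hol E φ} :=
    om.continuous_val.comp_continuousOn (cont_vel UpperHalfPlane.I)
  have hval : Continuous fun q : ℍ × Z => om.val (vel (Φ q) UpperHalfPlane.I) :=
    hcv.comp_continuous hΦc hhol
  obtain ⟨C, hC⟩ := ((hK.prod (isCompact_univ (X := Z))).image hval).bddAbove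
  refine ⟨C, fun k hk v => ?_⟩
  have h4 : om.val (vel (Φ (k, v)) UpperHalfPlane.I) ≤ C :=
    hC ⟨(k, v), ⟨hk, mem_univ v⟩, rfl⟩
  rw [hfun (k, v)] at h4
  exact h4

private theorem suC_rot (om : Form E M) {χ : ℍ → M} (h : Hol E χ) (t : ℝ) :
    om.val (vel (fun z : ℍ => χ (kk t • z)) UpperHalfPlane.I) =
      om.val (vel χ UpperHalfPlane.I) := by
  have h3 := val_act om h (kk t) UpperHalfPlane.I
  rw [kk_smul, UpperHalfPlane.I_im, one_pow, one_mul, one_mul] at h3
  exact h3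

/-- Proof. By `susp_form` `φ z = P (g • z, v)`. Let `w = g • i`, and `γ, f` as in `cocomp` for `w`:
`φ z = P ((γ * g) • z, f v)`, `γ * g = pp k * kk t` with `k = γ • w ∈ K` (`iwa`). So
`φ = χ ∘ (kk t • ·)` with `χ = χ (k, v₁) : z ↦ P (pp k • z, v₁)`, and
`om.val (vel φ i) = om.val (vel χ i)` (`val_act` with `kk t • i = i`). The map
`(k, v₁) ↦ χ (k, v₁)`, `K × Z → C(ℍ, M)`, is continuous (`ContinuousMap.curry`,
`continuous_pp`), with holomorphic values, so `om.val (vel χ i)` is continuous in `(k, v₁)`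
(`cont_vel`, `om.continuous_val`), hence bounded on the compact set `K × Z`. -/
theorem susp_brody {F : Foliation E M} {P : ℍ × Z → M} [CompactSpace Z] (hP : Susp F P)
    (om : Form E M) :
    ∃ C, ∀ φ : ℍ → M, IsUniv F φ → om.val (vel φ UpperHalfPlane.I) ≤ C := by
  obtain ⟨K, hK, hc⟩ := hP.cocomp
  obtain ⟨C, hC⟩ := suC_bd hP om hK
  refine ⟨C, fun φ hφ => ?_⟩
  obtain ⟨g, v, hgv⟩ := susp_form hP hφ
  obtain ⟨γ, f, hγ, hf⟩ := hc (g • UpperHalfPlane.I)
  obtain ⟨t, ht⟩ := iwa (γ * g)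
  rw [mul_smul] at ht
  obtain ⟨k, hk⟩ : ∃ k : ℍ, k = γ • g • UpperHalfPlane.I := ⟨_, rfl⟩
  rw [← hk] at ht hγ
  have h2 : φ = fun z : ℍ => (fun z : ℍ => P (pp k • z, f v)) (kk t • z) := by
    funext z
    rw [hgv z, hf (g • z) v, ← mul_smul, ht, mul_smul]
  have h3 : Hol E fun z : ℍ => P (pp k • z, f v) := (univ_act (hP.univ (f v)) (pp k)).1.1
  rw [h2, suC_rot om h3 t]
  exact hC k hγ (f v)

end Pool.Agent.MP27775c.SR
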