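import Pool.Agent.Lib.MP_27775c_an_SR.HoC
import Pool.Agent.Lib.MP_27775c_an_SR.HoD
import Pool.Agent.Lib.MP_27775c_an_SR.HoE2
import Pool.Agent.Lib.MP_27775c_an_SR.HoF1
import Pool.Agent.Lib.MP_27775c_an_SR.NaA
import Pool.Agent.Lib.MP_27775c_an_SR.NbC
import Pool.Agent.Lib.MP_27775c_an_SR.SuC
import Pool.Agent.Lib.MP_27775c_an_SR.SuD

/-!
# MP_27775c_an, project SR, module HoF: asymptotically stable suspensions are ergodic
-/

set_option autoImplicit false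

open MeasureTheory Set Filter Topology
open scoped Manifold ContDiff UpperHalfPlane

namespace Pool.Agent.MP27775c.SR

open Pool.Agent.MP27775c.DO

variable {E : Type*} [NormedAddCommGroup E] [NormedSpace ℂ E] [FiniteDimensional ℂ E]
  {M : Type*} [TopologicalSpace M] [ChartedSpace E M]
  [IsManifold 𝓘(ℂ, E) 1 M] [CompactSpace M] [T2Space M] [MeasurableSpace C(ℍ, M)]
  [BorelSpace C(ℍ, M)] {Z : Type*} [TopologicalSpace Z] [CompactSpace Z]
  [SecondCountableTopology Z]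

private theorem hoF_basis {Z : Type*} [TopologicalSpace Z] [SecondCountableTopology Z] :
    ∃ b : ℕ → Set Z, ∀ v : Z, ∀ U ∈ 𝓝 v, ∃ j, v ∈ b j ∧ b j ⊆ U := by
  obtain ⟨B, hBc, -, hB⟩ := TopologicalSpace.exists_countable_basis Z
  have h1 : (insert (univ : Set Z) B).Countable := hBc.insert _
  obtain ⟨f, hf⟩ := h1.exists_eq_range ⟨univ, mem_insert _ _⟩
  refine ⟨f, fun v U hU => ?_⟩
  obtain ⟨W, hW, hvW, hWU⟩ := hB.mem_nhds_iff.1 hU
  have h2 : W ∈ range f := by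
    rw [← hf]
    exact mem_insert_of_mem _ hW
  obtain ⟨j, hj⟩ := h2
  exact ⟨j, hj ▸ hvW, hj ▸ hWU⟩

private theorem hoF_pt (t : ℝ) : aa t • UpperHalfPlane.I = pt 0 t := by
  have h0 : nn 0 = 1 := by
    ext i j
    fin_cases i <;> fin_cases j <;> simp [nn]
  rw [← pt_eq, h0, one_mul]

omit [CompactSpace M] [T2Space M] [MeasurableSpace C(ℍ, M)] [BorelSpace C(ℍ, M)]
  [FiniteDimensional ℂ E] [IsManifold 𝓘(ℂ, E) 1 M] [ChartedSpace E M] [NormedSpace ℂ E] in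
private theorem hoF_ray (y : C(ℍ, M)) (x s : ℝ) :
    ray (pre M) y x s UpperHalfPlane.I = y (pt x s) := by
  show y ((nn x * aa s) • UpperHalfPlane.I) = y (pt x s)
  rw [pt_eq]

omit [MeasurableSpace C(ℍ, M)] [BorelSpace C(ℍ, M)] [CompactSpace M] [T2Space M] in
private theorem hoF_XX {F : Foliation E M} {om : Form E M} {C : ℝ}
    (hC : ∀ φ : ℍ → M, IsUniv F φ → om.val (vel φ UpperHalfPlane.I) ≤ C) {y : C(ℍ, M)}
    (hy : IsUniv F y) : Hol E (y : ℍ → M) ∧ ∀ z : ℍ, z.im ^ 2 * om.val (vel y z) ≤ C := by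
  have hH : Hol E (y : ℍ → M) := hy.1.1
  refine ⟨hH, fun z => ?_⟩
  have h1 := hC _ (univ_act hy (pp z))
  have h2 := val_act om hH (pp z) UpperHalfPlane.I
  rw [pp_smul, UpperHalfPlane.I_im, one_pow, one_mul] at h2
  rw [← h2]
  exact h1

private theorem hoF_ex {X : Type*} [MeasurableSpace X] {m : Measure X} {S : Set X}
    (hS : m S ≠ 0) {p : X → Prop} (hp : ∀ᵐ y ∂m, p y) : ∃ y ∈ S, p y := by
  by_contra hc
  refine hS (measure_mono_null (fun y hy => ?_) (ae_iff.1 hp))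
  intro h
  exact hc ⟨y, hy, h⟩

/-- Proof. Suppose not, let `Ω`, `U` be as in `exists_X0G` (`polC`). `X = XX om C` (`susp_brody`,
`XX_comp`, `XX_inv`; a universal covering is in `X`: `univ_act`, `val_act`), `e φ = φ i`, `sep` is
`hol_eq` (see `Ma.lean`). Let `b j` be a countable basis of `Z`, `Y j` the set of the `ψ` with
`∃ (h : G), ∃ v' ∈ b j, ∀ z, ψ z = P (h • z, v')`. `m`-almost every `y` is a universal covering,
satisfies the condition of `ContrT`, is in `OmP A Ω` and not in `X3 A Ω U`, and `m (Y j) ≠ 0` for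
every `j` with `y ∈ Y j` (countably many conditions, each of them trivial or almost everywhere
true). Fix such a `y`, `y = P (g₀ • ·, v)` (`susp_form`), and `j` as in `contr_set` for `g₀`. Since
`m (Y j) ≠ 0` and, by `null_end`, the set of the `y'` which are universal coverings in `OmP A Ω`,
not in `X3 A Ω U`, and not of the form `P ((g₀ * p) • ·, v')` with `p 1 0 = 0`, has full measure,
there is such a `y' = P (h₀ • ·, v')` in `Y j`, `v' ∈ b j`. Let `g = g₀⁻¹ * h₀`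
and `y₂ = P (g₀ • ·, v')`,
so `A.act y₂ g = y'`. `g 1 0 ≠ 0`, otherwise `h₀ = g₀ * g` is of the excluded form. For `x` in the
set of `contr_set` which is not the pole of `g`, `asy_rays` (`e (ray A y x s) = P (g₀ • pt x s, v)`
by `pt_eq`) gives the hypothesis of `x3_of_asy`, so `y' ∈ X3 A Ω U`: contradiction. -/
theorem susp_nerg {F : Foliation E M} {P : ℍ × Z → M} (hP : Susp F P) (hi : InjP P)
    {om : Form E M} (hom : om.Pos) {m : Measure C(ℍ, M)} [IsProbabilityMeasure m]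
    (h : IsPInv (pre M) m) (he : IsPErg (pre M) m) (hX : ∀ᵐ φ : C(ℍ, M) ∂m, IsUniv F φ)
    (hc : ContrT m P) : IsNErg (pre M) m := by
  by_contra hn
  have hpol : PolishSpace C(ℍ, M) := polC E M
  obtain ⟨Ω, U, hΩ, hU, hinv, hH, hO, hX3⟩ := exists_X0G (pre M) h he hn
  obtain ⟨C, hC⟩ := susp_brody hP om
  obtain ⟨b, hb⟩ := hoF_basis (Z := Z)
  have hO' : ∀ᵐ y : C(ℍ, M) ∂m, y ∈ OmP (pre M) Ω := by
    rw [ae_iff]
    exact hO
  have hX' : ∀ᵐ y : C(ℍ, M) ∂m, y ∉ X3 (pre M) Ω U := measure_eq_zero_iff_ae_notMem.1 hX3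
  have hY : ∀ᵐ y : C(ℍ, M) ∂m, ∀ j : ℕ,
      (∃ k : G, ∃ v' ∈ b j, ∀ z, y z = P (k • z, v')) →
        m {ψ : C(ℍ, M) | ∃ k : G, ∃ v' ∈ b j, ∀ z, ψ z = P (k • z, v')} ≠ 0 := by
    rw [ae_all_iff]
    intro j
    by_cases h0 : m {ψ : C(ℍ, M) | ∃ k : G, ∃ v' ∈ b j, ∀ z, ψ z = P (k • z, v')} = 0
    · filter_upwards [measure_eq_zero_iff_ae_notMem.1 h0] with y hy hy'
      exact absurd hy' hy
    · exact ae_of_all _ fun _ _ => h0
  have hne : (m : Measure C(ℍ, M)) univ ≠ 0 := by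
    rw [measure_univ]
    exact one_ne_zero
  obtain ⟨y, -, hyU, hyC, hyO, hyY⟩ := hoF_ex hne (hX.and (hc.and (hO'.and hY)))
  obtain ⟨g₀, v, hgv⟩ := susp_form hP hyU
  obtain ⟨j, hvj, hvol⟩ := contr_set hP g₀ (hyC v ⟨g₀, hgv⟩) (hb v)
  have hYj := hyY j ⟨g₀, v, hvj, hgv⟩
  have hend : ∀ᵐ y : C(ℍ, M) ∂m, ¬ ∃ (p : G) (v : Z), p 1 0 = 0 ∧
      ∀ z, y z = P ((g₀ * p) • z, v) := measure_eq_zero_iff_ae_notMem.1 (null_end hP hi h g₀)
  obtain ⟨y', ⟨h₀, v', hv', hy'v⟩, hy'U, hy'O, hy'X, hy'e⟩ :=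
    hoF_ex hYj (hX.and (hO'.and (hX'.and hend)))
  have hPc : Continuous fun z : ℍ => P (g₀ • z, v') :=
    hP.cont.comp ((continuous_const_smul _).prodMk continuous_const)
  obtain ⟨y₂, hy₂⟩ : ∃ y₂ : C(ℍ, M), ∀ z, y₂ z = P (g₀ • z, v') := ⟨⟨_, hPc⟩, fun z => rfl⟩
  obtain ⟨g, hg⟩ : ∃ g : G, g = g₀⁻¹ * h₀ := ⟨_, rfl⟩
  have hg' : g₀ * g = h₀ := by
    rw [hg, mul_inv_cancel_left]
  have hact : (pre M).act y₂ g = y' := by
    ext z
    show y₂ (g • z) = y' z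
    rw [hy₂, hy'v, ← mul_smul, hg']
  have hc10 : g 1 0 ≠ 0 := by
    intro h0
    refine hy'e ⟨g, v', h0, fun z => ?_⟩
    rw [hg']
    exact hy'v z
  have hy₂U : IsUniv F y₂ := by
    have h1 : (y₂ : ℍ → M) = fun z : ℍ => P (g₀ • z, v') := funext hy₂
    rw [h1]
    exact univ_act (hP.univ v') g₀
  have hyX : y ∈ XX om C := hoF_XX hC hyU
  have hy₂X : y₂ ∈ XX om C := hoF_XX hC hy₂U
  have hsep : ∀ z ∈ XX om C, ∀ z' ∈ XX om C, (∀ t : ℝ,
      (fun ψ : C(ℍ, M) => ψ UpperHalfPlane.I) ((pre M).act z (aa t)) =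
        (fun ψ : C(ℍ, M) => ψ UpperHalfPlane.I) ((pre M).act z' (aa t))) → z = z' := by
    intro z hz z' hz' h
    refine DFunLike.coe_injective (hol_eq hz.1 hz'.1 fun t => ?_)
    have h1 : z (aa t • UpperHalfPlane.I) = z' (aa t • UpperHalfPlane.I) := h t
    rwa [hoF_pt] at h1
  have hpole : volume {x : ℝ | g 0 0 - g 1 0 * x = 0} = 0 := by
    refine measure_mono_null (t := {g 0 0 / g 1 0}) (fun x hx => ?_) Real.volume_singleton
    have hx' : g 0 0 - g 1 0 * x = 0 := hx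
    rw [mem_singleton_iff, eq_div_iff hc10]
    linarith
  have hS0 : volume ({x : ℝ | ∀ v' ∈ b j, ∀ V ∈ 𝓝ˢ (diagonal M), ∀ᶠ s in atBot,
      (P (g₀ • pt x s, v), P (g₀ • pt x s, v')) ∈ V} \ {x : ℝ | g 0 0 - g 1 0 * x = 0}) ≠ 0 := by
    rw [measure_sdiff_null hpole]
    exact hvol
  refine hy'X ?_
  refine x3_of_asy (pre M) hΩ hU hinv hH hyO hy'O hc10 hS0 fun x hx Fb => ?_
  have h1 := asy_rays (pre M) (XX_comp hom C) (fun y hy k => XX_inv om C hy k)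
    (e := fun ψ : C(ℍ, M) => ψ UpperHalfPlane.I) (continuous_eval_const _) hsep hyX hy₂X
    (x := x) (fun V hV => ?_) g hx.2 Fb
  · rw [hact] at h1
    exact h1
  · have h2 := hx.1 v' hv' V hV
    filter_upwards [h2] with s h3
    show (ray (pre M) y x s UpperHalfPlane.I, ray (pre M) y₂ x s UpperHalfPlane.I) ∈ V
    rw [hoF_ray, hoF_ray, hgv, hy₂]
    exact h3

end Pool.Agent.MP27775c.SR
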