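import Pool.Agent.Lib.MP_27775c_an_SR.HoF

/-!
# MP_27775c_an, project SR, module HoG: asymptotically stable suspensions are not exceptional
-/

set_option autoImplicit false

open MeasureTheory Set Filter Topology
open scoped Manifold ContDiff UpperHalfPlane

namespace Pool.Agent.MP27775c.SR

open Pool.Agent.MP27775c.DO

variable {E : Type*} [NormedAddCommGroup E] [NormedSpace ℂ E] [FiniteDimensional ℂ E]
  {M : Type*} [TopologicalSpace M] [ChartedSpace E M]
  [IsManifold 𝓘(ℂ, E) 1 M] [CompactSpace M] [T2Space M] [MeasurableSpace C(ℍ, M)]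
  [BorelSpace C(ℍ, M)] {Z : Type*} [TopologicalSpace Z] [CompactSpace Z]
  [SecondCountableTopology Z]

/-- Proof. `exists_lift` gives `m`, invariant and ergodic for the triangular group, `kap m = μ`. By
`ae_of_kap`, `m`-almost every `φ` is a universal covering (`univ_act`) and has the property of
`ContrT` (if `φ · g = P (g' • ·, v)` then `φ = P ((g' * g⁻¹) • ·, v)`). `susp_nerg`, and
`exc_not_nerg`. -/
theorem susp_not_exc {F : Foliation E M} {P : ℍ × Z → M} (hP : Susp F P) (hi : InjP P)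
    {om : Form E M} (hom : om.Pos) {μ : Measure C(ℍ, M)} [IsProbabilityMeasure μ]
    (hX : ∀ᵐ φ : C(ℍ, M) ∂μ, IsUniv F φ) (hH : IsHarm (pre M) μ) (hE : IsExt (pre M) μ)
    (hc : ContrT μ P) : ¬ IsExc (pre M) μ := by
  intro hExc
  have hpc := polC E M
  obtain ⟨m, hm, hp, hk, hEr⟩ := exists_lift (pre M) hH hE
  subst hk
  have hU : ∀ᵐ φ : C(ℍ, M) ∂m, IsUniv F φ :=
    ae_of_kap (pre M) (p := fun φ : C(ℍ, M) => IsUniv F φ) hX fun φ g h => univ_act h g
  have hC : ContrT m P := by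
    refine ae_of_kap (pre M) (p := fun φ : C(ℍ, M) => ∀ v : Z,
      (∃ g : G, ∀ z, φ z = P (g • z, v)) → ∀ᵐ x : ℝ, Contr P v x) hc ?_
    rintro φ g h v ⟨g', hg'⟩
    refine h v ⟨g' * g⁻¹, fun z => ?_⟩
    have h1 : φ (g • g⁻¹ • z) = P (g' • g⁻¹ • z, v) := hg' (g⁻¹ • z)
    rw [smul_inv_smul] at h1
    rw [h1, mul_smul]
  exact exc_not_nerg (pre M) hp hExc (susp_nerg hP hi hom hp hEr hU hC)

end Pool.Agent.MP27775c.SR
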