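import Pool.Agent.Lib.MP_27775c_an_SR.NbA

/-!
# MP_27775c_an, project SR, module NbD: almost all maps have a bounded derivative
-/

set_option autoImplicit false

open MeasureTheory Set Filter Topology
open scoped Manifold ContDiff UpperHalfPlane

namespace Pool.Agent.MP27775c.SR

open Pool.Agent.MP27775c.DO

variable {E : Type*} [NormedAddCommGroup E] [NormedSpace ℂ E] [FiniteDimensional ℂ E]
  {M : Type*} [TopologicalSpace M] [ChartedSpace E M]
  [IsManifold 𝓘(ℂ, E) 1 M] [CompactSpace M] [T2Space M] [MeasurableSpace C(ℍ, M)]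
  [BorelSpace C(ℍ, M)]

private theorem NbD_of_kap {Y : Type*} [TopologicalSpace Y] [PolishSpace Y] [MeasurableSpace Y]
    [BorelSpace Y] (A : RAct Y) {m : Measure Y} [IsProbabilityMeasure m] {p : Y → Prop}
    (h : ∀ᵐ y ∂(kap A m), p y) (hp : ∀ y θ, p (A.act y (kk θ)) → p y) : ∀ᵐ y ∂m, p y := by
  have hjm : Measurable fun q : Y × ℝ => A.act q.1 (kk q.2) := meas_joint A continuous_kk
  have h1 : ∀ᵐ q ∂(m.prod circ), p (A.act q.1 (kk q.2)) := ae_of_ae_map hjm.aemeasurable h
  have h2 : ∀ᵐ q ∂(m.prod circ), p q.1 := by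
    filter_upwards [h1] with q hq
    exact hp _ _ hq
  filter_upwards [Measure.ae_ae_of_ae_prod h2] with x hx
  obtain ⟨θ, hθ⟩ := hx.exists
  exact hθ

/-- Proof. `exists_lift` gives `m` with `kap (pre M) m = μ`, invariant under the triangular group
(`polC` gives the Polish space). `ae_of_kap` for `Hol E` (`hol_act`): `m`-almost every `φ` is
holomorphic. For a fixed `z` the set `{φ | C < FF om φ}` is measurable (`FF_meas`) and invariant
under rotations (`FF_kk`), it is null for `μ` (for holomorphic `φ`, `FF om φ = om.val (vel φ i)`;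
`FF_pp` with `pp I = 1` or the definition), hence for `m` (write it as the integral of an
indicator: `int_kap`, or `lintegral_kap`), hence its translate by `pp z` is null (`tr_pp`):
`m`-almost everywhere `z.im ^ 2 * om.val (vel φ z) = FF om ((pre M).act φ (pp z)) ≤ C` (`FF_pp`).
Take the `z` in a countable dense set: by `cont_val` the estimate holds for all `z`. So `m`-almost
every `φ` is in `XX om C`, a closed (`XX_closed`) hence measurable set, invariant (`XX_inv`);
`ae_kap` (the equivalence with `kk (-θ)`). -/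
theorem XX_full {om : Form E M} {μ : Measure C(ℍ, M)} [IsProbabilityMeasure μ]
    (hH : IsHarm (pre M) μ) (hE : IsExt (pre M) μ) (hμ : ∀ᵐ φ : C(ℍ, M) ∂μ, Hol E φ) {C : ℝ}
    (hB : ∀ᵐ φ : C(ℍ, M) ∂μ, om.val (vel φ UpperHalfPlane.I) ≤ C) :
    ∀ᵐ φ : C(ℍ, M) ∂μ, φ ∈ XX om C := by
  have hpc := polC E M
  obtain ⟨m, hm, hp, hk, -⟩ := exists_lift (pre M) hH hE
  subst hk
  have hHol : ∀ᵐ φ : C(ℍ, M) ∂m, Hol E φ :=
    ae_of_kap (pre M) (p := fun φ : C(ℍ, M) => Hol E φ) hμ fun φ g h => hol_act h g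
  have h1 : ∀ᵐ φ : C(ℍ, M) ∂(kap (pre M) m), FF om φ ≤ C := by
    filter_upwards [hμ, hB] with φ h2 h3
    unfold FF
    rw [if_pos h2]
    exact h3
  have h2 : ∀ᵐ φ : C(ℍ, M) ∂m, FF om φ ≤ C :=
    NbD_of_kap (pre M) (p := fun φ : C(ℍ, M) => FF om φ ≤ C) h1 fun φ θ h => by
      rwa [FF_kk] at h
  have h3 : ∀ z : ℍ, ∀ᵐ φ : C(ℍ, M) ∂m, FF om ((pre M).act φ (pp z)) ≤ C := by
    intro z
    have hc : Continuous fun φ : C(ℍ, M) => (pre M).act φ (pp z) :=
      (pre M).cont.comp (continuous_id.prodMk continuous_const)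
    have h4 : ∀ᵐ φ : C(ℍ, M) ∂(tr (pre M) m (pp z)), FF om φ ≤ C := by
      rw [tr_pp (pre M) hp z]
      exact h2
    exact ae_of_ae_map hc.measurable.aemeasurable h4
  have h5 : ∀ᵐ φ : C(ℍ, M) ∂m, φ ∈ XX om C := by
    have h6 := ae_all_iff.2 fun n : ℕ => h3 (TopologicalSpace.denseSeq ℍ n)
    filter_upwards [hHol, h6] with φ h7 h8
    refine ⟨h7, fun z => ?_⟩
    have hcont : Continuous fun z : ℍ => z.im ^ 2 * om.val (vel φ z) :=
      (UpperHalfPlane.continuous_im.pow 2).mul (cont_val om h7)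
    refine (TopologicalSpace.denseRange_denseSeq ℍ).induction_on
      (p := fun z : ℍ => z.im ^ 2 * om.val (vel φ z) ≤ C) z
      (isClosed_le hcont continuous_const) fun n => ?_
    have h9 := h8 n
    rwa [FF_pp om h7] at h9
  refine ae_kap (pre M) (XX_closed om C).measurableSet (fun φ θ => ⟨fun h => ?_, fun h => ?_⟩) h5
  · have h6 := XX_inv om C h (kk (-θ))
    rwa [← (pre M).act_mul, ← kk_add, add_neg_cancel, kk_zero, (pre M).act_one] at h6
  · exact XX_inv om C h (kk θ)

end Pool.Agent.MP27775c.SR
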