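import Pool.Agent.Lib.MP_27775c_an_SR.FiB
import Pool.Agent.Lib.MP_27775c_an_SR.NaA
import Pool.Agent.Lib.MP_27775c_an_SR.NbC
import Pool.Agent.Lib.MP_27775c_an_SR.NbD

/-!
# MP_27775c_an, project SR, module Ma: all radii, one map
-/

set_option autoImplicit false

open MeasureTheory Set Filter Topology
open scoped Manifold ContDiff UpperHalfPlane

namespace Pool.Agent.MP27775c.SR

open Pool.Agent.MP27775c.DO

variable {E : Type*} [NormedAddCommGroup E] [NormedSpace ℂ E] [FiniteDimensional ℂ E]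
  {M : Type*} [TopologicalSpace M] [ChartedSpace E M]
  [IsManifold 𝓘(ℂ, E) 1 M] [CompactSpace M] [T2Space M] [MeasurableSpace C(ℍ, M)]
  [BorelSpace C(ℍ, M)]

private theorem ma_pt (t : ℝ) : aa t • UpperHalfPlane.I = pt 0 t := by
  have h0 : nn 0 = 1 := by
    ext i j
    fin_cases i <;> fin_cases j <;> simp [nn]
  rw [← pt_eq, h0, one_mul]

omit [CompactSpace M] [T2Space M] [MeasurableSpace C(ℍ, M)] [BorelSpace C(ℍ, M)]
  [FiniteDimensional ℂ E] [IsManifold 𝓘(ℂ, E) 1 M] [ChartedSpace E M] [NormedSpace ℂ E] in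
private theorem ma_ray (y : C(ℍ, M)) (x s : ℝ) :
    ray (pre M) y x s UpperHalfPlane.I = y (pt x s) := by
  show y ((nn x * aa s) • UpperHalfPlane.I) = y (pt x s)
  rw [pt_eq]

private theorem ma_setup {om : Form E M} (hom : om.Pos) {D : ℝ} (hD : 0 ≤ D) (θ : Form E M) :
    Setup (pre M) (XX om D) ((XX om D).indicator (FF θ))
      (fun ψ : C(ℍ, M) => ψ UpperHalfPlane.I) where
  comp := XX_comp hom D
  inv := fun y hy g => XX_inv om D hy g
  measF := (FF_meas θ).indicator (XX_closed om D).measurableSet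
  contF := (FF_contOn θ om D).congr fun y hy => indicator_of_mem hy _
  bddF := by
    obtain ⟨c, hc0, hc⟩ := exists_C hom θ
    refine ⟨c * D, fun y => ?_⟩
    by_cases hy : y ∈ XX om D
    · rw [indicator_of_mem hy]
      exact (FF_le hc y).trans (mul_le_mul_of_nonneg_left (FF_XX hy) hc0)
    · rw [indicator_of_notMem hy, abs_zero]
      exact mul_nonneg hc0 hD
  conte := continuous_eval_const _
  sep := by
    intro z hz z' hz' h
    refine DFunLike.coe_injective (hol_eq hz.1 hz'.1 fun t => ?_)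
    have h1 : z (aa t • UpperHalfPlane.I) = z' (aa t • UpperHalfPlane.I) := h t
    rwa [ma_pt] at h1

private theorem ma_kk (om : Form E M) (D : ℝ) (θ : Form E M) (y : C(ℍ, M)) (t : ℝ) :
    (XX om D).indicator (FF θ) ((pre M).act y (kk t)) = (XX om D).indicator (FF θ) y := by
  by_cases hy : y ∈ XX om D
  · rw [indicator_of_mem hy, indicator_of_mem (XX_inv om D hy (kk t)), FF_kk]
  · have hy' : (pre M).act y (kk t) ∉ XX om D := by
      intro h
      have h1 := XX_inv om D h (kk t)⁻¹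
      rw [← (pre M).act_mul, mul_inv_cancel, (pre M).act_one] at h1
      exact hy h1
    rw [indicator_of_notMem hy, indicator_of_notMem hy']

private theorem ma_shad {μ : Measure C(ℍ, M)} {φ : C(ℍ, M)} (hs : Shadowed μ φ) :
    ShadA (pre M) (fun ψ : C(ℍ, M) => ψ UpperHalfPlane.I) μ φ := by
  intro V hV B hB hB0 h0
  refine hs V hV B hB hB0 (measure_mono_null ?_ h0)
  rintro ψ ⟨S, hS1, hS2, hS3, b, c, hb, hc, hn, hcl⟩
  refine ⟨S, hS1, hS2, hS3, b, c, hb, hc, hn, fun x hx => ?_⟩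
  filter_upwards [hcl x hx] with s h
  show (ray (pre M) φ x s UpperHalfPlane.I, ray (pre M) ψ (b x) (c x + s) UpperHalfPlane.I) ∈ V
  rw [ma_ray, ma_ray]
  exact h

private theorem ma_bav {om : Form E M} (hom : om.Pos) {μ : Measure C(ℍ, M)}
    [IsProbabilityMeasure μ] (hH : IsHarm (pre M) μ) (hE : IsExt (pre M) μ)
    (hP : ¬ IsExc (pre M) μ) {D : ℝ} (hD : 0 ≤ D) (hX : ∀ᵐ ψ : C(ℍ, M) ∂μ, ψ ∈ XX om D)
    {φ : C(ℍ, M)} (hφ : φ ∈ XX om D) (hs : Shadowed μ φ) (θ : Form E M) :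
    Tendsto (fun R : ℝ => bav (pre M) R (FF θ) φ) atTop (𝓝 (∫ ψ, FF θ ψ ∂μ)) := by
  have hpol : PolishSpace C(ℍ, M) := polC E M
  have h1 := abs_main (pre M) hH hE hP (ma_setup hom hD θ) hX (ma_kk om D θ) hφ (ma_shad hs)
  have h2 : ∫ ψ, (XX om D).indicator (FF θ) ψ ∂μ = ∫ ψ, FF θ ψ ∂μ :=
    integral_congr_ae (hX.mono fun ψ hψ => indicator_of_mem hψ _)
  rw [h2] at h1
  refine h1.congr fun R => ?_
  have h3 : ∀ z : ℍ, (XX om D).indicator (FF θ) ((pre M).act φ (pp z)) =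
      FF θ ((pre M).act φ (pp z)) := fun z => indicator_of_mem (XX_inv om D hφ (pp z)) _
  unfold bav
  simp only [h3]

/-- Proof. Replace the constants by a common `C ≥ 0`: `X = XX om C`, `X` contains `φ` and it is
full (`XX_full`). For a form `θ` let `F = X.indicator (FF θ)`: measurable (`FF_meas`, `XX_closed`),
bounded (`exists_C`, `FF_le`, `FF_XX`, `0 ≤ FF om` on `X`), continuous on `X` (`FF_contOn`);
`e φ = φ i` is continuous; `sep` is `hol_eq` (`(aa t) • i = i e ^ t`: `pt_eq` with `nn 0 = 1`). So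
`Setup (pre M) X F e`. `F` is invariant under rotations (`FF_kk`, `XX_inv`). `ShadA` for `e` is
`Shadowed` (`pt_eq`). `abs_main` gives `bav (pre M) R F φ → ∫ F ∂μ`; on the orbit of `φ ∈ X`, `F` is
`FF θ`, and `∫ F ∂μ = ∫ FF θ ∂μ = cur μ θ` (`cur_FF`). The same for `om`, and `cur μ om > 0`
(`cur_pos`); `sigma_FF` and division. -/
theorem main1 {om : Form E M} (hom : om.Pos) {μ : Measure C(ℍ, M)} [IsProbabilityMeasure μ]
    (hμ : ∀ᵐ φ : C(ℍ, M) ∂μ, Hol E φ ∧
      mfderiv 𝓘(ℂ) 𝓘(ℂ, E) φ UpperHalfPlane.I (1 : ℂ) ≠ 0)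
    (hH : IsHarm (pre M) μ) (hE : IsExt (pre M) μ) {C : ℝ}
    (hB : ∀ᵐ φ : C(ℍ, M) ∂μ, om.val (vel φ UpperHalfPlane.I) ≤ C) (hP : ¬ IsExc (pre M) μ)
    {φ : C(ℍ, M)} (hφ : Hol E φ) {C' : ℝ} (hC' : ∀ z : ℍ, z.im ^ 2 * om.val (vel φ z) ≤ C')
    (hs : Shadowed μ φ) (θ : Form E M) :
    Tendsto (sigma om θ φ) atTop (𝓝 (cur μ θ / cur μ om)) := by
  obtain ⟨D, hD⟩ : ∃ D : ℝ, D = max (max C C') 0 := ⟨_, rfl⟩
  have hD0 : 0 ≤ D := by
    rw [hD]
    exact le_max_right _ _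
  have hD1 : C ≤ D := by
    rw [hD]
    exact (le_max_left _ _).trans (le_max_left _ _)
  have hD2 : C' ≤ D := by
    rw [hD]
    exact (le_max_right _ _).trans (le_max_left _ _)
  have hHol : ∀ᵐ φ : C(ℍ, M) ∂μ, Hol E φ := hμ.mono fun _ h => h.1
  have hX : ∀ᵐ ψ : C(ℍ, M) ∂μ, ψ ∈ XX om D :=
    XX_full hH hE hHol (hB.mono fun _ h => h.trans hD1)
  have hφX : φ ∈ XX om D := ⟨hφ, fun z => (hC' z).trans hD2⟩
  have h1 := ma_bav hom hH hE hP hD0 hX hφX hs θ
  have h2 := ma_bav hom hH hE hP hD0 hX hφX hs om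
  rw [← cur_FF hHol θ] at h1
  rw [← cur_FF hHol om] at h2
  obtain ⟨c, hc0, hc⟩ := exists_C hom om
  have hi0 : Integrable (FF om) μ := by
    refine Integrable.of_bound (FF_meas om).aestronglyMeasurable (c * D) ?_
    filter_upwards [hX] with ψ hψ
    rw [Real.norm_eq_abs]
    exact (FF_le hc ψ).trans (mul_le_mul_of_nonneg_left (FF_XX hψ) hc0)
  have hi : Integrable (fun φ : C(ℍ, M) => om.val (vel φ UpperHalfPlane.I)) μ := by
    refine hi0.congr ?_
    filter_upwards [hHol] with ψ hψ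
    unfold FF
    rw [if_pos hψ]
  have hpos := cur_pos hμ hom hi
  refine (h1.div h2 hpos.ne').congr' ?_
  filter_upwards [eventually_gt_atTop 0] with R hR
  exact (sigma_FF om θ hφ hR).symm

end Pool.Agent.MP27775c.SR
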