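import Pool.Agent.Lib.MP_27775c_an_SR.Ma

/-!
# MP_27775c_an, project SR, module Mb: the main theorem
-/

set_option autoImplicit false

open MeasureTheory Set Filter Topology
open scoped Manifold ContDiff UpperHalfPlane

namespace Pool.Agent.MP27775c.SR

open Pool.Agent.MP27775c.DO

variable {E : Type*} [NormedAddCommGroup E] [NormedSpace ℂ E] [FiniteDimensional ℂ E]
  {M : Type*} [TopologicalSpace M] [ChartedSpace E M]
  [IsManifold 𝓘(ℂ, E) 1 M] [CompactSpace M] [T2Space M] [MeasurableSpace M] [BorelSpace M]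
  [MeasurableSpace C(ℍ, M)] [BorelSpace C(ℍ, M)]

private theorem densOne_univ : DensOne (univ : Set ℝ) := by
  refine ⟨MeasurableSet.univ, ?_⟩
  refine (tendsto_congr' ?_).2 tendsto_const_nhds
  filter_upwards [eventually_gt_atTop (0 : ℝ)] with S hS
  rw [univ_inter, Real.volume_Ioc, sub_zero, ENNReal.toReal_ofReal hS.le, div_self hS.ne']

/-- Proof. First part: `main1`, for `φ` as an element of `C(ℍ, M)`. Second part, `→`: almost every
`φ` is a universal covering with bounded derivative (`XX_full`) and shadowed, so `main1` applies;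
then as in the proof of `main` in `DO/Fin.lean` (`ae_image`, `univ_unique`, `sigma_rot`). `←`:
`main_iff` with `D = univ` (`DensOne univ`; `atTop ⊓ 𝓟 univ = atTop`); the integrability follows
from the bound (`FF_meas`, `FF = om.val (vel φ i)`). -/
theorem main2 (F : Foliation E M) {om : Form E M} (hom : om.Pos) {μ : Measure C(ℍ, M)}
    [IsProbabilityMeasure μ] (hX : ∀ᵐ φ : C(ℍ, M) ∂μ, IsUniv F φ)
    (hH : IsHarm (pre M) μ) (hE : IsExt (pre M) μ) {C : ℝ}
    (hB : ∀ᵐ φ : C(ℍ, M) ∂μ, om.val (vel φ UpperHalfPlane.I) ≤ C) :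
    (¬ IsExc (pre M) μ → ∀ φ : ℍ → M, Hol E φ →
      (∃ C', ∀ z : ℍ, z.im ^ 2 * om.val (vel φ z) ≤ C') → Shadowed μ φ → ∀ θ : Form E M,
        Tendsto (sigma om θ φ) atTop (𝓝 (cur μ θ / cur μ om))) ∧
    ((∀ᵐ φ : C(ℍ, M) ∂μ, Shadowed μ φ) → (¬ IsExc (pre M) μ ↔
      ∀ᵐ a ∂(μ.map fun φ : C(ℍ, M) => φ UpperHalfPlane.I),
        ∀ φ : ℍ → M, IsUniv F φ → φ UpperHalfPlane.I = a → ∀ θ : Form E M,
          Tendsto (sigma om θ φ) atTop (𝓝 (cur μ θ / cur μ om)))) := by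
  have hμ : ∀ᵐ φ : C(ℍ, M) ∂μ, Hol E φ ∧
      mfderiv 𝓘(ℂ) 𝓘(ℂ, E) φ UpperHalfPlane.I (1 : ℂ) ≠ 0 := by
    filter_upwards [hX] with φ hφ using ⟨hφ.1.1, hφ.2.1 _⟩
  have hμ' : ∀ᵐ φ : C(ℍ, M) ∂μ, Hol E φ := by
    filter_upwards [hX] with φ hφ using hφ.1.1
  refine ⟨fun hP φ hφ hC hs θ => ?_, fun hS => ⟨fun hP => ?_, fun h => ?_⟩⟩
  · obtain ⟨C', hC'⟩ := hC
    exact main1 hom hμ hH hE hB hP (φ := ⟨φ, hφ.continuous⟩) hφ hC' hs θ
  · have hpol : PolishSpace C(ℍ, M) := polC E M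
    have h1 : ∀ᵐ φ : C(ℍ, M) ∂μ, IsUniv F φ ∧ ∀ θ : Form E M,
        Tendsto (sigma om θ φ) atTop (𝓝 (cur μ θ / cur μ om)) := by
      filter_upwards [hX, hS, XX_full hH hE hμ' hB] with φ h h' h''
      exact ⟨h, fun θ => main1 hom hμ hH hE hB hP h''.1 h''.2 h' θ⟩
    have hev : Continuous fun φ : C(ℍ, M) => φ UpperHalfPlane.I :=
      continuous_eval_const _
    filter_upwards [ae_image hev h1] with a ha
    obtain ⟨φ, rfl, hφ, hθ⟩ := ha
    intro φ' hφ' he θ
    obtain ⟨t, ht⟩ := univ_unique hφ hφ' he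
    have h2 : φ' = fun z => φ (kk t • z) := funext ht
    rw [h2]
    have h3 : sigma om θ (fun z => φ (kk t • z)) = sigma om θ φ := by
      funext R
      exact sigma_rot om θ hφ.1.1 t R
    rw [h3]
    exact hθ θ
  · have h0 : (fun φ : C(ℍ, M) => om.val (vel φ UpperHalfPlane.I)) =ᵐ[μ] FF om := by
      filter_upwards [hμ'] with φ hφ
      unfold FF
      rw [if_pos hφ]
    have hi : Integrable (fun φ : C(ℍ, M) => om.val (vel φ UpperHalfPlane.I)) μ := by
      refine Integrable.of_bound (C := C)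
        (((FF_meas om).aestronglyMeasurable).congr h0.symm) ?_
      filter_upwards [hB, hX] with φ h1 h2
      rw [Real.norm_eq_abs, abs_of_nonneg]
      · exact h1
      · exact (hom _ _ (h2.2.1 UpperHalfPlane.I)).le
    refine (main_iff F hom hX hH hE hi).1.2 ?_
    filter_upwards [h] with a ha
    refine ⟨univ, densOne_univ, fun φ hφ he θ => ?_⟩
    rw [principal_univ, inf_top_eq]
    exact ha φ hφ he θ

end Pool.Agent.MP27775c.SR
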