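import Pool.Agent.Lib.MP_27775c_an_SR.SuD

/-!
# MP_27775c_an, project SR, module SuP: stable leaves in the support are shadowed
-/

set_option autoImplicit false

open MeasureTheory Set Filter Topology
open scoped Manifold ContDiff UpperHalfPlane

namespace Pool.Agent.MP27775c.SR

open Pool.Agent.MP27775c.DO

private theorem sup_cont_pt (s : ℝ) : Continuous fun x : ℝ => pt x s := by
  rw [UpperHalfPlane.isEmbedding_coe.continuous_iff]
  have h : ((fun z : ℍ => (z : ℂ)) ∘ fun x : ℝ => pt x s) =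
      fun x : ℝ => (x : ℂ) + (Real.exp s : ℂ) * Complex.I := by
    funext x
    show (⟨x, Real.exp s⟩ : ℂ) = _
    apply Complex.ext
    · simp
    · rw [Complex.add_im, Complex.ofReal_im, Complex.im_ofReal_mul, Complex.I_im, zero_add,
        mul_one]
  have h2 : Continuous fun x : ℝ => (x : ℂ) + (Real.exp s : ℂ) * Complex.I := by fun_prop
  rw [← h] at h2
  exact h2

variable {E : Type*} [NormedAddCommGroup E] [NormedSpace ℂ E] [FiniteDimensional ℂ E]
  {M : Type*} [TopologicalSpace M] [ChartedSpace E M]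
  [IsManifold 𝓘(ℂ, E) 1 M] [CompactSpace M] [T2Space M] [MeasurableSpace C(ℍ, M)]
  {Z : Type*} [TopologicalSpace Z] [CompactSpace Z] [SecondCountableTopology Z]

/-- Proof. Let `V`, `B` be given, `V₁` as in `susp_close`, `A b` the set of the `x` such that
for all `v' ∈ b` the pair at `s` is in `V₁` for `s` near `-∞`. As almost every `x` lies in `A b` for
some `b` of the countable basis with `v ∈ b`, there is `b` such that `B ∩ bm g ⁻¹' A b` is not null.
For `v' ∈ b` it is contained in `B ∩ bm g ⁻¹' S v'` with the Borel set `S v'` of the `x` such that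
the pair at `s` is in `V₁` for `s` near `-∞`. Use `susp_close` for `S v'`. -/
theorem susp_shad_pt {F : Foliation E M} {P : ℍ × Z → M} (hP : Susp F P) {μ : Measure C(ℍ, M)}
    {v : Z} (hch : Charged μ P v) (hl : ∀ᵐ x : ℝ, Stab P v x) (g : G) :
    Shadowed μ fun z : ℍ => P (g • z, v) := by
  intro V hV B hB hB0
  obtain ⟨V₁, hV₁, hcl, hclose⟩ := susp_close hP hV
  obtain ⟨S, hS⟩ : ∃ S : Z → Set ℝ, S = fun v' =>
    {x : ℝ | ∀ᶠ s in atBot, (P (pt x s, v), P (pt x s, v')) ∈ V₁} := ⟨_, rfl⟩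
  have hSm : ∀ v', MeasurableSet (S v') := by
    intro v'
    have e : S v' = ⋃ n : ℕ, ⋂ s : ℝ, ⋂ (_ : s ≤ -(n : ℝ)),
        (fun x : ℝ => (P (pt x s, v), P (pt x s, v'))) ⁻¹' V₁ := by
      rw [hS]
      ext x
      simp only [mem_ofPred_eq, mem_iUnion, mem_iInter, mem_preimage]
      rw [eventually_atBot]
      constructor
      · rintro ⟨a, ha⟩
        obtain ⟨n, hn⟩ := exists_nat_ge (-a)
        exact ⟨n, fun s hs => ha s (by linarith)⟩
      · rintro ⟨n, hn⟩
        exact ⟨-(n : ℝ), fun s hs => hn s hs⟩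
    rw [e]
    refine MeasurableSet.iUnion fun n => IsClosed.measurableSet ?_
    refine isClosed_iInter fun s => isClosed_iInter fun _ => ?_
    apply hcl.preimage
    have hc : ∀ u : Z, Continuous fun x : ℝ => P (pt x s, u) := by
      intro u
      have h4 : Continuous fun x : ℝ => (pt x s, u) := (sup_cont_pt s).prodMk continuous_const
      exact hP.cont.comp h4
    exact (hc v).prodMk (hc v')
  have h4 : ∀ᵐ x : ℝ, ∃ b ∈ TopologicalSpace.countableBasis Z, v ∈ b ∧
      x ∈ {x : ℝ | ∀ v' ∈ b, x ∈ S v'} := by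
    filter_upwards [hl] with x hx
    obtain ⟨U, hU, hUx⟩ := hx V₁ hV₁
    obtain ⟨b, hb, hvb, hbU⟩ :=
      (TopologicalSpace.isBasis_countableBasis Z).mem_nhds_iff.1 hU
    refine ⟨b, hb, hvb, ?_⟩
    intro v' hv'
    rw [hS]
    exact hUx v' (hbU hv')
  have h5 : volume (bm g ⁻¹' {x : ℝ | ¬ ∃ b ∈ TopologicalSpace.countableBasis Z,
      v ∈ b ∧ x ∈ {x : ℝ | ∀ v' ∈ b, x ∈ S v'}}) = 0 := bm_ns g _ (ae_iff.1 h4)
  obtain ⟨b, hb, hvb, hne⟩ : ∃ b ∈ TopologicalSpace.countableBasis Z, v ∈ b ∧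
      volume (B ∩ bm g ⁻¹' {x : ℝ | ∀ v' ∈ b, x ∈ S v'}) ≠ 0 := by
    by_contra hcon
    push Not at hcon
    apply hB0
    have h6 : volume (⋃ b ∈ {b | b ∈ TopologicalSpace.countableBasis Z ∧ v ∈ b},
        B ∩ bm g ⁻¹' {x : ℝ | ∀ v' ∈ b, x ∈ S v'}) = 0 := by
      rw [measure_biUnion_null_iff
        ((TopologicalSpace.countable_countableBasis Z).mono fun b hb => hb.1)]
      intro b hb
      exact hcon b hb.1 hb.2
    refine measure_mono_null ?_ (measure_union_null h5 h6)
    intro x hx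
    by_cases h7 : ∃ b ∈ TopologicalSpace.countableBasis Z, v ∈ b ∧
        bm g x ∈ {x : ℝ | ∀ v' ∈ b, x ∈ S v'}
    · right
      obtain ⟨b, hb, hvb, hxb⟩ := h7
      exact mem_biUnion (x := b) ⟨hb, hvb⟩ ⟨hx, hxb⟩
    · left
      exact h7
  have h8 := hch b ((TopologicalSpace.isOpen_of_mem_countableBasis hb).mem_nhds hvb)
  intro h9
  apply h8
  refine measure_mono_null ?_ h9
  intro ψ hψ
  obtain ⟨h, v', hv', hψ'⟩ := hψ
  have hne' : volume (B ∩ bm g ⁻¹' S v') ≠ 0 := by
    intro h0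
    exact hne (measure_mono_null (inter_subset_inter_right _
      (preimage_mono fun x hx => hx v' hv')) h0)
  obtain ⟨E', hE', hEm, hE0, hcl'⟩ := hclose g h v v' B (S v') hB (hSm v') hne'
    (fun x hx => by
      rw [hS] at hx
      exact hx)
  refine ⟨E', hE', hEm, hE0, ?_⟩
  have e2 : (ψ : ℍ → M) = fun z => P (h • z, v') := funext hψ'
  rw [e2]
  exact hcl'

end Pool.Agent.MP27775c.SR
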