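import Pool.Agent.Lib.MP_27775c_an_SR.SuC
import Pool.Agent.Lib.MP_27775c_an_SR.SuP

/-!
# MP_27775c_an, project SR, module SuE: stable suspensions are shadowed
-/

set_option autoImplicit false

open MeasureTheory Set Filter Topology
open scoped Manifold ContDiff UpperHalfPlane

namespace Pool.Agent.MP27775c.SR

open Pool.Agent.MP27775c.DO

variable {E : Type*} [NormedAddCommGroup E] [NormedSpace ℂ E] [FiniteDimensional ℂ E]
  {M : Type*} [TopologicalSpace M] [ChartedSpace E M]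
  [IsManifold 𝓘(ℂ, E) 1 M] [CompactSpace M] [T2Space M] [MeasurableSpace C(ℍ, M)]
  {Z : Type*} [TopologicalSpace Z] [CompactSpace Z] [SecondCountableTopology Z]

omit [CompactSpace Z] in
/-- Almost every leaf is in the support. Proof: let `b` run through a countable basis; the set of
the universal coverings of the leaves of the points of `b` is null, or it is not null. -/
theorem charged_ae (μ : Measure C(ℍ, M)) (P : ℍ × Z → M) :
    ∀ᵐ φ : C(ℍ, M) ∂μ, ∀ v : Z, (∃ g : G, ∀ z, φ z = P (g • z, v)) → Charged μ P v := by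
  obtain ⟨A, hA⟩ : ∃ A : Set Z → Set C(ℍ, M), A = fun b =>
    {φ : C(ℍ, M) | ∃ g : G, ∃ v ∈ b, ∀ z, φ z = P (g • z, v)} := ⟨_, rfl⟩
  have h2 : ∀ᵐ φ : C(ℍ, M) ∂μ, ∀ b ∈ TopologicalSpace.countableBasis Z,
      φ ∈ A b → μ (A b) ≠ 0 := by
    rw [ae_ball_iff (TopologicalSpace.countable_countableBasis Z)]
    intro b hb
    by_cases h0 : μ (A b) = 0
    · filter_upwards [measure_eq_zero_iff_ae_notMem.1 h0] with φ hφ hφ'
      exact absurd hφ' hφ
    · exact ae_of_all _ fun φ _ => h0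
  filter_upwards [h2] with φ h v hv U hU
  obtain ⟨b, hb, hvb, hbU⟩ := (TopologicalSpace.isBasis_countableBasis Z).mem_nhds_iff.1 hU
  obtain ⟨g, hg⟩ := hv
  have h3 := h b hb (by
    rw [hA]
    exact ⟨g, v, hvb, hg⟩)
  intro h0
  refine h3 (measure_mono_null ?_ h0)
  rw [hA]
  rintro ψ ⟨g', v', hv', hψ⟩
  exact ⟨g', v', hbU hv', hψ⟩

/-- Proof: `charged_ae`, `susp_form`, `susp_shad_pt`. -/
theorem susp_shad {F : Foliation E M} {P : ℍ × Z → M} (hP : Susp F P) {μ : Measure C(ℍ, M)}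
    (hX : ∀ᵐ φ : C(ℍ, M) ∂μ, IsUniv F φ) (hs : StabT μ P) :
    ∀ᵐ φ : C(ℍ, M) ∂μ, Shadowed μ φ := by
  filter_upwards [hX, charged_ae μ P, hs] with φ h1 h2 h3
  obtain ⟨g, v, hφ⟩ := susp_form hP h1
  have e : (φ : ℍ → M) = fun z => P (g • z, v) := funext hφ
  rw [e]
  exact susp_shad_pt hP (h2 v ⟨g, hφ⟩) (h3 v ⟨g, hφ⟩) g

end Pool.Agent.MP27775c.SR
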