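import Pool.Agent.Lib.MP_27775c_an_SR.Mb
import Pool.Agent.Lib.MP_27775c_an_SR.SuE

/-!
# MP_27775c_an, project SR, module Mc: the theorem for suspensions
-/

set_option autoImplicit false

open MeasureTheory Set Filter Topology
open scoped Manifold ContDiff UpperHalfPlane

namespace Pool.Agent.MP27775c.SR

open Pool.Agent.MP27775c.DO

variable {E : Type*} [NormedAddCommGroup E] [NormedSpace ℂ E] [FiniteDimensional ℂ E]
  {M : Type*} [TopologicalSpace M] [ChartedSpace E M]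
  [IsManifold 𝓘(ℂ, E) 1 M] [CompactSpace M] [T2Space M] [MeasurableSpace M] [BorelSpace M]
  [MeasurableSpace C(ℍ, M)] [BorelSpace C(ℍ, M)]
  {Z : Type*} [TopologicalSpace Z] [CompactSpace Z] [SecondCountableTopology Z]

/-- Proof: `main2`, with `susp_brody` and `susp_shad`. -/
theorem main3 {F : Foliation E M} {P : ℍ × Z → M} (hP : Susp F P) {om : Form E M}
    (hom : om.Pos) {μ : Measure C(ℍ, M)} [IsProbabilityMeasure μ]
    (hX : ∀ᵐ φ : C(ℍ, M) ∂μ, IsUniv F φ) (hH : IsHarm (pre M) μ) (hE : IsExt (pre M) μ)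
    (hs : StabT μ P) :
    ¬ IsExc (pre M) μ ↔
      ∀ᵐ a ∂(μ.map fun φ : C(ℍ, M) => φ UpperHalfPlane.I),
        ∀ φ : ℍ → M, IsUniv F φ → φ UpperHalfPlane.I = a → ∀ θ : Form E M,
          Tendsto (sigma om θ φ) atTop (𝓝 (cur μ θ / cur μ om)) := by
  obtain ⟨C, hC⟩ := susp_brody hP om
  exact (main2 F hom hX hH hE (C := C) (hX.mono fun φ h => hC φ h)).2 (susp_shad hP hX hs)

end Pool.Agent.MP27775c.SR
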