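import Pool.Agent.Lib.MP_27775c_an_SR.Md
import Pool.Agent.Lib.MP_27775c_an_SR.SuP
import Pool.Agent.Lib.MP_27775c_an_SR.DefR

/-!
# MP_27775c_an, project SR, module Me: every stable leaf in the support
-/

set_option autoImplicit false

open MeasureTheory Set Filter Topology
open scoped Manifold ContDiff UpperHalfPlane

namespace Pool.Agent.MP27775c.SR

open Pool.Agent.MP27775c.DO

variable {E : Type*} [NormedAddCommGroup E] [NormedSpace ℂ E] [FiniteDimensional ℂ E]
  {M : Type*} [TopologicalSpace M] [ChartedSpace E M]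
  [IsManifold 𝓘(ℂ, E) 1 M] [CompactSpace M] [T2Space M] [MeasurableSpace M] [BorelSpace M]
  [MeasurableSpace C(ℍ, M)] [BorelSpace C(ℍ, M)]
  {Z : Type*} [TopologicalSpace Z] [CompactSpace Z] [SecondCountableTopology Z]

/-- A bound for the derivatives of all universal coverings at `i` gives a bound at all points. -/
private theorem me_bound {F : Foliation E M} {om : Form E M} {C : ℝ}
    (hC : ∀ φ : ℍ → M, IsUniv F φ → om.val (vel φ UpperHalfPlane.I) ≤ C) {φ : ℍ → M}
    (h : IsUniv F φ) (z : ℍ) : z.im ^ 2 * om.val (vel φ z) ≤ C := by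
  have h1 := hC _ (univ_act h (pp z))
  have h2 := val_act om h.1.1 (pp z) UpperHalfPlane.I
  rw [pp_smul, UpperHalfPlane.I_im, one_pow, one_mul] at h2
  rw [← h2]
  exact h1

/-- Proof: `susp_not_exc`, `main2`, `susp_shad_pt`. -/
theorem main5 {F : Foliation E M} {P : ℍ × Z → M} (hP : Susp F P) (hi : InjP P)
    {om : Form E M} (hom : om.Pos) {μ : Measure C(ℍ, M)} [IsProbabilityMeasure μ]
    (hX : ∀ᵐ φ : C(ℍ, M) ∂μ, IsUniv F φ) (hH : IsHarm (pre M) μ) (hE : IsExt (pre M) μ)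
    (hc : ContrT μ P) :
    (∀ v : Z, Charged μ P v → (∀ᵐ x : ℝ, Stab P v x) → ∀ (g : G) (θ : Form E M),
      Tendsto (sigma om θ fun z => P (g • z, v)) atTop (𝓝 (cur μ θ / cur μ om))) ∧
    AllR F om μ := by
  obtain ⟨C, hC⟩ := susp_brody hP om
  have h4 := main4 hP hom hX hH hE (stabT_of_contrT hc)
  have hn := h4.2 hi hc
  refine ⟨fun v hv hl g θ => ?_, h4.1.1 hn⟩
  have h2 := (main2 F hom hX hH hE (C := C) (hX.mono fun φ h => hC φ h)).1 hn
  have hu : IsUniv F fun z : ℍ => P (g • z, v) := univ_act (hP.univ v) g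
  exact h2 _ hu.1.1 ⟨C, me_bound hC hu⟩ (susp_shad_pt hP hv hl g) θ

end Pool.Agent.MP27775c.SR
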