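import Pool.Agent.Lib.MP_27775c_an_SR.Bas

/-!
# MP_27775c_an, project SR, module MoA: Moebius maps pull null sets back to null sets
-/

set_option autoImplicit false

open MeasureTheory Set Filter Topology
open scoped Manifold ContDiff UpperHalfPlane

namespace Pool.Agent.MP27775c.SR

open Pool.Agent.MP27775c.DO

/-- Proof. It suffices to treat Borel null sets `Z` (`toMeasurable`). If `g 1 0 = 0` the map is
affine with slope `g 1 1 / g 0 0 ≠ 0`. Otherwise apply `nonsing` to `p = fun q => q.1 ∉ Z`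
(`p` holds almost everywhere in the plane: Fubini, `Measure.prod`), and Fubini again. (Or directly:
on each of the two half lines the map is injective and it has the derivative
`1 / (g 0 0 - g 1 0 * x) ^ 2 ≠ 0`; the inverse map is smooth, and smooth maps send null sets to null
sets: `MeasureTheory.addHaar_image_eq_zero_of_differentiableOn_of_addHaar_eq_zero`. The preimage of
`Z` is contained in the image of `Z` under the inverse `u ↦ (g 0 0 * u + g 0 1) / (g 1 0 * u +
g 1 1)`, where `g 1 0 * u + g 1 1 ≠ 0`.) -/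
theorem moeb_ns (g : G) (Z : Set ℝ) (hZ : volume Z = 0) :
    volume ({x : ℝ | g 0 0 - g 1 0 * x ≠ 0} ∩
      (fun x : ℝ => (g 1 1 * x - g 0 1) / (g 0 0 - g 1 0 * x)) ⁻¹' Z) = 0 := by
  have hdet : g 0 0 * g 1 1 - g 0 1 * g 1 0 = 1 := by
    have := g.det_coe
    rwa [Matrix.det_fin_two] at this
  have hZ' : volume (Z ∩ {u : ℝ | g 1 0 * u + g 1 1 ≠ 0}) = 0 :=
    measure_mono_null inter_subset_left hZ
  have hdiff : DifferentiableOn ℝ (fun u : ℝ => (g 0 0 * u + g 0 1) / (g 1 0 * u + g 1 1))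
      (Z ∩ {u : ℝ | g 1 0 * u + g 1 1 ≠ 0}) := by
    intro u hu
    have h1 : g 1 0 * u + g 1 1 ≠ 0 := hu.2
    apply DifferentiableAt.differentiableWithinAt
    exact DifferentiableAt.div (by fun_prop) (by fun_prop) h1
  have h0 := addHaar_image_eq_zero_of_differentiableOn_of_addHaar_eq_zero volume hdiff hZ'
  refine measure_mono_null ?_ h0
  rintro x ⟨hx, hxZ⟩
  have hx' : g 0 0 - g 1 0 * x ≠ 0 := hx
  have e1 : g 1 0 * ((g 1 1 * x - g 0 1) / (g 0 0 - g 1 0 * x)) + g 1 1 =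
      1 / (g 0 0 - g 1 0 * x) := by
    rw [eq_div_iff hx', add_mul, mul_assoc, div_mul_cancel₀ _ hx']
    linear_combination hdet
  have e2 : g 0 0 * ((g 1 1 * x - g 0 1) / (g 0 0 - g 1 0 * x)) + g 0 1 =
      x / (g 0 0 - g 1 0 * x) := by
    rw [eq_div_iff hx', add_mul, mul_assoc, div_mul_cancel₀ _ hx']
    linear_combination x * hdet
  refine ⟨(g 1 1 * x - g 0 1) / (g 0 0 - g 1 0 * x), ⟨hxZ, ?_⟩, ?_⟩
  · change g 1 0 * ((g 1 1 * x - g 0 1) / (g 0 0 - g 1 0 * x)) + g 1 1 ≠ 0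
    rw [e1]
    exact one_div_ne_zero hx'
  · change (g 0 0 * ((g 1 1 * x - g 0 1) / (g 0 0 - g 1 0 * x)) + g 0 1) /
      (g 1 0 * ((g 1 1 * x - g 0 1) / (g 0 0 - g 1 0 * x)) + g 1 1) = x
    rw [e1, e2, div_div_div_cancel_right₀ hx', div_one]

end Pool.Agent.MP27775c.SR
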