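import Pool.Agent.Lib.MP_27775c_an_SR.MoA
import Pool.Agent.Lib.MP_27775c_an_SR.UnA

/-!
# MP_27775c_an, project SR, module MoB: the rays of the points of one orbit
-/

set_option autoImplicit false

open MeasureTheory Set Filter Topology
open scoped Manifold ContDiff UpperHalfPlane

namespace Pool.Agent.MP27775c.SR

open Pool.Agent.MP27775c.DO

variable {Y : Type*} [TopologicalSpace Y] [PolishSpace Y] [MeasurableSpace Y] [BorelSpace Y]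
  (A : RAct Y)

/-- Proof. Let `h = g⁻¹`, `b x = (h 1 1 * x - h 0 1) / (h 0 0 - h 1 0 * x)`,
`c x = -Real.log ((h 0 0 - h 1 0 * x) ^ 2)`: measurable; `moeb_ns` for `h`. Let `x ∈ E`. By
`pair_eq` for `h` and `A.act_neg`, with `y' = A.act y g`, `A.act y' h = y`,
`A.act (ray A y' x t) (oo (exp t * h 1 0 / (h 0 0 - h 1 0 * x))) = A.act y' (h * nn (b x) *
aa (t - log (..))) = ray A y (b x) (c x + t)`. For `t → -∞` the argument of `oo` tends to zero and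
`unif_path` with `c = oo`, `ray A y' x t ∈ X`, gives the estimate. -/
theorem fclose_act {X : Set Y} {F : Y → ℝ} {M : Type*} [TopologicalSpace M] {e : Y → M}
    (hS : Setup A X F e) {y : Y} (hy : y ∈ X) (g : G) {η : ℝ} (hη : 0 < η) :
    FClose A F η (A.act y g) y {x : ℝ | g⁻¹ 0 0 - g⁻¹ 1 0 * x ≠ 0} := by
  refine ⟨fun x => (g⁻¹ 1 1 * x - g⁻¹ 0 1) / (g⁻¹ 0 0 - g⁻¹ 1 0 * x),
    fun x => -Real.log ((g⁻¹ 0 0 - g⁻¹ 1 0 * x) ^ 2), by fun_prop, by fun_prop,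
    fun Z hZ => moeb_ns g⁻¹ Z hZ, fun x hx => ?_⟩
  obtain ⟨δ, hδ, hu⟩ := unif_path A hS.comp hS.inv hS.contF continuous_oo oo_zero hη
  have ht : Tendsto (fun s : ℝ => Real.exp s * g⁻¹ 1 0 / (g⁻¹ 0 0 - g⁻¹ 1 0 * x)) atBot
      (𝓝 0) := by
    have h1 := (Real.tendsto_exp_atBot.mul_const (g⁻¹ 1 0)).div_const (g⁻¹ 0 0 - g⁻¹ 1 0 * x)
    rwa [zero_mul, zero_div] at h1
  have ht2 := ht.abs
  rw [abs_zero] at ht2
  filter_upwards [ht2.eventually (gt_mem_nhds hδ)] with s hs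
  have hz : ray A (A.act y g) x s ∈ X := hS.inv _ (hS.inv _ hy _) _
  have h2 := hu _ hz _ (le_of_lt hs)
  have h3 : A.act (ray A (A.act y g) x s)
      (oo (Real.exp s * g⁻¹ 1 0 / (g⁻¹ 0 0 - g⁻¹ 1 0 * x))) =
      ray A y ((g⁻¹ 1 1 * x - g⁻¹ 0 1) / (g⁻¹ 0 0 - g⁻¹ 1 0 * x))
        (-Real.log ((g⁻¹ 0 0 - g⁻¹ 1 0 * x) ^ 2) + s) := by
    unfold ray
    rw [← A.act_mul]
    have h4 : A.act (A.act y g) (nn x * aa s *
        oo (Real.exp s * g⁻¹ 1 0 / (g⁻¹ 0 0 - g⁻¹ 1 0 * x))) = A.act (A.act y g)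
        (g⁻¹ * nn ((g⁻¹ 1 1 * x - g⁻¹ 0 1) / (g⁻¹ 0 0 - g⁻¹ 1 0 * x)) *
          aa (s - Real.log ((g⁻¹ 0 0 - g⁻¹ 1 0 * x) ^ 2))) := by
      rcases pair_eq g⁻¹ x s hx with h5 | h5
      · rw [h5]
      · rw [h5, A.act_neg]
    rw [h4, ← A.act_mul, ← mul_assoc, ← mul_assoc, mul_inv_cancel, one_mul, neg_add_eq_sub]
  rw [h3] at h2
  rw [abs_sub_comm]
  exact h2

end Pool.Agent.MP27775c.SR
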