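import Pool.Agent.Lib.MP_27775c_an_SR.Bas

/-!
# MP_27775c_an, project SR, module NbA: maps with bounded derivative
-/

set_option autoImplicit false

open MeasureTheory Set Filter Topology
open scoped Manifold ContDiff UpperHalfPlane

namespace Pool.Agent.MP27775c.SR

open Pool.Agent.MP27775c.DO

variable {E : Type*} [NormedAddCommGroup E] [NormedSpace ℂ E] [FiniteDimensional ℂ E]
  {M : Type*} [TopologicalSpace M] [ChartedSpace E M]
  [IsManifold 𝓘(ℂ, E) 1 M] [CompactSpace M] [T2Space M]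

/-- The holomorphic maps whose derivative, for the Poincaré metric and the form `om`, is bounded by
`C`. -/
def XX (om : Form E M) (C : ℝ) : Set C(ℍ, M) :=
  {φ | Hol E φ ∧ ∀ z : ℍ, z.im ^ 2 * om.val (vel φ z) ≤ C}

/-- Proof: `closed_hol`, `cont_vel`, `om.continuous_val`: in the closure of `XX om C` the map is
holomorphic, and `φ ↦ z.im ^ 2 * om.val (vel φ z)` is continuous on the holomorphic maps. -/
theorem XX_closed (om : Form E M) (C : ℝ) : IsClosed (XX om C) := by
  have h1 : ∀ z : ℍ, IsClosed ({φ : C(ℍ, M) | Hol E φ} ∩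
      (fun φ : C(ℍ, M) => z.im ^ 2 * om.val (vel φ z)) ⁻¹' Iic C) := by
    intro z
    have h2 : ContinuousOn (fun φ : C(ℍ, M) => z.im ^ 2 * om.val (vel φ z))
        {φ : C(ℍ, M) | Hol E φ} :=
      continuousOn_const.mul (om.continuous_val.comp_continuousOn (cont_vel z))
    exact h2.preimage_isClosed_of_isClosed closed_hol isClosed_Iic
  have h3 : XX om C = ⋂ z : ℍ, ({φ : C(ℍ, M) | Hol E φ} ∩
      (fun φ : C(ℍ, M) => z.im ^ 2 * om.val (vel φ z)) ⁻¹' Iic C) := by
    ext φ
    rw [mem_iInter]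
    constructor
    · intro h z
      exact ⟨h.1, h.2 z⟩
    · intro h
      exact ⟨(h UpperHalfPlane.I).1, fun z => (h z).2⟩
  rw [h3]
  exact isClosed_iInter h1

/-- Proof: `hol_act`, `val_act`. -/
theorem XX_inv (om : Form E M) (C : ℝ) {φ : C(ℍ, M)} (h : φ ∈ XX om C) (g : G) :
    (pre M).act φ g ∈ XX om C := by
  refine ⟨hol_act h.1 g, fun z => ?_⟩
  have h1 := val_act om h.1 g z
  have h2 := h.2 (g • z)
  rw [← h1] at h2
  exact h2

/-- Proof: `cont_vel` at `i`, and `FF θ φ = θ.val (vel φ i)` for holomorphic `φ` (look at the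
definition of `FF`). -/
theorem FF_contOn (θ : Form E M) (om : Form E M) (C : ℝ) : ContinuousOn (FF θ) (XX om C) := by
  have h1 : ContinuousOn (fun φ : C(ℍ, M) => θ.val (vel φ UpperHalfPlane.I)) (XX om C) :=
    (θ.continuous_val.comp_continuousOn (cont_vel UpperHalfPlane.I)).mono fun φ h => h.1
  refine h1.congr fun φ h => ?_
  unfold FF
  rw [if_pos h.1]

/-- Proof: `FF_pp` at `z = i`, `pp I = 1` (or unfold `FF`). -/
theorem FF_XX {om : Form E M} {C : ℝ} {φ : C(ℍ, M)} (h : φ ∈ XX om C) : FF om φ ≤ C := by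
  have h1 := h.2 UpperHalfPlane.I
  rw [UpperHalfPlane.I_im, one_pow, one_mul] at h1
  unfold FF
  rw [if_pos h.1]
  exact h1

end Pool.Agent.MP27775c.SR
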