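import Pool.Agent.Lib.MP_27775c_an_SR.NbA

/-!
# MP_27775c_an, project SR, module NbB: local equicontinuity
-/

set_option autoImplicit false

open MeasureTheory Set Filter Topology
open scoped Manifold ContDiff UpperHalfPlane

namespace Pool.Agent.MP27775c.SR

open Pool.Agent.MP27775c.DO

variable {E : Type*} [NormedAddCommGroup E] [NormedSpace ℂ E] [FiniteDimensional ℂ E]
  {M : Type*} [TopologicalSpace M] [ChartedSpace E M]
  [IsManifold 𝓘(ℂ, E) 1 M] [CompactSpace M] [T2Space M]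

/-- The norm in the trivialization at `p` is bounded by the form, over a compact set. -/
private theorem nbb_bound {om : Form E M} (hom : om.Pos) (p : M) {K : Set M} (hK : IsCompact K)
    (hKU : K ⊆ (chartAt E p).source) : ∃ c : ℝ, 0 ≤ c ∧ ∀ v : TB E M, v.proj ∈ K →
      ‖(trivializationAt E (TangentSpace 𝓘(ℂ, E)) p v).2‖ ^ 2 ≤ c ^ 2 * om.val v := by
  have hcp : Continuous (Bundle.TotalSpace.proj : TB E M → M) :=
    FiberBundle.continuous_proj E (TangentSpace 𝓘(ℂ, E))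
  have hS : IsCompact {v : TB E M | v.proj ∈ K ∧ om.val v = 1} := by
    refine (sph_compact hom).of_isClosed_subset ?_ fun v hv => hv.2
    exact (hK.isClosed.preimage hcp).inter (isClosed_singleton.preimage om.continuous_val)
  have hsrc : ∀ v : TB E M, v.proj ∈ K →
      v ∈ (trivializationAt E (TangentSpace 𝓘(ℂ, E)) p).source := fun v hv =>
    (trivializationAt E (TangentSpace 𝓘(ℂ, E)) p).mem_source.2 (hKU hv)
  have hcont : ContinuousOn (fun v : TB E M =>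
      ‖(trivializationAt E (TangentSpace 𝓘(ℂ, E)) p v).2‖)
      {v : TB E M | v.proj ∈ K ∧ om.val v = 1} := by
    refine ContinuousOn.norm (continuous_snd.comp_continuousOn ?_)
    exact (trivializationAt E (TangentSpace 𝓘(ℂ, E)) p).continuousOn.mono
      fun v hv => hsrc v hv.1
  obtain ⟨c, hc⟩ := hS.bddAbove_image hcont
  refine ⟨max c 0, le_max_right _ _, ?_⟩
  intro v hv
  obtain ⟨x, v⟩ := v
  have hx : x ∈ K := hv
  have hlin := (trivializationAt E (TangentSpace 𝓘(ℂ, E)) p).linear ℂ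
    (b := x) (hKU hx)
  rcases eq_or_ne v 0 with h0 | h0
  · subst h0
    have h1 : (trivializationAt E (TangentSpace 𝓘(ℂ, E)) p
        (⟨x, (0 : TangentSpace 𝓘(ℂ, E) x)⟩ : TB E M)).2 = 0 := hlin.map_zero
    rw [h1, val_zero, norm_zero]
    simp
  · have hpos : 0 < om.val ⟨x, v⟩ := hom x v h0
    have hsq : 0 < √(om.val ⟨x, v⟩) := Real.sqrt_pos.2 hpos
    have h1 : om.val ⟨x, (((√(om.val ⟨x, v⟩))⁻¹ : ℝ) : ℂ) • v⟩ = 1 := by
      rw [om.smul_val, Complex.norm_real, Real.norm_eq_abs, sq_abs, inv_pow,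
        Real.sq_sqrt hpos.le, inv_mul_cancel₀ hpos.ne']
    have h2 := hc (mem_image_of_mem _ (show (⟨x, (((√(om.val ⟨x, v⟩))⁻¹ : ℝ) : ℂ) • v⟩ : TB E M) ∈
      {v : TB E M | v.proj ∈ K ∧ om.val v = 1} from ⟨hx, h1⟩))
    have h3 : (trivializationAt E (TangentSpace 𝓘(ℂ, E)) p
        (⟨x, (((√(om.val ⟨x, v⟩))⁻¹ : ℝ) : ℂ) • v⟩ : TB E M)).2 =
        (((√(om.val ⟨x, v⟩))⁻¹ : ℝ) : ℂ) •
          (trivializationAt E (TangentSpace 𝓘(ℂ, E)) p (⟨x, v⟩ : TB E M)).2 :=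
      hlin.map_smul _ v
    have h4 : ‖(trivializationAt E (TangentSpace 𝓘(ℂ, E)) p (⟨x, v⟩ : TB E M)).2‖ ≤
        c * √(om.val ⟨x, v⟩) := by
      have h5 : ‖(trivializationAt E (TangentSpace 𝓘(ℂ, E)) p
          (⟨x, (((√(om.val ⟨x, v⟩))⁻¹ : ℝ) : ℂ) • v⟩ : TB E M)).2‖ ≤ c := h2
      rw [h3, norm_smul, Complex.norm_real, Real.norm_eq_abs, abs_of_pos (inv_pos.2 hsq),
        inv_mul_le_iff₀ hsq] at h5
      rw [mul_comm]
      exact h5
    have h6 : ‖(trivializationAt E (TangentSpace 𝓘(ℂ, E)) p (⟨x, v⟩ : TB E M)).2‖ ≤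
        max c 0 * √(om.val ⟨x, v⟩) :=
      h4.trans (mul_le_mul_of_nonneg_right (le_max_left _ _) hsq.le)
    calc ‖(trivializationAt E (TangentSpace 𝓘(ℂ, E)) p (⟨x, v⟩ : TB E M)).2‖ ^ 2
        ≤ (max c 0 * √(om.val ⟨x, v⟩)) ^ 2 := pow_le_pow_left₀ (norm_nonneg _) h6 2
      _ = max c 0 ^ 2 * om.val ⟨x, v⟩ := by rw [mul_pow, Real.sq_sqrt hpos.le]

/-- In a chart the derivative of the maps in `XX om C` is bounded. Proof. Let `K` be a compact
neighbourhood of `p` in the source of the chart at `p`. The set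
`{v : TB E M | v.proj ∈ K ∧ om.val v = 1}` is compact (a closed subset of the compact set of
`sph_compact`), and `v ↦ ‖(trivializationAt E (TangentSpace 𝓘(ℂ, E)) p v).2‖` is continuous on it,
so it is bounded by some `c ≥ 0`. By homogeneity (`smul_val` and the linearity of the trivialization
on the fibres), `‖(trivializationAt .. p v).2‖ ^ 2 ≤ c ^ 2 * om.val v` for all `v` over `K`
(for `v ≠ 0` divide by the square root of `om.val v`, positive by `hom`; for the zero vector both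
sides vanish: `val_zero`). With `triv_vel` we get the claim, with `L = c * √(max C 0)`. -/
theorem deriv_bdd {om : Form E M} (hom : om.Pos) (C : ℝ) (p : M) :
    ∃ K ∈ 𝓝 p, IsCompact K ∧ K ⊆ (chartAt E p).source ∧ ∃ L : ℝ, 0 ≤ L ∧
      ∀ φ ∈ XX om C, ∀ z : ℍ, φ z ∈ K → ‖deriv (rep E p φ) (z : ℂ)‖ ≤ L / z.im := by
  have : LocallyCompactSpace M := inferInstance
  obtain ⟨K, hKn, hKU, hK⟩ := local_compact_nhds (chart_source_mem_nhds E p)
  obtain ⟨c, hc0, hc⟩ := nbb_bound hom p hK hKU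
  refine ⟨K, hKn, hK, hKU, c * √(max C 0), by positivity, ?_⟩
  intro φ hφ z hz
  have h1 := triv_vel hφ.1 p (hKU hz)
  have h2 := hc (vel φ z) hz
  rw [h1] at h2
  have him := z.im_pos
  have h3 := hφ.2 z
  have h4 : om.val (vel φ z) ≤ max C 0 / z.im ^ 2 := by
    rw [le_div_iff₀ (by positivity), mul_comm]
    exact h3.trans (le_max_left _ _)
  refine le_of_sq_le_sq ?_ (by positivity)
  calc ‖deriv (rep E p φ) (z : ℂ)‖ ^ 2 ≤ c ^ 2 * om.val (vel φ z) := h2
    _ ≤ c ^ 2 * (max C 0 / z.im ^ 2) := mul_le_mul_of_nonneg_left h4 (by positivity)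
    _ = (c * √(max C 0) / z.im) ^ 2 := by
      rw [div_pow, mul_pow, Real.sq_sqrt (le_max_right _ _), mul_div_assoc]

/-- Local equicontinuity. Proof. Let `K`, `L` be as in `deriv_bdd`, `q = chartAt E p p`. Choose
`r > 0` such that the closed ball of radius `2 r` about `q` is in the target of the chart and its
preimage `K'` in the source is contained in `K ∩ U`. Let `W` be the preimage of the ball of radius
`r`, and `δ` such that `|z - z₀| < δ` implies `z.im ≥ z₀.im / 2` and `δ * 2 * L / z₀.im < r`, where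
`|z - z₀|` is the euclidean distance. Let `φ ∈ XX om C`, `φ z₀ ∈ W`, `|z - z₀| < δ`, and let
`γ t = z₀ + t (z - z₀)`, `0 ≤ t ≤ 1`, `u t = rep E p φ (γ t)`. As long as `φ (γ t')` stays in `K'`
for `t' ≤ t`, `‖u' ‖ ≤ |z - z₀| * 2 * L / z₀.im` (`rep_diff`, `deriv_bdd`) and
`‖u t - u 0‖ < r`, so that `‖u t - q‖ < 2 r`: the set of the `t ∈ [0, 1]` with
`φ (γ t') ∈ K'` for all `t' ≤ t` is closed, contains `0` and is open in `[0, 1]`, so it is
everything. -/
theorem loc_equi {om : Form E M} (hom : om.Pos) (C : ℝ) (z₀ : ℍ) (p : M) {U : Set M}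
    (hU : U ∈ 𝓝 p) : ∃ W ∈ 𝓝 p, ∃ N ∈ 𝓝 z₀, ∀ φ ∈ XX om C, φ z₀ ∈ W → ∀ z ∈ N, φ z ∈ U := by
  obtain ⟨K, hKn, hK, hKs, L, hL, hb⟩ := deriv_bdd hom C p
  set c := chartAt E p with hcdef
  have hpc : p ∈ c.source := mem_chart_source E p
  have hKU : K ∩ U ∈ 𝓝 (c.symm (c p)) := by
    rw [c.left_inv hpc]
    exact inter_mem hKn hU
  have hn : c.target ∩ c.symm ⁻¹' (K ∩ U) ∈ 𝓝 (c p) :=
    inter_mem (c.open_target.mem_nhds (c.map_source hpc))
      ((c.continuousAt_symm (c.map_source hpc)).preimage_mem_nhds hKU)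
  obtain ⟨ρ, hρ, hball⟩ := Metric.mem_nhds_iff.1 hn
  obtain ⟨r, hr, hrρ⟩ : ∃ r : ℝ, 0 < r ∧ 2 * r < ρ := ⟨ρ / 4, by positivity, by linarith⟩
  have hcb : Metric.closedBall (c p) (2 * r) ⊆ c.target ∩ c.symm ⁻¹' (K ∩ U) :=
    (Metric.closedBall_subset_ball hrρ).trans hball
  have hK' : IsCompact (c.symm '' Metric.closedBall (c p) (2 * r)) :=
    (isCompact_closedBall _ _).image_of_continuousOn
      (c.continuousOn_symm.mono fun x hx => (hcb hx).1)
  have hK'K : c.symm '' Metric.closedBall (c p) (2 * r) ⊆ K ∩ U := by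
    rintro _ ⟨x, hx, rfl⟩
    exact (hcb hx).2
  have hW2 : IsOpen (c.source ∩ c ⁻¹' Metric.ball (c p) (2 * r)) :=
    c.isOpen_inter_preimage Metric.isOpen_ball
  have hW2K : c.source ∩ c ⁻¹' Metric.ball (c p) (2 * r) ⊆
      c.symm '' Metric.closedBall (c p) (2 * r) := fun x hx =>
    ⟨c x, Metric.ball_subset_closedBall hx.2, c.left_inv hx.1⟩
  have him := z₀.im_pos
  obtain ⟨δ, hδ, hδ1, hδ2⟩ : ∃ δ : ℝ, 0 < δ ∧ δ ≤ z₀.im / 2 ∧ L / (z₀.im / 2) * δ < r := by
    have h1 : 0 < L / (z₀.im / 2) + 1 := by positivity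
    refine ⟨min (z₀.im / 2) (r / (L / (z₀.im / 2) + 1)), by positivity, min_le_left _ _, ?_⟩
    have h2 : L / (z₀.im / 2) * min (z₀.im / 2) (r / (L / (z₀.im / 2) + 1)) ≤
        L / (z₀.im / 2) * (r / (L / (z₀.im / 2) + 1)) :=
      mul_le_mul_of_nonneg_left (min_le_right _ _) (by positivity)
    refine h2.trans_lt ?_
    rw [mul_div_assoc', div_lt_iff₀ h1]
    nlinarith
  refine ⟨c.source ∩ c ⁻¹' Metric.ball (c p) r,
    (c.isOpen_inter_preimage Metric.isOpen_ball).mem_nhds ⟨hpc, Metric.mem_ball_self hr⟩,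
    {z : ℍ | ‖(z : ℂ) - z₀‖ < δ}, ?_, ?_⟩
  · have hco : Continuous fun z : ℍ => ‖(z : ℂ) - z₀‖ :=
      (UpperHalfPlane.continuous_coe.sub continuous_const).norm
    refine (isOpen_Iio.preimage hco).mem_nhds ?_
    show ‖(z₀ : ℂ) - z₀‖ < δ
    rw [sub_self, norm_zero]
    exact hδ
  · intro φ hφ hφ0 z hz
    have hz : ‖(z : ℂ) - z₀‖ < δ := hz
    -- the segment
    have hseg : ∀ t ∈ Icc (0 : ℝ) 1, z₀.im / 2 ≤ ((z₀ : ℂ) + (t : ℂ) * (z - z₀)).im ∧
        ‖(t : ℂ) * ((z : ℂ) - z₀)‖ < δ := by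
      intro t ht
      have h1 : ‖(t : ℂ) * ((z : ℂ) - z₀)‖ < δ := by
        rw [norm_mul, Complex.norm_real, Real.norm_eq_abs, abs_of_nonneg ht.1]
        calc t * ‖(z : ℂ) - z₀‖ ≤ 1 * ‖(z : ℂ) - z₀‖ :=
              mul_le_mul_of_nonneg_right ht.2 (norm_nonneg _)
          _ < δ := by rw [one_mul]; exact hz
      refine ⟨?_, h1⟩
      have h2 := Complex.abs_im_le_norm ((t : ℂ) * ((z : ℂ) - z₀))
      have h3 := (abs_le.1 (h2.trans h1.le)).1
      rw [Complex.add_im]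
      have h4 : (z₀ : ℂ).im = z₀.im := rfl
      rw [h4]
      linarith
    set f : ℝ → M := fun t => φ (UpperHalfPlane.ofComplex ((z₀ : ℂ) + (t : ℂ) * (z - z₀)))
      with hf
    have hpos : ∀ t ∈ Icc (0 : ℝ) 1, 0 < ((z₀ : ℂ) + (t : ℂ) * (z - z₀)).im := fun t ht =>
      lt_of_lt_of_le (by positivity) (hseg t ht).1
    have hfc : ContinuousOn f (Icc 0 1) := by
      intro t ht
      refine ContinuousAt.continuousWithinAt ?_
      have h1 : ContinuousAt (fun t : ℝ => (z₀ : ℂ) + (t : ℂ) * (z - z₀)) t := by fun_prop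
      have h2 : ContinuousAt UpperHalfPlane.ofComplex ((z₀ : ℂ) + (t : ℂ) * (z - z₀)) :=
        (UpperHalfPlane.mdifferentiableAt_ofComplex (hpos t ht)).continuousAt
      exact φ.continuous.continuousAt.comp
        (ContinuousAt.comp (f := fun t : ℝ => (z₀ : ℂ) + (t : ℂ) * (z - z₀)) h2 h1)
    have hf0 : f 0 = φ z₀ := by
      simp only [hf]
      rw [Complex.ofReal_zero, zero_mul, add_zero, UpperHalfPlane.ofComplex_apply]
    have hf1 : f 1 = φ z := by
      simp only [hf]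
      rw [Complex.ofReal_one, one_mul, add_sub_cancel, UpperHalfPlane.ofComplex_apply]
    have hrep : ∀ t : ℝ, rep E p φ ((z₀ : ℂ) + (t : ℂ) * (z - z₀)) = c (f t) := fun t => rfl
    have hkey : ∀ t ∈ Icc (0 : ℝ) 1, f t ∈ c.source ∩ c ⁻¹' Metric.ball (c p) (2 * r) := by
      by_contra hcon
      push Not at hcon
      have hcl : IsClosed (Icc (0 : ℝ) 1 ∩
          f ⁻¹' (c.source ∩ c ⁻¹' Metric.ball (c p) (2 * r))ᶜ) :=
        hfc.preimage_isClosed_of_isClosed isClosed_Icc hW2.isClosed_compl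
      have hcomp : IsCompact (Icc (0 : ℝ) 1 ∩
          f ⁻¹' (c.source ∩ c ⁻¹' Metric.ball (c p) (2 * r))ᶜ) :=
        isCompact_Icc.of_isClosed_subset hcl inter_subset_left
      obtain ⟨t₀, ht₀, ht₀'⟩ := hcon
      obtain ⟨T, hT, hTl⟩ := hcomp.exists_isLeast ⟨t₀, ht₀, ht₀'⟩
      have hlt : ∀ t ∈ Ico (0 : ℝ) T, f t ∈ c.source ∩ c ⁻¹' Metric.ball (c p) (2 * r) := by
        intro t ht
        by_contra h
        exact absurd (hTl ⟨⟨ht.1, ht.2.le.trans hT.1.2⟩, h⟩) (not_le.2 ht.2)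
      have hT0 : T ≠ 0 := by
        rintro rfl
        refine hT.2 ?_
        rw [hf0]
        exact ⟨hφ0.1, Metric.ball_subset_ball (by linarith) hφ0.2⟩
      have hTK : ∀ t ∈ Icc (0 : ℝ) T, f t ∈ c.symm '' Metric.closedBall (c p) (2 * r) := by
        have h1 : IsClosed (Icc (0 : ℝ) 1 ∩
            f ⁻¹' (c.symm '' Metric.closedBall (c p) (2 * r))) :=
          hfc.preimage_isClosed_of_isClosed isClosed_Icc hK'.isClosed
        have h2 : Ico (0 : ℝ) T ⊆ Icc (0 : ℝ) 1 ∩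
            f ⁻¹' (c.symm '' Metric.closedBall (c p) (2 * r)) := fun t ht =>
          ⟨⟨ht.1, ht.2.le.trans hT.1.2⟩, hW2K (hlt t ht)⟩
        have h3 := closure_minimal h2 h1
        rw [closure_Ico hT0.symm] at h3
        exact fun t ht => (h3 ht).2
      have hTI : ∀ t ∈ Icc (0 : ℝ) T, t ∈ Icc (0 : ℝ) 1 := fun t ht =>
        ⟨ht.1, ht.2.trans hT.1.2⟩
      have hTnn : 0 ≤ T := hT.1.1
      -- mean value inequality on the segment
      have hconv : Convex ℝ ((fun t : ℝ => (z₀ : ℂ) + (t : ℂ) * (z - z₀)) '' Icc 0 T) := by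
        have h1 : (fun t : ℝ => (z₀ : ℂ) + (t : ℂ) * ((z : ℂ) - z₀)) =
            ⇑(AffineMap.lineMap (k := ℝ) (z₀ : ℂ) (z : ℂ)) := by
          funext t
          rw [AffineMap.lineMap_apply_module']
          rw [Complex.real_smul, add_comm]
        rw [h1]
        exact (convex_Icc 0 T).affine_image _
      have hmv := hconv.norm_image_sub_le_of_norm_deriv_le (f := rep E p φ)
        (C := L / (z₀.im / 2)) (x := (z₀ : ℂ) + ((0 : ℝ) : ℂ) * (z - z₀))
        (y := (z₀ : ℂ) + (T : ℂ) * (z - z₀)) ?_ ?_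
        ⟨0, ⟨le_refl _, hTnn⟩, rfl⟩ ⟨T, ⟨hTnn, le_refl _⟩, rfl⟩
      · rw [hrep, hrep, hf0] at hmv
        have h1 : (z₀ : ℂ) + (T : ℂ) * (z - z₀) - ((z₀ : ℂ) + ((0 : ℝ) : ℂ) * (z - z₀)) =
            (T : ℂ) * (z - z₀) := by
          rw [Complex.ofReal_zero]
          ring
        rw [h1] at hmv
        have h2 : ‖c (f T) - c (φ z₀)‖ < r :=
          (hmv.trans (mul_le_mul_of_nonneg_left (hseg T hT.1).2.le (by positivity))).trans_lt hδ2
        refine hT.2 ⟨hKs (hK'K (hTK T ⟨hTnn, le_refl _⟩)).1, ?_⟩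
        show c (f T) ∈ Metric.ball (c p) (2 * r)
        rw [Metric.mem_ball]
        have h3 : dist (c (f T)) (c (φ z₀)) < r := by
          rw [dist_eq_norm]
          exact h2
        have h4 : dist (c (φ z₀)) (c p) < r := hφ0.2
        have h5 := dist_triangle (c (f T)) (c (φ z₀)) (c p)
        linarith
      · rintro _ ⟨t, ht, rfl⟩
        have hp0 := hpos t (hTI t ht)
        have h1 : UpperHalfPlane.ofComplex ((z₀ : ℂ) + (t : ℂ) * (z - z₀)) =
            ⟨(z₀ : ℂ) + (t : ℂ) * (z - z₀), hp0⟩ := UpperHalfPlane.ofComplex_apply_of_im_pos hp0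
        have h2 : φ ⟨(z₀ : ℂ) + (t : ℂ) * (z - z₀), hp0⟩ ∈ (chartAt E p).source := by
          rw [← h1]
          exact hKs (hK'K (hTK t ht)).1
        exact rep_diff hφ.1 p h2
      · rintro _ ⟨t, ht, rfl⟩
        have hp0 := hpos t (hTI t ht)
        have h1 : UpperHalfPlane.ofComplex ((z₀ : ℂ) + (t : ℂ) * (z - z₀)) =
            ⟨(z₀ : ℂ) + (t : ℂ) * (z - z₀), hp0⟩ := UpperHalfPlane.ofComplex_apply_of_im_pos hp0
        have h2 : φ ⟨(z₀ : ℂ) + (t : ℂ) * (z - z₀), hp0⟩ ∈ K := by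
          rw [← h1]
          exact (hK'K (hTK t ht)).1
        refine (hb φ hφ ⟨(z₀ : ℂ) + (t : ℂ) * (z - z₀), hp0⟩ h2).trans ?_
        exact div_le_div_of_nonneg_left hL (by positivity) (hseg t (hTI t ht)).1
    have h1 := hkey 1 ⟨zero_le_one, le_refl _⟩
    rw [hf1] at h1
    exact (hK'K (hW2K h1)).2

end Pool.Agent.MP27775c.SR
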