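import Pool.Agent.Lib.MP_27775c_an_SR.Bas

/-!
# MP_27775c_an, project SR, module ReA: mean convergence of the pushed horocycle averages
-/

set_option autoImplicit false

open MeasureTheory Set Filter Topology
open scoped Manifold ContDiff UpperHalfPlane

namespace Pool.Agent.MP27775c.SR

open Pool.Agent.MP27775c.DO

variable {Y : Type*} [TopologicalSpace Y] [PolishSpace Y] [MeasurableSpace Y] [BorelSpace Y]
  (A : RAct Y)

omit [PolishSpace Y] [MeasurableSpace Y] [BorelSpace Y] in
private theorem reA_inner {F : Y → ℝ} {p q : ℝ} (hpq : p < q) (t : ℝ) (y : Y) :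
    ∫ x in p..q, F (ray A y x t) =
      (q - p) * nav A (Real.exp (-t) * (q - p) / 2) F
        (A.act y (aa t * nn (Real.exp (-t) * (p + q) / 2))) := by
  have hc : Real.exp (-t) ≠ 0 := (Real.exp_pos _).ne'
  have hqp : q - p ≠ 0 := (sub_pos.2 hpq).ne'
  have h1 : ∀ x : ℝ, F (ray A y x t) =
      (fun u => F (A.act (A.act y (aa t * nn (Real.exp (-t) * (p + q) / 2))) (nn u)))
        (Real.exp (-t) * x - Real.exp (-t) * (p + q) / 2) := by
    intro x
    simp only
    unfold ray
    rw [← A.act_mul, mul_assoc, ← nn_add, nn_aa]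
    congr 4
    ring
  simp_rw [h1]
  rw [intervalIntegral.integral_comp_mul_sub (fun u => F (A.act (A.act y
    (aa t * nn (Real.exp (-t) * (p + q) / 2))) (nn u))) hc]
  have e1 : Real.exp (-t) * p - Real.exp (-t) * (p + q) / 2 =
      -(Real.exp (-t) * (q - p) / 2) := by ring
  have e2 : Real.exp (-t) * q - Real.exp (-t) * (p + q) / 2 =
      Real.exp (-t) * (q - p) / 2 := by ring
  rw [e1, e2, smul_eq_mul]
  unfold nav
  rw [← mul_assoc]
  congr 1
  field_simp

omit [PolishSpace Y] [MeasurableSpace Y] [BorelSpace Y] in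
private theorem reA_bdd {F : Y → ℝ} {C : ℝ} (hC : ∀ y, |F y| ≤ C) {L : ℝ} (hL : 0 < L) (y : Y) :
    |nav A L F y| ≤ C := by
  have h1 := intervalIntegral.norm_integral_le_of_norm_le_const (a := -L) (b := L)
    (f := fun s => F (A.act y (nn s))) (C := C) fun x _ => by
      rw [Real.norm_eq_abs]
      exact hC _
  rw [Real.norm_eq_abs, sub_neg_eq_add, abs_of_pos (by linarith : 0 < L + L)] at h1
  unfold nav
  rw [abs_mul, abs_of_pos (by positivity : 0 < 1 / (2 * L))]
  calc 1 / (2 * L) * |∫ s in (-L)..L, F (A.act y (nn s))|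
      ≤ 1 / (2 * L) * (C * (L + L)) := by gcongr
    _ = C := by
      field_simp
      ring

private theorem reA_lim {m : Measure Y} [IsProbabilityMeasure m] (h : IsPInv A m)
    (he : IsNErg A m) {F : Y → ℝ} (hF : Measurable F) (hb : ∃ C, ∀ y, |F y| ≤ C) (r κ : ℝ)
    (hκ : κ = ∫ y, F y ∂m) :
    Tendsto (fun L : ℝ => ∫ y, |r * nav A L F y - r * κ| ∂m) atTop (𝓝 0) := by
  have hbirk := birk A h.1 he hF hb
  obtain ⟨C, hC⟩ := hb
  have h0 : (0 : ℝ) = ∫ _ : Y, (0 : ℝ) ∂m := by simp
  rw [h0]
  refine tendsto_integral_filter_of_dominated_convergence (fun _ => |r| * C + |r * κ|) ?_ ?_ ?_ ?_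
  · refine Eventually.of_forall fun L => ?_
    exact (((nav_meas A L hF).const_mul r).sub_const _).abs.aestronglyMeasurable
  · filter_upwards [eventually_gt_atTop 0] with L hL
    refine ae_of_all _ fun y => ?_
    rw [Real.norm_eq_abs, abs_abs]
    refine (abs_sub _ _).trans ?_
    rw [abs_mul]
    have := reA_bdd A hC hL y
    gcongr
  · exact integrable_const _
  · filter_upwards [hbirk] with y hy
    have h1 := ((hy.const_mul r).sub_const (r * κ)).abs
    rw [← hκ, sub_self, abs_zero] at h1
    exact h1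

private theorem reA_lt {m : Measure Y} [IsProbabilityMeasure m] (h : IsPInv A m)
    (he : IsNErg A m) {F : Y → ℝ} (hF : Measurable F) (hb : ∃ C, ∀ y, |F y| ≤ C) {p q : ℝ}
    (hpq : p < q) :
    Tendsto (fun t : ℝ =>
      ∫ y, |(∫ x in p..q, F (ray A y x t)) - (q - p) * ∫ y, F y ∂m| ∂m) atBot (𝓝 0) := by
  have h1 := reA_lim A h he hF hb (q - p) _ rfl
  have h2 : Tendsto (fun t : ℝ => Real.exp (-t) * (q - p) / 2) atBot atTop := by
    have h3 : Tendsto (fun t : ℝ => Real.exp (-t)) atBot atTop :=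
      Real.tendsto_exp_atTop.comp tendsto_neg_atBot_atTop
    have h4 := h3.atTop_mul_const (by linarith : 0 < (q - p) / 2)
    refine h4.congr fun t => ?_
    ring
  refine (h1.comp h2).congr fun t => ?_
  simp only [Function.comp_apply]
  have key := integral_tr A m (aa t * nn (Real.exp (-t) * (p + q) / 2))
    (fun y => |(q - p) * nav A (Real.exp (-t) * (q - p) / 2) F y - (q - p) * ∫ y, F y ∂m|)
  rw [tr_aa_nn A h] at key
  rw [key]
  refine integral_congr_ae (ae_of_all _ fun y => ?_)
  simp only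
  rw [reA_inner A hpq t y]

/-- Mean convergence. Proof. If `p = q` both sides vanish, and the statement for `(p, q)` and for
`(q, p)` are the same up to a sign, so let `p < q`. By `nn_aa`, `ray A y x t =
A.act (A.act y (aa t)) (nn (exp (-t) * x))`. As `tr A m (aa t) = m` the integral in question is
`∫ y, |∫ x in p..q, F (A.act y (nn (exp (-t) * x))) - (q - p) * κ| ∂m`, `κ = ∫ F ∂m`. Substitute
`x = (p + q) / 2 + exp t * u`, `|u| ≤ L = exp (-t) * (q - p) / 2`: the inner integral becomes
`exp t * ∫ u in (-L)..L, F (A.act (A.act y (nn (exp (-t) * (p + q) / 2))) (nn u))`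
`= (q - p) * nav A L F (A.act y (nn ...))`, and by the invariance of `m` under `nn` we get
`(q - p) * ∫ y, |nav A L F y - κ| ∂m`. For `t → -∞` also `L → ∞`, and this tends to zero by
`birk` (almost everywhere convergence) and dominated convergence (`|nav A L F y| ≤ C`, `nav_meas`).
-/
theorem L1_ray {m : Measure Y} [IsProbabilityMeasure m] (h : IsPInv A m) (he : IsNErg A m)
    {F : Y → ℝ} (hF : Measurable F) (hb : ∃ C, ∀ y, |F y| ≤ C) (p q : ℝ) :
    Tendsto (fun t : ℝ =>
      ∫ y, |(∫ x in p..q, F (ray A y x t)) - (q - p) * ∫ y, F y ∂m| ∂m) atBot (𝓝 0) := by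
  rcases lt_trichotomy p q with hpq | hpq | hpq
  · exact reA_lt A h he hF hb hpq
  · subst hpq
    simp
  · refine (reA_lt A h he hF hb hpq).congr fun t => ?_
    refine integral_congr_ae (ae_of_all _ fun y => ?_)
    simp only
    rw [intervalIntegral.integral_symm p q, ← abs_neg]
    congr 1
    ring

end Pool.Agent.MP27775c.SR
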