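import Pool.Agent.Lib.MP_27775c_an_SR.Bas

/-!
# MP_27775c_an, project SR, module ShA: closeness along a long piece of a geodesic
-/

set_option autoImplicit false

open MeasureTheory Set Filter Topology
open scoped Manifold ContDiff UpperHalfPlane

namespace Pool.Agent.MP27775c.SR

open Pool.Agent.MP27775c.DO

variable {Y : Type*} [TopologicalSpace Y] [PolishSpace Y] [MeasurableSpace Y] [BorelSpace Y]
  (A : RAct Y)

private theorem ShA_local {X : Set Y} {F : Y → ℝ} {M : Type*} [TopologicalSpace M]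
    [CompactSpace M] [T2Space M] {e : Y → M} (hS : Setup A X F e) {η : ℝ} (hη : 0 < η)
    {z z' : Y} (hz : z ∈ X) (hz' : z' ∈ X) (h : η ≤ |F z - F z'|) :
    ∃ S ∈ 𝓝 (z, z'), ∃ V ∈ 𝓝ˢ (diagonal M), ∃ T : ℝ, 0 ≤ T ∧ ∀ p ∈ S,
      ∃ t : ℝ, |t| ≤ T ∧ (e (A.act p.1 (aa t)), e (A.act p.2 (aa t))) ∉ V := by
  have hne : z ≠ z' := by
    rintro rfl
    rw [sub_self, abs_zero] at h
    exact absurd hη (not_lt.mpr h)
  have h1 : ∃ t : ℝ, e (A.act z (aa t)) ≠ e (A.act z' (aa t)) := by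
    by_contra hcon
    push Not at hcon
    exact hne (hS.sep z hz z' hz' hcon)
  obtain ⟨t, ht⟩ := h1
  obtain ⟨U₁, hz1, hU1, U₂, hz2, hU2, hd⟩ := exists_open_nhds_disjoint_closure ht
  have hc : Continuous fun y : Y => e (A.act y (aa t)) :=
    hS.conte.comp (A.cont.comp (continuous_id.prodMk continuous_const))
  refine ⟨{p | e (A.act p.1 (aa t)) ∈ U₁ ∧ e (A.act p.2 (aa t)) ∈ U₂}, ?_,
    (closure U₁ ×ˢ closure U₂)ᶜ, ?_, |t|, abs_nonneg t, ?_⟩
  · have ho : IsOpen {p : Y × Y | e (A.act p.1 (aa t)) ∈ U₁ ∧ e (A.act p.2 (aa t)) ∈ U₂} :=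
      (hU1.preimage (hc.comp continuous_fst)).inter (hU2.preimage (hc.comp continuous_snd))
    exact ho.mem_nhds ⟨hz1, hz2⟩
  · have ho : IsOpen (closure U₁ ×ˢ closure U₂)ᶜ :=
      (isClosed_closure.prod isClosed_closure).isOpen_compl
    rw [ho.mem_nhdsSet]
    rintro ⟨a, b⟩ hab hmem
    rw [mem_diagonal_iff] at hab
    have hab' : a = b := hab
    subst hab'
    exact Set.disjoint_left.mp hd hmem.1 hmem.2
  · rintro p ⟨hp1, hp2⟩
    exact ⟨t, le_refl _, fun hcon => hcon ⟨subset_closure hp1, subset_closure hp2⟩⟩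

private theorem ShA_compact {X : Set Y} {F : Y → ℝ} {M : Type*} [TopologicalSpace M]
    {e : Y → M} (hS : Setup A X F e) (η : ℝ) :
    IsCompact ((X ×ˢ X) ∩ (fun p : Y × Y => |F p.1 - F p.2|) ⁻¹' Ici η) := by
  have hXX : IsCompact (X ×ˢ X) := hS.comp.prod hS.comp
  have hf : ContinuousOn (fun p : Y × Y => |F p.1 - F p.2|) (X ×ˢ X) :=
    ((hS.contF.comp continuousOn_fst fun p hp => hp.1).sub
      (hS.contF.comp continuousOn_snd fun p hp => hp.2)).abs
  exact hXX.of_isClosed_subset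
    (hf.preimage_isClosed_of_isClosed hXX.isClosed isClosed_Ici) inter_subset_left

/-- Proof. Let `K = {(z, z') ∈ X × X | η ≤ |F z - F z'|}`, compact because `F` is continuous on the
compact set `X`. For `(z, z') ∈ K`, `z ≠ z'`, so by `sep` there is `t` with
`e (A.act z (aa t)) ≠ e (A.act z' (aa t))`; there are open `U₁`, `U₂` around these two points with
disjoint closures (`exists_open_nhds_disjoint_closure`, a compact Hausdorff space is regular). The
pairs `(w, w')` with `e (A.act w (aa t)) ∈ U₁`, `e (A.act w' (aa t)) ∈ U₂` form an open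
neighbourhood of `(z, z')`, and the complement of `closure U₁ ×ˢ closure U₂` is an open set which
contains the diagonal. Finitely many of these neighbourhoods cover `K`: let `V` be the
intersection of the corresponding complements, `T` the maximum of the `|t|`. If
`η < |F z - F z'|` then `(z, z') ∈ K` lies in one of the neighbourhoods and the pair at the time `t`
is not in `V`. -/
theorem exists_V {X : Set Y} {F : Y → ℝ} {M : Type*} [TopologicalSpace M] [CompactSpace M]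
    [T2Space M] {e : Y → M} (hS : Setup A X F e) {η : ℝ} (hη : 0 < η) :
    ∃ V ∈ 𝓝ˢ (diagonal M), ∃ T : ℝ, ∀ z ∈ X, ∀ z' ∈ X,
      (∀ t : ℝ, |t| ≤ T → (e (A.act z (aa t)), e (A.act z' (aa t))) ∈ V) →
      |F z - F z'| ≤ η := by
  have hK := ShA_compact A hS η
  obtain ⟨V, hV, T, -, hVT⟩ : ∃ V ∈ 𝓝ˢ (diagonal M), ∃ T : ℝ, 0 ≤ T ∧
      ∀ p ∈ (X ×ˢ X) ∩ (fun p : Y × Y => |F p.1 - F p.2|) ⁻¹' Ici η,
        ∃ t : ℝ, |t| ≤ T ∧ (e (A.act p.1 (aa t)), e (A.act p.2 (aa t))) ∉ V := by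
    refine hK.induction_on (p := fun S => ∃ V ∈ 𝓝ˢ (diagonal M), ∃ T : ℝ, 0 ≤ T ∧
      ∀ p ∈ S, ∃ t : ℝ, |t| ≤ T ∧ (e (A.act p.1 (aa t)), e (A.act p.2 (aa t))) ∉ V)
      ⟨univ, univ_mem, 0, le_refl 0, fun p hp => absurd hp (notMem_empty p)⟩ ?_ ?_ ?_
    · rintro s t hst ⟨V, hV, T, hT, h⟩
      exact ⟨V, hV, T, hT, fun p hp => h p (hst hp)⟩
    · rintro s t ⟨V, hV, T, hT, h⟩ ⟨V', hV', T', hT', h'⟩
      refine ⟨V ∩ V', inter_mem hV hV', max T T', le_max_of_le_left hT, ?_⟩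
      rintro p (hp | hp)
      · obtain ⟨r, hr, hr2⟩ := h p hp
        exact ⟨r, hr.trans (le_max_left _ _), fun hcon => hr2 hcon.1⟩
      · obtain ⟨r, hr, hr2⟩ := h' p hp
        exact ⟨r, hr.trans (le_max_right _ _), fun hcon => hr2 hcon.2⟩
    · rintro ⟨z, z'⟩ ⟨⟨hz, hz'⟩, h⟩
      obtain ⟨S, hSn, V, hV, T, hT, hh⟩ := ShA_local A hS hη hz hz' h
      exact ⟨S, mem_nhdsWithin_of_mem_nhds hSn, V, hV, T, hT, hh⟩
  refine ⟨V, hV, T, fun z hz z' hz' h => ?_⟩
  by_contra hcon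
  rw [not_le] at hcon
  obtain ⟨t, ht, ht2⟩ := hVT (z, z') ⟨⟨hz, hz'⟩, hcon.le⟩
  exact ht2 (h t ht)

/-- Proof: the same `b`, `c`, with `V`, `T` from `exists_V`. For `x ∈ E` let `s₀` be such that the
pair at `s` is in `V` for `s ≤ s₀`. For `s ≤ s₀ - |T|` and `|t| ≤ T`, `s + t ≤ s₀`, and by
`ray_add` the pair at `s + t` is `(e (A.act z (aa t)), e (A.act z' (aa t)))` with `z = ray A y x s`,
`z' = ray A y' (b x) (c x + s)`, points of `X`. -/
theorem fclose_of_close {X : Set Y} {F : Y → ℝ} {M : Type*} [TopologicalSpace M]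
    [CompactSpace M] [T2Space M] {e : Y → M} (hS : Setup A X F e) {η : ℝ} (hη : 0 < η) :
    ∃ V ∈ 𝓝ˢ (diagonal M), ∀ y ∈ X, ∀ y' ∈ X, ∀ E : Set ℝ, CloseA A e V y y' E →
      FClose A F η y y' E := by
  obtain ⟨V, hV, T, hVT⟩ := exists_V A hS hη
  refine ⟨V, hV, ?_⟩
  rintro y hy y' hy' E ⟨b, c, hb, hc, hnull, hcl⟩
  refine ⟨b, c, hb, hc, hnull, fun x hx => ?_⟩
  obtain ⟨s₀, hs₀⟩ := eventually_atBot.mp (hcl x hx)
  filter_upwards [eventually_le_atBot (s₀ - |T|)] with s hs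
  refine hVT _ (hS.inv y hy _) _ (hS.inv y' hy' _) fun t ht => ?_
  have h1 : s + t ≤ s₀ := by
    have h2 := le_abs_self t
    have h3 := le_abs_self T
    linarith
  have h4 := hs₀ (s + t) h1
  rw [← add_assoc, ray_add, ray_add] at h4
  exact h4

end Pool.Agent.MP27775c.SR
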