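import Pool.Agent.Lib.MP_27775c_an_SR.MoA

/-!
# MP_27775c_an, project SR, module SuA: the images of vertical geodesics
-/

set_option autoImplicit false

open MeasureTheory Set Filter Topology
open scoped Manifold ContDiff UpperHalfPlane

namespace Pool.Agent.MP27775c.SR

open Pool.Agent.MP27775c.DO

/-- The image of the boundary point `x` under `g`. -/
noncomputable def bm (g : G) (x : ℝ) : ℝ :=
  (g⁻¹ 1 1 * x - g⁻¹ 0 1) / (g⁻¹ 0 0 - g⁻¹ 1 0 * x)

/-- The delay. -/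
noncomputable def cm (g : G) (x : ℝ) : ℝ := -Real.log ((g⁻¹ 0 0 - g⁻¹ 1 0 * x) ^ 2)

theorem bm_meas (g : G) : Measurable (bm g) := by
  unfold bm
  exact Measurable.div (by fun_prop) (by fun_prop)

theorem cm_meas (g : G) : Measurable (cm g) := by
  unfold cm
  exact (Real.measurable_log.comp (by fun_prop)).neg

/-- Proof: at most one point, because the determinant is one. -/
theorem pole_null (g : G) : volume {x : ℝ | g⁻¹ 0 0 - g⁻¹ 1 0 * x = 0} = 0 := by
  have hdet : g⁻¹ 0 0 * g⁻¹ 1 1 - g⁻¹ 0 1 * g⁻¹ 1 0 = 1 := by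
    have := g⁻¹.det_coe
    rwa [Matrix.det_fin_two] at this
  refine measure_mono_null (t := {g⁻¹ 0 0 / g⁻¹ 1 0}) (fun x hx => ?_) (measure_singleton _)
  have hx1 : g⁻¹ 0 0 - g⁻¹ 1 0 * x = 0 := hx
  have hx2 : g⁻¹ 0 0 = g⁻¹ 1 0 * x := sub_eq_zero.1 hx1
  have h0 : g⁻¹ 1 0 ≠ 0 := by
    intro h0
    rw [h0, zero_mul] at hx2
    rw [h0, hx2] at hdet
    simp at hdet
  rw [mem_singleton_iff, eq_div_iff h0, hx2, mul_comm]

/-- Proof: `moeb_ns` for `g⁻¹`, `pole_null`. -/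
theorem bm_ns (g : G) (N : Set ℝ) (hN : volume N = 0) : volume (bm g ⁻¹' N) = 0 := by
  refine measure_mono_null (fun x hx => ?_) (measure_union_null (moeb_ns g⁻¹ N hN) (pole_null g))
  by_cases h : g⁻¹ 0 0 - g⁻¹ 1 0 * x = 0
  · exact Or.inr h
  · exact Or.inl ⟨h, hx⟩

private theorem suA_neg (g : G) (z : ℍ) : (-g) • z = g • z := by
  apply UpperHalfPlane.ext
  rw [UpperHalfPlane.coe_specialLinearGroup_apply, UpperHalfPlane.coe_specialLinearGroup_apply,
    ← neg_div_neg_eq]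
  simp
  ring_nf

/-- Proof. By `pair_eq` for `g⁻¹`, up to the sign,
`nn x * aa s * oo u = g⁻¹ * nn (bm g x) * aa (s + cm g x)`, where
`u = exp s * g⁻¹ 1 0 / (g⁻¹ 0 0 - g⁻¹ 1 0 * x)`, so
`g * nn x * aa s * oo u = nn (bm g x) * aa (cm g x + s)` (up to the sign, which acts trivially on
`ℍ`). With `pt_eq`, `pt (bm g x) (cm g x + s) = (g * nn x * aa s) • oo u • I` and
`g • pt x s = (g * nn x * aa s) • I`; the group acts by isometries, so the distance is
`dist (oo u • I) I`, which tends to zero because `u → 0` (`continuous_oo`, `oo_zero`). -/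
theorem asym (g : G) (x : ℝ) (hx : g⁻¹ 0 0 - g⁻¹ 1 0 * x ≠ 0) :
    Tendsto (fun s : ℝ => dist (g • pt x s) (pt (bm g x) (cm g x + s))) atBot (𝓝 0) := by
  have hu : Tendsto (fun s : ℝ => Real.exp s * g⁻¹ 1 0 / (g⁻¹ 0 0 - g⁻¹ 1 0 * x)) atBot
      (𝓝 0) := by
    have h1 := (Real.tendsto_exp_atBot.mul_const (g⁻¹ 1 0)).div_const (g⁻¹ 0 0 - g⁻¹ 1 0 * x)
    rwa [zero_mul, zero_div] at h1
  have hc : Continuous fun u : ℝ => dist UpperHalfPlane.I (oo u • UpperHalfPlane.I) :=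
    continuous_const.dist (continuous_oo.smul continuous_const)
  have h0 : dist UpperHalfPlane.I (oo 0 • UpperHalfPlane.I) = 0 := by
    rw [oo_zero, one_smul, dist_self]
  have hlim := (hc.tendsto 0).comp hu
  rw [h0] at hlim
  refine hlim.congr fun s => ?_
  have key : pt (bm g x) (cm g x + s) = g • ((nn x * aa s *
      oo (Real.exp s * g⁻¹ 1 0 / (g⁻¹ 0 0 - g⁻¹ 1 0 * x))) • UpperHalfPlane.I) := by
    have h2 : s - Real.log ((g⁻¹ 0 0 - g⁻¹ 1 0 * x) ^ 2) = cm g x + s := by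
      unfold cm
      ring
    have h3 := pair_eq g⁻¹ x s hx
    rw [h2, show (g⁻¹ 1 1 * x - g⁻¹ 0 1) / (g⁻¹ 0 0 - g⁻¹ 1 0 * x) = bm g x from rfl] at h3
    rcases h3 with h3 | h3
    · rw [h3, smul_smul, ← mul_assoc, ← mul_assoc, mul_inv_cancel, one_mul, pt_eq]
    · rw [h3, suA_neg, smul_smul, ← mul_assoc, ← mul_assoc, mul_inv_cancel,
        one_mul, pt_eq]
  rw [key, dist_smul, ← pt_eq, mul_smul (nn x * aa s), dist_smul]
  rfl

end Pool.Agent.MP27775c.SR
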