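import Pool.Agent.Lib.MP_27775c_an_SR.Bas

/-!
# MP_27775c_an, project SR, module WkA: weak convergence
-/

set_option autoImplicit false

open MeasureTheory Set Filter Topology
open scoped Manifold ContDiff UpperHalfPlane

namespace Pool.Agent.MP27775c.SR

/-- a sequence which is close to convergent sequences converges -/
private theorem wk_close {a : ℕ → ℝ} {l : ℝ}
    (h : ∀ ε : ℝ, 0 < ε → ∃ (b : ℕ → ℝ) (m : ℝ), (∀ k, |a k - b k| ≤ ε) ∧ |l - m| ≤ ε ∧
      Tendsto b atTop (𝓝 m)) : Tendsto a atTop (𝓝 l) := by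
  rw [Metric.tendsto_atTop]
  intro ε hε
  obtain ⟨b, m, hb, hm, ht⟩ := h (ε / 4) (by linarith)
  rw [Metric.tendsto_atTop] at ht
  obtain ⟨N, hN⟩ := ht (ε / 4) (by linarith)
  refine ⟨N, fun k hk => ?_⟩
  have h1 := hN k hk
  rw [Real.dist_eq] at h1 ⊢
  have h2 := abs_le.mp (hb k)
  have h3 := abs_le.mp hm
  have h4 := abs_lt.mp h1
  rw [abs_lt]
  constructor
  · linarith [h2.1, h3.2, h4.1]
  · linarith [h2.2, h3.1, h4.2]

/-- bounded measurable functions are integrable for finite measures -/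
private theorem wk_int {ν : Measure ℝ} [IsFiniteMeasure ν] {g : ℝ → ℝ} (hm : Measurable g) {C : ℝ}
    (hC : ∀ x, |g x| ≤ C) : Integrable g ν :=
  Integrable.of_bound hm.aestronglyMeasurable C (Eventually.of_forall fun x => hC x)

/-- convergence on measurable sets of an interval -/
private theorem wk_set {h : ℕ → ℝ → ℝ} (hm : ∀ k, Measurable (h k)) {C κ : ℝ}
    (hC : ∀ k x, |h k x| ≤ C)
    (hI : ∀ p q : ℝ, Tendsto (fun k => ∫ x in p..q, h k x) atTop (𝓝 ((q - p) * κ))) (n : ℕ)
    {s : Set ℝ} (hs : MeasurableSet s) :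
    Tendsto (fun k => ∫ x in s, h k x ∂(volume.restrict (Ioc (-(n : ℝ)) n))) atTop
      (𝓝 (∫ _ in s, κ ∂(volume.restrict (Ioc (-(n : ℝ)) n)))) := by
  set ν : Measure ℝ := volume.restrict (Ioc (-(n : ℝ)) n) with hν
  have hn : -(n : ℝ) ≤ n := by
    have := Nat.cast_nonneg (α := ℝ) n
    linarith
  have hbase : ∀ a : ℝ, Tendsto (fun k => ∫ x in Iic a, h k x ∂ν) atTop
      (𝓝 (∫ _ in Iic a, κ ∂ν)) := by
    intro a
    have h1 : ∀ g : ℝ → ℝ, ∫ x in Iic a, g x ∂ν =
        ∫ x in Ioc (-(n : ℝ)) (min (n : ℝ) a), g x := by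
      intro g
      rw [hν, Measure.restrict_restrict measurableSet_Iic]
      congr 2
      rw [inter_comm, ← Ioc_inter_Iic]
    simp only [h1]
    rcases le_total (-(n : ℝ)) (min (n : ℝ) a) with h2 | h2
    · simp only [← intervalIntegral.integral_of_le h2]
      have h3 := hI (-(n : ℝ)) (min (n : ℝ) a)
      rw [intervalIntegral.integral_const, smul_eq_mul]
      exact h3
    · rw [Ioc_eq_empty (not_lt.mpr h2)]
      simp
  have huniv : Tendsto (fun k => ∫ x, h k x ∂ν) atTop (𝓝 (∫ _, κ ∂ν)) := by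
    have h1 : ∀ g : ℝ → ℝ, ∫ x, g x ∂ν = ∫ x in (-(n : ℝ))..n, g x := by
      intro g
      rw [hν, intervalIntegral.integral_of_le hn]
    simp only [h1]
    rw [intervalIntegral.integral_const, smul_eq_mul]
    exact hI _ _
  have hgen : (inferInstance : MeasurableSpace ℝ) = MeasurableSpace.generateFrom (range Iic) := by
    rw [← borel_eq_generateFrom_Iic ℝ]
    exact BorelSpace.measurable_eq
  refine MeasurableSpace.induction_on_inter (C := fun s _ =>
    Tendsto (fun k => ∫ x in s, h k x ∂ν) atTop (𝓝 (∫ _ in s, κ ∂ν)))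
    hgen isPiSystem_Iic ?_ ?_ ?_ ?_ s hs
  · simp
  · rintro _ ⟨a, rfl⟩
    exact hbase a
  · intro t ht h1
    have h2 : ∀ k, ∫ x in tᶜ, h k x ∂ν = ∫ x, h k x ∂ν - ∫ x in t, h k x ∂ν := fun k =>
      setIntegral_compl ht (wk_int (hm k) (hC k))
    have h3 : ∫ _ in tᶜ, κ ∂ν = ∫ _, κ ∂ν - ∫ _ in t, κ ∂ν :=
      setIntegral_compl ht (integrable_const κ)
    simp only [h2]
    rw [h3]
    exact huniv.sub h1
  · intro f hd hf h1
    have h2 : ∀ k, ∫ x in ⋃ i, f i, h k x ∂ν = ∑' i, ∫ x in f i, h k x ∂ν := fun k =>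
      integral_iUnion hf hd (wk_int (hm k) (hC k)).integrableOn
    have h3 : ∫ _ in ⋃ i, f i, κ ∂ν = ∑' i, ∫ _ in f i, κ ∂ν :=
      integral_iUnion hf hd (integrable_const κ).integrableOn
    simp only [h2]
    rw [h3]
    have hsum : Summable (fun i => ∫ _ in f i, C ∂ν) :=
      (hasSum_integral_iUnion hf hd (integrable_const C).integrableOn).summable
    refine tendsto_tsum_of_dominated_convergence hsum h1 (Eventually.of_forall fun k i => ?_)
    refine (norm_integral_le_integral_norm _).trans ?_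
    refine integral_mono (wk_int (hm k) (hC k)).integrableOn.norm
      (integrable_const C) fun x => hC k x

/-- convergence against integrable functions on an interval -/
private theorem wk_loc {h : ℕ → ℝ → ℝ} (hm : ∀ k, Measurable (h k)) {C κ : ℝ}
    (hC : ∀ k x, |h k x| ≤ C)
    (hI : ∀ p q : ℝ, Tendsto (fun k => ∫ x in p..q, h k x) atTop (𝓝 ((q - p) * κ))) (n : ℕ)
    {f : ℝ → ℝ} (hf : Integrable f (volume.restrict (Ioc (-(n : ℝ)) n))) :
    Tendsto (fun k => ∫ x, f x * h k x ∂(volume.restrict (Ioc (-(n : ℝ)) n))) atTop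
      (𝓝 (κ * ∫ x, f x ∂(volume.restrict (Ioc (-(n : ℝ)) n)))) := by
  set ν : Measure ℝ := volume.restrict (Ioc (-(n : ℝ)) n) with hν
  have hC0 : 0 ≤ C := (abs_nonneg _).trans (hC 0 0)
  have hmul : ∀ {g : ℝ → ℝ} (_ : Integrable g ν) (k : ℕ), Integrable (fun x => g x * h k x) ν :=
    fun hg k => hg.mul_bdd (c := C) (hm k).aestronglyMeasurable
      (Eventually.of_forall fun x => hC k x)
  refine Integrable.induction (μ := ν) (fun f : ℝ → ℝ =>
    Tendsto (fun k => ∫ x, f x * h k x ∂ν) atTop (𝓝 (κ * ∫ x, f x ∂ν))) ?_ ?_ ?_ ?_ hf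
  · intro c s hs _
    have h1 : ∀ k, ∫ x, s.indicator (fun _ => c) x * h k x ∂ν = c * ∫ x in s, h k x ∂ν := by
      intro k
      rw [← integral_const_mul, ← integral_indicator hs]
      refine integral_congr_ae (Eventually.of_forall fun x => ?_)
      by_cases hx : x ∈ s
      · simp [hx]
      · simp [hx]
    have h2 : κ * ∫ x, s.indicator (fun _ => c) x ∂ν = c * ∫ _ in s, κ ∂ν := by
      rw [integral_indicator hs, setIntegral_const, setIntegral_const, smul_eq_mul, smul_eq_mul]
      ring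
    simp only [h1]
    rw [h2]
    exact (wk_set hm hC hI n hs).const_mul c
  · intro f g _ hf hg h1 h2
    have h3 : ∀ k, ∫ x, (f + g) x * h k x ∂ν = ∫ x, f x * h k x ∂ν + ∫ x, g x * h k x ∂ν := by
      intro k
      rw [← integral_add (hmul hf k) (hmul hg k)]
      refine integral_congr_ae (Eventually.of_forall fun x => ?_)
      simp only [Pi.add_apply]
      ring
    have h4 : κ * ∫ x, (f + g) x ∂ν = κ * ∫ x, f x ∂ν + κ * ∫ x, g x ∂ν := by
      rw [← mul_add, ← integral_add hf hg]
      rfl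
    simp only [h3]
    rw [h4]
    exact h1.add h2
  · refine isClosed_of_closure_subset fun f hf' => ?_
    show Tendsto (fun k => ∫ x, f x * h k x ∂ν) atTop (𝓝 (κ * ∫ x, f x ∂ν))
    refine wk_close fun ε hε => ?_
    have hpos : 0 < C + |κ| + 1 := by
      have := abs_nonneg κ
      linarith
    obtain ⟨g, hg, hfg⟩ := Metric.mem_closure_iff.mp hf' (ε / (C + |κ| + 1)) (div_pos hε hpos)
    rw [L1.dist_eq_integral_dist] at hfg
    have hfi : Integrable f ν := L1.integrable_coeFn f
    have hgi : Integrable g ν := L1.integrable_coeFn g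
    have hdi : Integrable (fun x => dist (f x) (g x)) ν := by
      simp only [dist_eq_norm]
      exact (hfi.sub hgi).norm
    have hd0 : 0 ≤ ∫ x, dist (f x) (g x) ∂ν := integral_nonneg fun x => dist_nonneg
    have hle : ∀ {D : ℝ}, 0 ≤ D → D ≤ C + |κ| + 1 → D * ∫ x, dist (f x) (g x) ∂ν ≤ ε := by
      intro D hD hD'
      calc D * ∫ x, dist (f x) (g x) ∂ν ≤ (C + |κ| + 1) * ∫ x, dist (f x) (g x) ∂ν :=
            mul_le_mul_of_nonneg_right hD' hd0
        _ ≤ (C + |κ| + 1) * (ε / (C + |κ| + 1)) :=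
            mul_le_mul_of_nonneg_left hfg.le hpos.le
        _ = ε := by field_simp
    refine ⟨fun k => ∫ x, g x * h k x ∂ν, κ * ∫ x, g x ∂ν, fun k => ?_, ?_, hg⟩
    · rw [← integral_sub (hmul hfi k) (hmul hgi k)]
      refine (abs_integral_le_integral_abs).trans ?_
      refine le_trans ?_ (hle hC0 (by have := abs_nonneg κ; linarith))
      rw [← integral_const_mul]
      refine integral_mono ((hmul hfi k).sub (hmul hgi k)).abs (hdi.const_mul C) fun x => ?_
      show |f x * h k x - g x * h k x| ≤ C * dist (f x) (g x)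
      rw [← sub_mul, abs_mul, mul_comm, Real.dist_eq]
      exact mul_le_mul_of_nonneg_right (hC k x) (abs_nonneg _)
    · rw [← mul_sub, ← integral_sub hfi hgi, abs_mul]
      refine le_trans ?_ (hle (abs_nonneg κ) (by linarith))
      refine mul_le_mul_of_nonneg_left ?_ (abs_nonneg κ)
      refine (abs_integral_le_integral_abs).trans ?_
      refine integral_mono (hfi.sub hgi).abs hdi fun x => ?_
      show |f x - g x| ≤ dist (f x) (g x)
      rw [Real.dist_eq]
  · intro f g hfg _ h1
    have h2 : ∀ k, ∫ x, g x * h k x ∂ν = ∫ x, f x * h k x ∂ν := by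
      intro k
      refine integral_congr_ae ?_
      filter_upwards [hfg] with x hx
      rw [hx]
    have h3 : ∫ x, g x ∂ν = ∫ x, f x ∂ν := integral_congr_ae hfg.symm
    simp only [h2]
    rw [h3]
    exact h1

/-- Bounded functions whose integrals over all intervals converge to `κ` times the length converge
weakly to `κ`. Proof. Given `ε`, choose a continuous `g` of compact support with `∫ |f - g| ≤ ε`
(`Integrable.exists_hasCompactSupport_integral_sub_le`); `g` vanishes outside of `[-N, N]` and it is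
uniformly continuous: for a subdivision of `[-N, N]` into `n` equal intervals `I j` with end point
`x j` the oscillation of `g` on `I j` is at most `ε / (2 * N)`. So
`|∫ g * h k - ∑ j, g (x j) * ∫ x in I j, h k x| ≤ ε * C`, and the sum tends to
`∑ j, g (x j) * κ * |I j|`, which is `κ * ∫ g` up to `ε * |κ|`. Note `|κ| ≤ C`. (Or: the class of
the measurable sets of `[-N, N]` for which the convergence holds is a Dynkin system which contains
the intervals; then `Integrable.induction`.) -/
theorem weak_of_int {h : ℕ → ℝ → ℝ} (hm : ∀ k, Measurable (h k)) {C κ : ℝ}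
    (hC : ∀ k x, |h k x| ≤ C)
    (hI : ∀ p q : ℝ, Tendsto (fun k => ∫ x in p..q, h k x) atTop (𝓝 ((q - p) * κ)))
    {f : ℝ → ℝ} (hf : Integrable f) :
    Tendsto (fun k => ∫ x, f x * h k x) atTop (𝓝 (κ * ∫ x, f x)) := by
  have hC0 : 0 ≤ C := (abs_nonneg _).trans (hC 0 0)
  have hmul : ∀ k : ℕ, Integrable (fun x => f x * h k x) :=
    fun k => hf.mul_bdd (c := C) (hm k).aestronglyMeasurable
      (Eventually.of_forall fun x => hC k x)
  -- the tails
  have htail : Tendsto (fun n : ℕ => ∫ x in (Ioc (-(n : ℝ)) n)ᶜ, |f x|) atTop (𝓝 0) := by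
    have h1 : ∀ n : ℕ, ∫ x in (Ioc (-(n : ℝ)) n)ᶜ, |f x| =
        ∫ x, ((Ioc (-(n : ℝ)) n)ᶜ).indicator (fun x => |f x|) x := fun n =>
      (integral_indicator measurableSet_Ioc.compl).symm
    simp only [h1]
    have h2 : (0 : ℝ) = ∫ _ : ℝ, (0 : ℝ) := by simp
    rw [h2]
    refine tendsto_integral_of_dominated_convergence (fun x => |f x|) (fun n => ?_) hf.abs
      (fun n => Eventually.of_forall fun x => ?_) (Eventually.of_forall fun x => ?_)
    · exact (hf.abs.indicator measurableSet_Ioc.compl).aestronglyMeasurable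
    · rw [Real.norm_eq_abs, abs_of_nonneg (indicator_nonneg (fun _ _ => abs_nonneg _) x)]
      exact indicator_le_self' (fun _ _ => abs_nonneg _) x
    · refine tendsto_const_nhds.congr' ?_
      obtain ⟨N, hN⟩ := exists_nat_gt |x|
      filter_upwards [eventually_ge_atTop N] with n hn
      rw [indicator_of_notMem]
      rw [notMem_compl_iff, mem_Ioc]
      have h3 : |x| < n := hN.trans_le (Nat.cast_le.mpr hn)
      exact ⟨(abs_lt.mp h3).1, (abs_lt.mp h3).2.le⟩
  refine wk_close fun ε hε => ?_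
  have hpos : 0 < C + |κ| + 1 := by
    have := abs_nonneg κ
    linarith
  have hev := htail.eventually (gt_mem_nhds (div_pos hε hpos))
  obtain ⟨n, hn⟩ := hev.exists
  set I := Ioc (-(n : ℝ)) (n : ℝ) with hIdef
  have hIm : MeasurableSet I := measurableSet_Ioc
  have hd0 : 0 ≤ ∫ x in Iᶜ, |f x| := integral_nonneg fun x => abs_nonneg _
  have hle : ∀ {D : ℝ}, 0 ≤ D → D ≤ C + |κ| + 1 → D * ∫ x in Iᶜ, |f x| ≤ ε := by
    intro D hD hD'
    calc D * ∫ x in Iᶜ, |f x| ≤ (C + |κ| + 1) * ∫ x in Iᶜ, |f x| :=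
          mul_le_mul_of_nonneg_right hD' hd0
      _ ≤ (C + |κ| + 1) * (ε / (C + |κ| + 1)) :=
          mul_le_mul_of_nonneg_left hn.le hpos.le
      _ = ε := by field_simp
  refine ⟨fun k => ∫ x in I, f x * h k x, κ * ∫ x in I, f x, fun k => ?_, ?_,
    wk_loc hm hC hI n hf.integrableOn⟩
  · have h2 : (∫ x, f x * h k x) - ∫ x in I, f x * h k x = ∫ x in Iᶜ, f x * h k x := by
      rw [← integral_add_compl hIm (hmul k)]
      ring
    rw [h2]
    refine (abs_integral_le_integral_abs).trans ?_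
    refine le_trans ?_ (hle hC0 (by have := abs_nonneg κ; linarith))
    rw [← integral_const_mul]
    refine integral_mono (hmul k).integrableOn.abs (hf.abs.integrableOn.const_mul C) fun x => ?_
    show |f x * h k x| ≤ C * |f x|
    rw [abs_mul, mul_comm]
    exact mul_le_mul_of_nonneg_right (hC k x) (abs_nonneg _)
  · have h2 : (∫ x, f x) - ∫ x in I, f x = ∫ x in Iᶜ, f x := by
      rw [← integral_add_compl hIm hf]
      ring
    rw [← mul_sub, h2, abs_mul]
    refine le_trans ?_ (hle (abs_nonneg κ) (by linarith))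
    exact mul_le_mul_of_nonneg_left abs_integral_le_integral_abs (abs_nonneg κ)

end Pool.Agent.MP27775c.SR
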