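import Pool.Agent.Lib.MP_27775c_an_SR.WkA

/-!
# MP_27775c_an, project SR, module WkB: weak convergence after a change of variables
-/

set_option autoImplicit false

open MeasureTheory Set Filter Topology
open scoped Manifold ContDiff UpperHalfPlane

namespace Pool.Agent.MP27775c.SR

/-- Proof. `ν = (volume.restrict B).map b` is a finite measure, absolutely continuous because
`b ⁻¹' Z ∩ B` is null for every null set `Z`. Let `f x = (ν.rnDeriv volume x).toReal`, integrable
(`Measure.integrable_toReal_rnDeriv`). Then `∫ x in B, h k (b x) = ∫ h k ∂ν = ∫ x, f x * h k x`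
(`integral_map`, `integral_rnDeriv_smul`), and this tends to `κ * ∫ f = κ * (ν univ).toReal
= κ * (volume B).toReal` by `weak_of_int`. -/
theorem weak_comp {h : ℕ → ℝ → ℝ} (hm : ∀ k, Measurable (h k)) {C κ : ℝ}
    (hC : ∀ k x, |h k x| ≤ C)
    (hI : ∀ p q : ℝ, Tendsto (fun k => ∫ x in p..q, h k x) atTop (𝓝 ((q - p) * κ)))
    {b : ℝ → ℝ} (hb : Measurable b) {B : Set ℝ} (hB : MeasurableSet B) (hB' : volume B ≠ ⊤)
    (hn : ∀ Z : Set ℝ, volume Z = 0 → volume (B ∩ b ⁻¹' Z) = 0) :
    Tendsto (fun k => ∫ x in B, h k (b x)) atTop (𝓝 (κ * (volume B).toReal)) := by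
  have hfin : IsFiniteMeasure (volume.restrict B) :=
    ⟨by rw [Measure.restrict_apply_univ]; exact lt_top_iff_ne_top.2 hB'⟩
  set ν : Measure ℝ := (volume.restrict B).map b with hν
  have hνfin : IsFiniteMeasure ν := Measure.isFiniteMeasure_map _ _
  have hac : ν ≪ (volume : Measure ℝ) := by
    refine Measure.AbsolutelyContinuous.mk fun Z hZ hZ0 => ?_
    rw [hν, Measure.map_apply hb hZ, Measure.restrict_apply (hb hZ), inter_comm]
    exact hn Z hZ0
  have hfint : Integrable (fun x => (ν.rnDeriv volume x).toReal) volume :=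
    Measure.integrable_toReal_rnDeriv
  have h1 : ∀ k, ∫ x in B, h k (b x) = ∫ x, (ν.rnDeriv volume x).toReal * h k x := by
    intro k
    have e1 : ∫ x, h k x ∂ν = ∫ x in B, h k (b x) :=
      integral_map hb.aemeasurable (hm k).aestronglyMeasurable
    have e2 := integral_rnDeriv_smul (μ := ν) (ν := volume) hac (f := h k)
    rw [← e1, ← e2]
    simp [smul_eq_mul]
  have h2 : ∫ x, (ν.rnDeriv volume x).toReal = (volume B).toReal := by
    have e2 := integral_rnDeriv_smul (μ := ν) (ν := volume) hac (f := fun _ => (1 : ℝ))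
    have e3 : ν.real univ = (volume B).toReal := by
      rw [Measure.real, hν, Measure.map_apply hb MeasurableSet.univ, preimage_univ,
        Measure.restrict_apply_univ]
    simp only [smul_eq_mul, mul_one, integral_const] at e2
    rw [e2, e3]
  simp_rw [h1]
  rw [← h2]
  exact weak_of_int hm hC hI hfint

end Pool.Agent.MP27775c.SR
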